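import Pool.Agent.R253.BE.Est
import Pool.Agent.H758R2.Besov.Polar

set_option autoImplicit false

namespace Pool.Agent.R253.BE

open Complex Metric Set Filter Topology MeasureTheory ComplexConjugate
open Pool.Agent.H758R2.Besov (polar_ball polar_intervalIntegrable)

lemma exp_mem {w : ℂ} (hw : w ∈ Lh) : Complex.exp w ∈ ball (0:ℂ) 1 := by
  rw [mem_ball_zero_iff, Complex.norm_exp]
  exact Real.exp_lt_one_iff.2 hw

lemma tendsto_exp_bot' : Tendsto Complex.exp bot' (𝓝 0) :=
  Complex.tendsto_exp_comap_re_atBot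

lemma exp_per (w : ℂ) : Complex.exp (w + 2 * Real.pi * I) = Complex.exp w :=
  Complex.exp_periodic w

lemma exp_line (τ t : ℝ) : Complex.exp (τ + t * I) = circleMap 0 (Real.exp τ) t := by
  simp [circleMap, Complex.exp_add]

section

variable {G F : ℂ → ℂ}

/-- the data attached to two holomorphic functions of the disc -/
noncomputable def mkDat (hG : DifferentiableOn ℂ G (ball 0 1)) (hF : DifferentiableOn ℂ F (ball 0 1))
    {δ : ℝ} (hδ : 0 < δ) : Dat where
  g := fun w => G (exp w)
  g1 := fun w => exp w * deriv G (exp w)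
  g2 := fun w => exp w * (deriv G (exp w) + exp w * deriv (deriv G) (exp w))
  f := fun w => F (exp w)
  f1 := fun w => exp w * deriv F (exp w)
  f2 := fun w => exp w * (deriv F (exp w) + exp w * deriv (deriv F) (exp w))
  hg := by
    intro w hw
    have h1 := (hG.differentiableAt (isOpen_ball.mem_nhds (exp_mem hw))).hasDerivAt
    have h2 := h1.comp w (Complex.hasDerivAt_exp w)
    rw [mul_comm] at h2
    exact h2
  hg1 := by
    intro w hw
    have hG' := hG.deriv isOpen_ball
    have h1 := (hG'.differentiableAt (isOpen_ball.mem_nhds (exp_mem hw))).hasDerivAt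
    have h2 := (Complex.hasDerivAt_exp w).mul (h1.comp w (Complex.hasDerivAt_exp w))
    have e : exp w * (deriv G (exp w) + exp w * deriv (deriv G) (exp w)) =
        exp w * (deriv G ∘ exp) w + exp w * (deriv (deriv G) (exp w) * exp w) := by
      simp only [Function.comp_apply]; ring
    rw [e]
    exact h2
  hf := by
    intro w hw
    have h1 := (hF.differentiableAt (isOpen_ball.mem_nhds (exp_mem hw))).hasDerivAt
    have h2 := h1.comp w (Complex.hasDerivAt_exp w)
    rw [mul_comm] at h2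
    exact h2
  hf1 := by
    intro w hw
    have hF' := hF.deriv isOpen_ball
    have h1 := (hF'.differentiableAt (isOpen_ball.mem_nhds (exp_mem hw))).hasDerivAt
    have h2 := (Complex.hasDerivAt_exp w).mul (h1.comp w (Complex.hasDerivAt_exp w))
    have e : exp w * (deriv F (exp w) + exp w * deriv (deriv F) (exp w)) =
        exp w * (deriv F ∘ exp) w + exp w * (deriv (deriv F) (exp w) * exp w) := by
      simp only [Function.comp_apply]; ring
    rw [e]
    exact h2
  cg2 := by
    have hG' := hG.deriv isOpen_ball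
    have hG'' := hG'.deriv isOpen_ball
    have hm : MapsTo Complex.exp Lh (ball 0 1) := fun w hw => exp_mem hw
    exact Complex.continuous_exp.continuousOn.mul
      ((hG'.continuousOn.comp Complex.continuous_exp.continuousOn hm).add
        (Complex.continuous_exp.continuousOn.mul
          (hG''.continuousOn.comp Complex.continuous_exp.continuousOn hm)))
  cf2 := by
    have hG' := hF.deriv isOpen_ball
    have hG'' := hG'.deriv isOpen_ball
    have hm : MapsTo Complex.exp Lh (ball 0 1) := fun w hw => exp_mem hw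
    exact Complex.continuous_exp.continuousOn.mul
      ((hG'.continuousOn.comp Complex.continuous_exp.continuousOn hm).add
        (Complex.continuous_exp.continuousOn.mul
          (hG''.continuousOn.comp Complex.continuous_exp.continuousOn hm)))
  pg := fun w _ => by rw [exp_per]
  pg1 := fun w _ => by rw [exp_per]
  pf := fun w _ => by rw [exp_per]
  pf1 := fun w _ => by rw [exp_per]
  δ := δ
  hδ := hδ

lemma zero_mem_ball : (0:ℂ) ∈ ball (0:ℂ) 1 := by simp

lemma mkDat_lim (hG : DifferentiableOn ℂ G (ball 0 1)) (hF : DifferentiableOn ℂ F (ball 0 1))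
    {δ : ℝ} (hδ : 0 < δ) : Lim (mkDat hG hF hδ) := by
  have key : ∀ H : ℂ → ℂ, DifferentiableOn ℂ H (ball 0 1) →
      Tendsto (fun w => H (exp w)) bot' (𝓝 (H 0)) := fun H hH =>
    ((hH.differentiableAt (isOpen_ball.mem_nhds zero_mem_ball)).continuousAt.tendsto).comp
      tendsto_exp_bot'
  refine ⟨⟨_, key G hG⟩, ⟨_, key F hF⟩, ?_, ?_⟩
  · have := tendsto_exp_bot'.mul (key _ (hG.deriv isOpen_ball))
    rwa [zero_mul] at this
  · have := tendsto_exp_bot'.mul (key _ (hF.deriv isOpen_ball))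
    rwa [zero_mul] at this

/-- the integrand on the disc -/
noncomputable def Ph (G F : ℂ → ℂ) (δ c : ℝ) (z : ℂ) : ℂ :=
  ((G z + z * deriv G z) * (((‖F z‖ ^ 2 + δ) ^ c : ℝ) : ℂ)) * conj (F z)

lemma Ph_exp (hG : DifferentiableOn ℂ G (ball 0 1)) (hF : DifferentiableOn ℂ F (ball 0 1))
    {δ : ℝ} (hδ : 0 < δ) (c : ℝ) (w : ℂ) : (mkDat hG hF hδ).T c w = Ph G F δ c (exp w) := rfl

lemma cPh (hG : DifferentiableOn ℂ G (ball 0 1)) (hF : DifferentiableOn ℂ F (ball 0 1))
    {δ : ℝ} (hδ : 0 < δ) (c : ℝ) : ContinuousOn (Ph G F δ c) (ball 0 1) := by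
  have h1 : ContinuousOn (fun z => (‖F z‖ ^ 2 + δ) ^ c) (ball 0 1) := by
    apply ContinuousOn.rpow_const ((hF.continuousOn.norm.pow 2).add continuousOn_const)
    intro z _; left
    exact (add_pos_of_nonneg_of_pos (sq_nonneg ‖F z‖) hδ).ne'
  exact ((hG.continuousOn.add (continuousOn_id.mul (hG.deriv isOpen_ball).continuousOn)).mul
    (Complex.continuous_ofReal.comp_continuousOn h1)).mul
    (Complex.continuous_conj.comp_continuousOn hF.continuousOn)

/-- means on circles in both conventions -/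
lemma circle_int_eq {E : Type*} [NormedAddCommGroup E] [NormedSpace ℝ E] (V : ℂ → E) (r : ℝ) :
    ∫ θ in (-Real.pi)..Real.pi, V (circleMap 0 r θ) =
      ∫ θ in (0:ℝ)..(2 * Real.pi), V (circleMap 0 r θ) := by
  have hp : Function.Periodic (fun θ : ℝ => V (circleMap 0 r θ)) (2 * Real.pi) := by
    intro θ
    simp only
    rw [periodic_circleMap 0 r θ]
  have := hp.intervalIntegral_add_eq (-Real.pi) 0
  rw [show -Real.pi + 2 * Real.pi = Real.pi by ring, zero_add] at this
  exact this

lemma mn_exp (V : ℂ → ℂ) (τ : ℝ) : mn (fun w => V (exp w)) τ =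
    ∫ θ in (0:ℝ)..(2 * Real.pi), V (circleMap 0 (Real.exp τ) θ) := by
  unfold mn
  simp only [exp_line]

lemma mr_exp (V : ℂ → ℝ) (τ : ℝ) : mr (fun w => V (exp w)) τ =
    ∫ θ in (0:ℝ)..(2 * Real.pi), V (circleMap 0 (Real.exp τ) θ) := by
  unfold mr
  simp only [exp_line]

/-- continuity of the mean -/
lemma continuousAt_circle {V : ℂ → ℂ} (hV : ContinuousOn V (ball 0 1)) {r : ℝ} (h0 : 0 ≤ r)
    (h1 : r < 1) : ContinuousAt (fun ρ : ℝ => ∫ θ in (-Real.pi)..Real.pi, V (circleMap 0 ρ θ)) r := by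
  set R : ℝ := (r + 1) / 2 with hR
  have hR1 : R < 1 := by rw [hR]; linarith
  have hrR : r < R := by rw [hR]; linarith
  have hsub : closedBall (0:ℂ) R ⊆ ball 0 1 := closedBall_subset_ball hR1
  obtain ⟨C, hC⟩ := (isCompact_closedBall (0:ℂ) R).exists_bound_of_continuousOn (hV.mono hsub)
  have hev : ∀ᶠ ρ in 𝓝 r, |ρ| < R := by
    have : ContinuousAt (fun ρ : ℝ => |ρ|) r := continuous_abs.continuousAt
    apply this.eventually_lt continuousAt_const
    rw [abs_of_nonneg h0]; exact hrR
  have hmem : ∀ ρ : ℝ, |ρ| < R → ∀ θ : ℝ, circleMap 0 ρ θ ∈ closedBall (0:ℂ) R := by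
    intro ρ hρ θ
    rw [mem_closedBall_zero_iff, norm_circleMap_zero]
    exact hρ.le
  apply intervalIntegral.continuousAt_of_dominated_interval (bound := fun _ => C)
  · filter_upwards [hev] with ρ hρ
    apply Continuous.aestronglyMeasurable
    exact hV.comp_continuous (continuous_circleMap 0 ρ) fun θ => hsub (hmem ρ hρ θ)
  · filter_upwards [hev] with ρ hρ
    exact Eventually.of_forall fun θ _ => hC _ (hmem ρ hρ θ)
  · exact intervalIntegrable_const
  · apply Eventually.of_forall
    intro θ _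
    have hr : circleMap 0 r θ ∈ ball (0:ℂ) 1 :=
      hsub (hmem r (by rw [abs_of_nonneg h0]; exact hrR) θ)
    have h2 : ContinuousAt V (circleMap 0 r θ) := hV.continuousAt (isOpen_ball.mem_nhds hr)
    have h3 : ContinuousAt (fun ρ : ℝ => circleMap 0 ρ θ) r := by
      unfold circleMap; fun_prop
    exact ContinuousAt.comp (f := fun ρ : ℝ => circleMap 0 ρ θ) (g := V) h2 h3

/-- derivative of the area integral in the logarithmic radius -/
lemma area_deriv {V : ℂ → ℂ} (hV : ContinuousOn V (ball 0 1)) {τ : ℝ} (hτ : τ < 0) :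
    HasDerivAt (fun τ : ℝ => ∫ z in ball (0:ℂ) (Real.exp τ), V z)
      (((Real.exp (2 * τ) : ℝ) : ℂ) * mn (fun w => V (exp w)) τ) τ := by
  set j : ℝ → ℂ := fun ρ => ∫ θ in (-Real.pi)..Real.pi, V (circleMap 0 ρ θ) with hj
  set i : ℝ → ℂ := fun r => ∫ ρ in (0:ℝ)..r, (ρ : ℂ) * j ρ with hi
  have e1 : ∀ τ < 0, ∫ z in ball (0:ℂ) (Real.exp τ), V z = i (Real.exp τ) := by
    intro τ hτ
    have h1 : Real.exp τ < 1 := Real.exp_lt_one_iff.2 hτ
    rw [polar_ball V (Real.exp_pos τ) (hV.mono (closedBall_subset_ball h1))]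
    rw [hi]
    simp only
    congr 1
    ext ρ
    rw [hj]
    simp only
    rw [← intervalIntegral.integral_const_mul]
    rfl
  have hR1 : Real.exp τ < 1 := Real.exp_lt_one_iff.2 hτ
  have hR0 : 0 < Real.exp τ := Real.exp_pos τ
  have hcj : ∀ ρ ∈ Ioo (0:ℝ) 1, ContinuousAt (fun ρ : ℝ => (ρ : ℂ) * j ρ) ρ := by
    intro ρ hρ
    exact (Complex.continuous_ofReal.continuousAt).mul (continuousAt_circle hV hρ.1.le hρ.2)
  have h2 : HasDerivAt i (((Real.exp τ : ℝ) : ℂ) * j (Real.exp τ)) (Real.exp τ) := by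
    apply intervalIntegral.integral_hasDerivAt_right
    · have := polar_intervalIntegrable V hR0 (hV.mono (closedBall_subset_ball hR1))
      refine this.congr fun ρ _ => ?_
      rw [hj]
      simp only
      rw [← intervalIntegral.integral_const_mul]
      rfl
    · have : ContinuousOn (fun ρ : ℝ => (ρ : ℂ) * j ρ) (Ioo (0:ℝ) 1) := fun ρ hρ =>
        (hcj ρ hρ).continuousWithinAt
      exact this.stronglyMeasurableAtFilter isOpen_Ioo _ ⟨hR0, hR1⟩
    · exact hcj _ ⟨hR0, hR1⟩
  have h3 := HasDerivAt.scomp τ h2 (Real.hasDerivAt_exp τ)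
  have e2 : Real.exp τ • (((Real.exp τ : ℝ) : ℂ) * j (Real.exp τ)) =
      ((Real.exp (2 * τ) : ℝ) : ℂ) * mn (fun w => V (exp w)) τ := by
    rw [mn_exp, hj]
    simp only
    rw [circle_int_eq, show Real.exp (2 * τ) = Real.exp τ * Real.exp τ by
      rw [← Real.exp_add]; congr 1; ring, Complex.real_smul]
    push_cast
    ring
  rw [e2] at h3
  apply h3.congr_of_eventuallyEq
  filter_upwards [gt_mem_nhds hτ] with x hx
  rw [e1 x hx]
  rfl

lemma area_lim {V : ℂ → ℂ} (hV : ContinuousOn V (ball 0 1)) :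
    Tendsto (fun τ : ℝ => ∫ z in ball (0:ℂ) (Real.exp τ), V z) atBot (𝓝 0) := by
  have hsub : closedBall (0:ℂ) (1/2) ⊆ ball 0 1 := closedBall_subset_ball (by norm_num)
  obtain ⟨C, hC⟩ := (isCompact_closedBall (0:ℂ) (1/2)).exists_bound_of_continuousOn (hV.mono hsub)
  have h1 : ∀ᶠ τ : ℝ in atBot, Real.exp τ < 1 / 2 :=
    (Real.tendsto_exp_atBot.eventually (gt_mem_nhds (by norm_num : (0:ℝ) < 1 / 2)))
  have h2 : Tendsto (fun τ : ℝ => C * (volume (ball (0:ℂ) (Real.exp τ))).toReal) atBot (𝓝 0) := by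
    have e : ∀ τ : ℝ, (volume (ball (0:ℂ) (Real.exp τ))).toReal = Real.exp τ ^ 2 * Real.pi := by
      intro τ
      rw [Complex.volume_ball, ENNReal.toReal_mul, ENNReal.toReal_pow,
        ENNReal.toReal_ofReal (Real.exp_pos τ).le]
      simp
    simp only [e]
    have := ((Real.tendsto_exp_atBot.pow 2).mul_const Real.pi).const_mul C
    simpa using this
  apply squeeze_zero_norm' _ h2
  filter_upwards [h1] with τ hτ
  apply norm_setIntegral_le_of_norm_le_const
  · exact measure_ball_lt_top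
  · intro z hz
    apply hC
    rw [mem_closedBall_zero_iff]
    rw [mem_ball_zero_iff] at hz
    exact (hz.trans hτ).le

end

end Pool.Agent.R253.BE
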