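import Pool.Agent.R253.BE.Garsia

set_option autoImplicit false

namespace Pool.Agent.R253.BE

open Complex Metric Set Filter Topology MeasureTheory ComplexConjugate

/-- `b`, a function of the angle, is the boundary function of `k`: it is square integrable,
`2π`-periodic, and `k(re^{iθ}) → b(θ)` in `L²` as `r → 1⁻` -/
structure IsBdry (k : ℂ → ℂ) (b : ℝ → ℂ) : Prop where
  per : Function.Periodic b (2 * Real.pi)
  memLp : MemLp b 2 (volume.restrict (Ioc 0 (2 * Real.pi)))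
  lim : Tendsto (fun r : ℝ => ∫ θ in (0:ℝ)..(2 * Real.pi), ‖k (circleMap 0 r θ) - b θ‖ ^ 2)
    (𝓝[<] 1) (𝓝 0)

/-- the mean of `b` over the arc `{e^{iθ} : α < θ < β}` -/
noncomputable def arcMean (b : ℝ → ℂ) (α β : ℝ) : ℂ := (((β - α)⁻¹ : ℝ) : ℂ) * ∫ θ in α..β, b θ

/-- `b`, a `2π`-periodic function of the angle, has bounded mean oscillation on the unit circle -/
def HasBMO (b : ℝ → ℂ) : Prop :=
  IntervalIntegrable b volume 0 (2 * Real.pi) ∧
  ∃ C : ℝ, ∀ α β : ℝ, α < β → β - α ≤ 2 * Real.pi →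
    (β - α)⁻¹ * ∫ θ in α..β, ‖b θ - arcMean b α β‖ ≤ C

/-- the mean squares -/
noncomputable def Nk (k : ℂ → ℂ) (r : ℝ) : ℝ :=
  ∫ θ in (0:ℝ)..(2 * Real.pi), ‖k (circleMap 0 r θ)‖ ^ 2

lemma Nk_mono {k : ℂ → ℂ} (hk : DifferentiableOn ℂ k (ball 0 1)) {r s : ℝ} (h0 : 0 < r)
    (hrs : r ≤ s) (hs : s < 1) : Nk k r ≤ Nk k s := by
  have := mean_mono hk (t := 2) two_pos h0 hrs hs
  unfold Nk
  simpa only [Real.rpow_two] using this

lemma Nk_diff {k : ℂ → ℂ} (hk : DifferentiableOn ℂ k (ball 0 1)) {r s : ℝ} (h0 : 0 < r)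
    (hrs : r ≤ s) (hs : s < 1) :
    ∫ θ in (0:ℝ)..(2 * Real.pi), ‖k (circleMap 0 r θ) - k (circleMap 0 s θ)‖ ^ 2 ≤
      Nk k s - Nk k r := by
  have hs0 : 0 < s := lt_of_lt_of_le h0 hrs
  set u : ℝ := Real.sqrt (r * s) with hu
  have hu0 : 0 < u := Real.sqrt_pos.2 (by positivity)
  have hu2 : u * u = r * s := Real.mul_self_sqrt (by positivity)
  have hru : r ≤ u := by
    rw [hu]; apply Real.le_sqrt_of_sq_le; nlinarith
  have hus : u ≤ s := by
    rw [hu]; apply Real.sqrt_le_iff.2; constructor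
    · exact hs0.le
    · nlinarith
  have hkc : ∀ ρ : ℝ, 0 ≤ ρ → ρ < 1 → Continuous fun θ : ℝ => k (circleMap 0 ρ θ) :=
    fun ρ h h' => cont_circ hk.continuousOn h h'
  have hr1 : r < 1 := lt_of_le_of_lt hrs hs
  have hcr := hkc r h0.le hr1
  have hcs := hkc s hs0.le hs
  have ht := transfer (A := k) (B := k) hk hk (r := u) (R := s) (c := r * s) hu0 hus hs
    (by positivity) (by rw [← hu2, mul_div_cancel_right₀ _ hu0.ne']; linarith)
  rw [mul_div_cancel_right₀ _ hs0.ne', ← hu2, mul_div_cancel_right₀ _ hu0.ne'] at ht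
  have ht2 : (∫ θ in (0:ℝ)..(2 * Real.pi), (k (circleMap 0 s θ) * conj (k (circleMap 0 r θ))).re) =
      Nk k u := by
    have h1 := congrArg Complex.re ht
    have hc : Continuous fun θ : ℝ => k (circleMap 0 s θ) * conj (k (circleMap 0 r θ)) :=
      hcs.mul (Complex.continuous_conj.comp hcr)
    have e1 := Complex.reCLM.intervalIntegral_comp_comm
      (hc.intervalIntegrable (μ := volume) 0 (2 * Real.pi))
    simp only [Complex.reCLM_apply] at e1
    rw [e1, h1]
    have e2 : ∀ θ : ℝ, k (circleMap 0 u θ) * conj (k (circleMap 0 u θ)) =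
        ((‖k (circleMap 0 u θ)‖ ^ 2 : ℝ) : ℂ) := by
      intro θ; rw [Complex.mul_conj']; push_cast; rfl
    simp only [e2]
    rw [intervalIntegral.integral_ofReal, Complex.ofReal_re]
    rfl
  have e3 : ∀ θ : ℝ, ‖k (circleMap 0 r θ) - k (circleMap 0 s θ)‖ ^ 2 =
      ‖k (circleMap 0 r θ)‖ ^ 2 + ‖k (circleMap 0 s θ)‖ ^ 2 -
        2 * (k (circleMap 0 s θ) * conj (k (circleMap 0 r θ))).re := by
    intro θ
    rw [← Complex.normSq_eq_norm_sq, ← Complex.normSq_eq_norm_sq, ← Complex.normSq_eq_norm_sq,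
      Complex.normSq_sub]
    congr 2
    rw [Complex.mul_re, Complex.mul_re, Complex.conj_re, Complex.conj_im, Complex.conj_re,
      Complex.conj_im]
    ring
  have c1 : Continuous fun θ : ℝ => ‖k (circleMap 0 r θ)‖ ^ 2 := hcr.norm.pow 2
  have c2 : Continuous fun θ : ℝ => ‖k (circleMap 0 s θ)‖ ^ 2 := hcs.norm.pow 2
  have c12 : Continuous fun θ : ℝ => ‖k (circleMap 0 r θ)‖ ^ 2 + ‖k (circleMap 0 s θ)‖ ^ 2 := c1.add c2
  have c3 : Continuous fun θ : ℝ => 2 * (k (circleMap 0 s θ) * conj (k (circleMap 0 r θ))).re :=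
    continuous_const.mul (Complex.continuous_re.comp (hcs.mul (Complex.continuous_conj.comp hcr)))
  simp only [e3]
  rw [intervalIntegral.integral_sub (c12.intervalIntegrable _ _) (c3.intervalIntegrable _ _),
    intervalIntegral.integral_add (c1.intervalIntegrable _ _) (c2.intervalIntegrable _ _),
    intervalIntegral.integral_const_mul, ht2]
  have h1 : Nk k r ≤ Nk k u := Nk_mono hk h0 hru (by linarith)
  have e4 : ∫ θ in (0:ℝ)..(2 * Real.pi), ‖k (circleMap 0 r θ)‖ ^ 2 = Nk k r := rfl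
  have e5 : ∫ θ in (0:ℝ)..(2 * Real.pi), ‖k (circleMap 0 s θ)‖ ^ 2 = Nk k s := rfl
  rw [e4, e5]
  linarith

/-- the period measure -/
noncomputable abbrev m0 : Measure ℝ := volume.restrict (Ioc 0 (2 * Real.pi))

lemma l2_norm_sq (f : Lp ℂ 2 m0) : ‖f‖ ^ 2 = ∫ θ, ‖f θ‖ ^ 2 ∂m0 := by
  have h := MeasureTheory.L2.inner_def (𝕜 := ℂ) f f
  have h2 : ‖f‖ ^ 2 = (inner ℂ f f).re := by
    rw [inner_self_eq_norm_sq_to_K]
    norm_cast
  rw [h2, h]
  have e : ∀ θ, inner ℂ (f θ) (f θ) = ((‖f θ‖ ^ 2 : ℝ) : ℂ) := by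
    intro θ
    rw [inner_self_eq_norm_sq_to_K]
    norm_cast
  simp only [e]
  rw [integral_complex_ofReal]
  simp

lemma memLp_cont {g : ℝ → ℂ} (hg : Continuous g) : MemLp g 2 m0 := by
  have hfin : IsFiniteMeasure m0 := by
    constructor
    rw [Measure.restrict_apply_univ, Real.volume_Ioc]
    exact ENNReal.ofReal_lt_top
  obtain ⟨C, hC⟩ := isCompact_Icc.exists_bound_of_continuousOn (s := Icc 0 (2 * Real.pi))
    hg.continuousOn
  apply MemLp.of_bound hg.aestronglyMeasurable C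
  filter_upwards [ae_restrict_mem measurableSet_Ioc] with θ hθ
  exact hC θ (Ioc_subset_Icc_self hθ)

/-- existence of the boundary function in `H²` -/
theorem exists_bdry {k : ℂ → ℂ} (hk : DifferentiableOn ℂ k (ball 0 1)) {B : ℝ}
    (hB : ∀ r : ℝ, 0 < r → r < 1 → Nk k r ≤ B) : ∃ b : ℝ → ℂ, IsBdry k b := by
  have h2π : (0:ℝ) ≤ 2 * Real.pi := by positivity
  have hcont : ∀ n, Continuous fun θ : ℝ => k (circleMap 0 (Rn n) θ) := fun n =>
    cont_circ hk.continuousOn (Rn_pos n).le (Rn_lt n)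
  set U : ℕ → Lp ℂ 2 m0 := fun n => (memLp_cont (hcont n)).toLp _ with hU
  -- the limit of the mean squares
  have hmono : Monotone fun n => Nk k (Rn n) := fun m n h =>
    Nk_mono hk (Rn_pos m) (Rn_mono h) (Rn_lt n)
  have hbdd : BddAbove (range fun n => Nk k (Rn n)) :=
    ⟨B, by rintro _ ⟨n, rfl⟩; exact hB _ (Rn_pos n) (Rn_lt n)⟩
  set L : ℝ := ⨆ n, Nk k (Rn n) with hL
  have htend : Tendsto (fun n => Nk k (Rn n)) atTop (𝓝 L) := tendsto_atTop_ciSup hmono hbdd
  have hle : ∀ n, Nk k (Rn n) ≤ L := fun n => le_ciSup hbdd n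
  have hdist : ∀ m n, m ≤ n → dist (U m) (U n) ^ 2 ≤ Nk k (Rn n) - Nk k (Rn m) := by
    intro m n hmn
    rw [dist_eq_norm, hU]
    simp only
    rw [← MemLp.toLp_sub, l2_norm_sq]
    have e1 : ∫ θ, ‖(MemLp.toLp _ ((memLp_cont (hcont m)).sub (memLp_cont (hcont n)))) θ‖ ^ 2 ∂m0 =
        ∫ θ, ‖k (circleMap 0 (Rn m) θ) - k (circleMap 0 (Rn n) θ)‖ ^ 2 ∂m0 := by
      apply integral_congr_ae
      filter_upwards [((memLp_cont (hcont m)).sub (memLp_cont (hcont n))).coeFn_toLp] with θ hθ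
      rw [hθ]
      rfl
    rw [e1]
    have := Nk_diff hk (Rn_pos m) (Rn_mono hmn) (Rn_lt n)
    rwa [intervalIntegral.integral_of_le h2π] at this
  have hcau : CauchySeq U := by
    rw [Metric.cauchySeq_iff']
    intro ε hε
    have h1 : ∀ᶠ n in atTop, L - ε ^ 2 < Nk k (Rn n) :=
      htend.eventually (lt_mem_nhds (by have := sq_pos_of_pos hε; linarith))
    obtain ⟨N, hN⟩ := h1.exists
    refine ⟨N, fun n hn => ?_⟩
    have h2 := hdist N n hn
    have h3 := hle n
    rw [dist_comm]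
    have h4 : dist (U N) (U n) ^ 2 < ε ^ 2 := by linarith
    exact lt_of_pow_lt_pow_left₀ 2 hε.le h4
  obtain ⟨f, hf⟩ := cauchySeq_tendsto_of_complete hcau
  -- distance from `k_r` to `f`
  have hr : ∀ r : ℝ, 0 < r → r < 1 →
      ∫ θ, ‖k (circleMap 0 r θ) - f θ‖ ^ 2 ∂m0 ≤ L - Nk k r := by
    intro r h0 h1
    have hcr : Continuous fun θ : ℝ => k (circleMap 0 r θ) := cont_circ hk.continuousOn h0.le h1
    set V : Lp ℂ 2 m0 := (memLp_cont hcr).toLp _ with hV
    have h2 : Tendsto (fun n => dist V (U n) ^ 2) atTop (𝓝 (dist V f ^ 2)) :=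
      (tendsto_const_nhds.dist hf).pow 2
    have h3 : ∀ᶠ n in atTop, dist V (U n) ^ 2 ≤ L - Nk k r := by
      filter_upwards [Rn_lim.eventually (lt_mem_nhds h1)] with n hn
      rw [dist_eq_norm, hU, hV]
      simp only
      rw [← MemLp.toLp_sub, l2_norm_sq]
      have e1 : ∫ θ, ‖(MemLp.toLp _ ((memLp_cont hcr).sub (memLp_cont (hcont n)))) θ‖ ^ 2 ∂m0 =
          ∫ θ, ‖k (circleMap 0 r θ) - k (circleMap 0 (Rn n) θ)‖ ^ 2 ∂m0 := by
        apply integral_congr_ae
        filter_upwards [((memLp_cont hcr).sub (memLp_cont (hcont n))).coeFn_toLp] with θ hθ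
        rw [hθ]
        rfl
      rw [e1]
      have := Nk_diff hk h0 hn.le (Rn_lt n)
      rw [intervalIntegral.integral_of_le h2π] at this
      have h5 := hle n
      linarith
    have h4 := le_of_tendsto h2 h3
    rw [dist_eq_norm, l2_norm_sq] at h4
    refine le_trans (le_of_eq ?_) h4
    apply integral_congr_ae
    filter_upwards [Lp.coeFn_sub V f, (memLp_cont hcr).coeFn_toLp] with θ h5 h6
    rw [h5, Pi.sub_apply, h6]
  -- the periodic extension
  set b : ℝ → ℂ := fun θ => f (toIocMod Real.two_pi_pos 0 θ) with hb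
  have hbf : ∀ θ ∈ Ioc (0:ℝ) (2 * Real.pi), b θ = f θ := by
    intro θ hθ
    simp only [hb]
    congr 1
    rw [toIocMod_eq_self]
    rwa [zero_add]
  have hae : b =ᵐ[m0] f := by
    filter_upwards [ae_restrict_mem measurableSet_Ioc] with θ hθ
    exact hbf θ hθ
  refine ⟨b, ?_, ?_, ?_⟩
  · intro θ
    simp only [hb]
    rw [toIocMod_add_right]
  · exact (Lp.memLp f).ae_eq hae.symm
  · have hLim : Tendsto (fun r : ℝ => L - Nk k r) (𝓝[<] 1) (𝓝 0) := by
      rw [Metric.tendsto_nhds]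
      intro ε hε
      have h1 : ∀ᶠ n in atTop, L - ε < Nk k (Rn n) := htend.eventually (lt_mem_nhds (by linarith))
      obtain ⟨N, hN⟩ := h1.exists
      have h2 : ∀ᶠ r : ℝ in 𝓝[<] 1, Rn N < r := nhdsWithin_le_nhds (lt_mem_nhds (Rn_lt N))
      filter_upwards [h2, self_mem_nhdsWithin] with r hr1 hr2
      have hr2' : r < 1 := hr2
      have h3 := Nk_mono hk (Rn_pos N) hr1.le hr2'
      have h4 : Nk k r ≤ L := by
        obtain ⟨M, hM⟩ := (Rn_lim.eventually (lt_mem_nhds hr2')).exists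
        exact (Nk_mono hk ((Rn_pos N).trans hr1) hM.le (Rn_lt M)).trans (hle M)
      rw [Real.dist_eq, sub_zero, abs_of_nonneg (by linarith)]
      linarith
    apply squeeze_zero' _ _ hLim
    · exact Eventually.of_forall fun r => intervalIntegral.integral_nonneg h2π fun θ _ => by positivity
    · have h2 : ∀ᶠ r : ℝ in 𝓝[<] 1, 0 < r := nhdsWithin_le_nhds (lt_mem_nhds one_pos)
      filter_upwards [h2, self_mem_nhdsWithin] with r hr1 hr2
      refine le_trans (le_of_eq ?_) (hr r hr1 hr2)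
      rw [intervalIntegral.integral_of_le h2π]
      apply setIntegral_congr_fun measurableSet_Ioc
      intro θ hθ
      simp only
      rw [hbf θ hθ]

end Pool.Agent.R253.BE
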