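import Pool.Agent.R253.BE.Bdry

set_option autoImplicit false

namespace Pool.Agent.R253.BE

open Complex Metric Set Filter Topology MeasureTheory ComplexConjugate

lemma sqi {g : ℝ → ℂ} (hp : Function.Periodic g (2 * Real.pi)) (hg : MemLp g 2 m0) (α β : ℝ) :
    IntervalIntegrable (fun θ => ‖g θ‖ ^ 2) volume α β := by
  have h1 : Function.Periodic (fun θ => ‖g θ‖ ^ 2) (2 * Real.pi) := fun θ => by simp only [hp θ]
  apply h1.intervalIntegrable₀ Real.two_pi_pos.ne'
  rw [intervalIntegrable_iff_integrableOn_Ioc_of_le (by positivity)]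
  exact (memLp_two_iff_integrable_sq_norm hg.aestronglyMeasurable).1 hg

lemma fin_m0 : IsFiniteMeasure m0 := by
  constructor
  rw [Measure.restrict_apply_univ, Real.volume_Ioc]
  exact ENNReal.ofReal_lt_top

lemma l1i {g : ℝ → ℂ} (hp : Function.Periodic g (2 * Real.pi)) (hg : MemLp g 2 m0) (α β : ℝ) :
    IntervalIntegrable g volume α β := by
  have := fin_m0
  apply hp.intervalIntegrable₀ Real.two_pi_pos.ne'
  rw [intervalIntegrable_iff_integrableOn_Ioc_of_le (by positivity)]
  exact hg.integrable (by norm_num)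

/-- an integral over an arc is at most the integral over the circle -/
lemma arc_le {g : ℝ → ℝ} (hp : Function.Periodic g (2 * Real.pi)) (h0 : ∀ θ, 0 ≤ g θ)
    (hi : ∀ α β, IntervalIntegrable g volume α β) {α β : ℝ} (h1 : α < β) (h2 : β - α ≤ 2 * Real.pi) :
    ∫ θ in α..β, g θ ≤ ∫ θ in (0:ℝ)..(2 * Real.pi), g θ := by
  have h3 := hp.intervalIntegral_add_eq 0 α
  rw [zero_add] at h3
  rw [h3]
  apply intervalIntegral.integral_mono_interval le_rfl h1.le (by linarith)
    (Eventually.of_forall h0) (hi _ _)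

lemma pz_per (a : ℂ) : Function.Periodic (pz a) (2 * Real.pi) := by
  intro θ
  unfold pz
  rw [periodic_circleMap 0 1 θ]

/-- lower bound of the Poisson kernel on an arc -/
lemma pz_lower {α β : ℝ} (h1 : α < β) (h2 : β - α ≤ 2 * Real.pi) :
    ∃ a : ℂ, ‖a‖ < 1 ∧ ∀ θ ∈ Icc α β, 2 / ((β - α) * ((Real.pi + 1) ^ 2 / Real.pi)) ≤ pz a θ := by
  have hπ := Real.pi_pos
  set η : ℝ := (β - α) / 2 with hη
  have hη0 : 0 < η := by rw [hη]; linarith
  have hηπ : η ≤ Real.pi := by rw [hη]; linarith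
  set δ : ℝ := η / Real.pi with hδ
  have hδ0 : 0 < δ := by positivity
  have hδ1 : δ ≤ 1 := by rw [hδ, div_le_one hπ]; exact hηπ
  set θ₀ : ℝ := (α + β) / 2 with hθ₀
  refine ⟨circleMap 0 (1 - δ) θ₀, ?_, ?_⟩
  · rw [norm_circleMap_zero, abs_of_nonneg (by linarith)]; linarith
  · intro θ hθ
    set a : ℂ := circleMap 0 (1 - δ) θ₀ with ha
    have hna : ‖a‖ = 1 - δ := by
      rw [ha, norm_circleMap_zero, abs_of_nonneg (by linarith)]
    have hd1 : ‖circleMap 0 1 θ - circleMap 0 1 θ₀‖ ≤ η := by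
      have h := (lipschitzWith_circleMap (0:ℂ) 1).dist_le_mul θ θ₀
      rw [dist_eq_norm] at h
      have h3 : dist θ θ₀ ≤ η := by
        rw [Real.dist_eq, abs_le]
        constructor <;> rw [hη, hθ₀] <;> linarith [hθ.1, hθ.2]
      simp at h
      linarith
    have hd2 : ‖circleMap 0 1 θ₀ - a‖ = δ := by
      have e : circleMap 0 1 θ₀ - a = (δ : ℂ) * circleMap 0 1 θ₀ := by
        rw [ha]; simp only [circleMap, zero_add]; push_cast; ring
      rw [e, norm_mul, Complex.norm_real, circ_norm, mul_one, Real.norm_eq_abs, abs_of_pos hδ0]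
    have hd3 : ‖circleMap 0 1 θ - a‖ ≤ η + δ := by
      have e : circleMap 0 1 θ - a = (circleMap 0 1 θ - circleMap 0 1 θ₀) + (circleMap 0 1 θ₀ - a) := by
        ring
      rw [e]
      exact (norm_add_le _ _).trans (add_le_add hd1 hd2.le)
    have hpos : 0 < ‖circleMap 0 1 θ - a‖ := norm_pos_iff.2 (circ_ne (by rw [hna]; linarith) θ)
    unfold pz
    have hsq : ‖circleMap 0 1 θ - a‖ ^ 2 ≤ (η + δ) ^ 2 := by gcongr
    calc 2 / ((β - α) * ((Real.pi + 1) ^ 2 / Real.pi)) = δ / (η + δ) ^ 2 := by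
          have e1 : β - α = 2 * η := by rw [hη]; ring
          rw [e1, hδ]
          field_simp
      _ ≤ δ / ‖circleMap 0 1 θ - a‖ ^ 2 := by gcongr
      _ ≤ (1 - ‖a‖ ^ 2) / ‖circleMap 0 1 θ - a‖ ^ 2 := by
          gcongr
          rw [hna]; nlinarith

theorem bmo_of_garsia {k : ℂ → ℂ} (hk : DifferentiableOn ℂ k (ball 0 1)) {b : ℝ → ℂ}
    (hb : IsBdry k b) {D : ℝ} (hD : 0 ≤ D)
    (hG : ∀ r : ℝ, 0 < r → r < 1 → ∀ a : ℂ, ‖a‖ < 1 →
      ∫ θ in (0:ℝ)..(2 * Real.pi), pz a θ * ‖k (circleMap 0 r θ) - k (r * a)‖ ^ 2 ≤ D) :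
    HasBMO b := by
  have hπ := Real.pi_pos
  have hfin := fin_m0
  set c1 : ℝ := (Real.pi + 1) ^ 2 / Real.pi with hc1
  have hc10 : 0 < c1 := by positivity
  refine ⟨l1i hb.per hb.memLp _ _, 1 + 3 * (D * (c1 / 2)), ?_⟩
  intro α β h1 h2
  have hℓ : 0 < β - α := by linarith
  obtain ⟨a, ha, hlow⟩ := pz_lower h1 h2
  rw [← hc1] at hlow
  set c : ℂ := k a with hc
  -- the estimate for the dilates
  have hdil : ∀ r : ℝ, 0 < r → r < 1 →
      ∫ θ in α..β, ‖k (circleMap 0 r θ) - k (r * a)‖ ^ 2 ≤ D * (c1 / 2) * (β - α) := by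
    intro r h0 h1'
    have hkc : Continuous fun θ : ℝ => k (circleMap 0 r θ) := cont_circ hk.continuousOn h0.le h1'
    have hpc := pz_cont ha
    have hcc : Continuous fun θ : ℝ => pz a θ * ‖k (circleMap 0 r θ) - k (r * a)‖ ^ 2 :=
      hpc.mul ((hkc.sub continuous_const).norm.pow 2)
    have hper : Function.Periodic (fun θ : ℝ => pz a θ * ‖k (circleMap 0 r θ) - k (r * a)‖ ^ 2)
        (2 * Real.pi) := by
      intro θ
      simp only
      rw [pz_per a θ, periodic_circleMap 0 r θ]
    have h3 := arc_le hper (fun θ => by have := pz_pos ha θ; positivity)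
      (fun _ _ => hcc.intervalIntegrable _ _) h1 h2
    have h4 : ∫ θ in α..β, ‖k (circleMap 0 r θ) - k (r * a)‖ ^ 2 ≤
        ∫ θ in α..β, (c1 / 2 * (β - α)) * (pz a θ * ‖k (circleMap 0 r θ) - k (r * a)‖ ^ 2) := by
      apply intervalIntegral.integral_mono_on h1.le
      · exact ((hkc.sub continuous_const).norm.pow 2).intervalIntegrable _ _
      · exact (continuous_const.mul hcc).intervalIntegrable _ _
      · intro θ hθ
        have h5 := hlow θ hθ
        rw [div_le_iff₀ (by positivity)] at h5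
        have h6 : 1 ≤ c1 / 2 * (β - α) * pz a θ := by nlinarith
        have h7 := mul_le_mul_of_nonneg_right h6 (sq_nonneg ‖k (circleMap 0 r θ) - k (r * a)‖)
        linarith
    rw [intervalIntegral.integral_const_mul] at h4
    have h5 := mul_le_mul_of_nonneg_left (h3.trans (hG r h0 h1' a ha))
      (show 0 ≤ c1 / 2 * (β - α) by positivity)
    linarith
  -- passage to the limit
  have hbc : MemLp (fun θ => b θ - c) 2 m0 := hb.memLp.sub (memLp_const c)
  have hbcp : Function.Periodic (fun θ => b θ - c) (2 * Real.pi) := fun θ => by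
    simp only [hb.per θ]
  have hlim : ∫ θ in α..β, ‖b θ - c‖ ^ 2 ≤ 3 * (D * (c1 / 2) * (β - α)) := by
    have hev : ∀ r : ℝ, 0 < r → r < 1 → ∫ θ in α..β, ‖b θ - c‖ ^ 2 ≤
        3 * (∫ θ in (0:ℝ)..(2 * Real.pi), ‖k (circleMap 0 r θ) - b θ‖ ^ 2) +
          3 * (D * (c1 / 2) * (β - α)) + 3 * ((β - α) * ‖k (r * a) - k a‖ ^ 2) := by
      intro r h0 h1'
      have hkc : Continuous fun θ : ℝ => k (circleMap 0 r θ) := cont_circ hk.continuousOn h0.le h1'
      have hkb : MemLp (fun θ => k (circleMap 0 r θ) - b θ) 2 m0 := (memLp_cont hkc).sub hb.memLp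
      have hkbp : Function.Periodic (fun θ => k (circleMap 0 r θ) - b θ) (2 * Real.pi) := by
        intro θ
        simp only
        rw [hb.per θ, periodic_circleMap 0 r θ]
      have i1 := sqi hkbp hkb
      have i2 : ∀ α β : ℝ, IntervalIntegrable (fun θ => ‖k (circleMap 0 r θ) - k (r * a)‖ ^ 2)
          volume α β := fun α β =>
        (((hkc.sub continuous_const).norm.pow 2 : Continuous fun θ : ℝ =>
          ‖k (circleMap 0 r θ) - k (r * a)‖ ^ 2)).intervalIntegrable _ _
      have h3 := arc_le (g := fun θ => ‖k (circleMap 0 r θ) - b θ‖ ^ 2)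
        (fun θ => by have := hkbp θ; simp only at this ⊢; rw [this]) (fun θ => by positivity) i1 h1 h2
      have h4 : ∫ θ in α..β, ‖b θ - c‖ ^ 2 ≤ ∫ θ in α..β,
          (3 * ‖k (circleMap 0 r θ) - b θ‖ ^ 2 + 3 * ‖k (circleMap 0 r θ) - k (r * a)‖ ^ 2 +
            3 * ‖k (r * a) - k a‖ ^ 2) := by
        apply intervalIntegral.integral_mono_on h1.le (sqi hbcp hbc _ _)
        · exact (((i1 α β).const_mul 3).add ((i2 α β).const_mul 3)).add intervalIntegrable_const
        · intro θ _
          have h5 : ‖b θ - c‖ ≤ ‖k (circleMap 0 r θ) - b θ‖ + ‖k (circleMap 0 r θ) - k (r * a)‖ +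
              ‖k (r * a) - k a‖ := by
            have e : b θ - c = -(k (circleMap 0 r θ) - b θ) + (k (circleMap 0 r θ) - k (r * a)) +
                (k (r * a) - k a) := by rw [hc]; ring
            rw [e]
            refine (norm_add_le _ _).trans (add_le_add ((norm_add_le _ _).trans ?_) le_rfl)
            rw [norm_neg]
          have n1 := norm_nonneg (k (circleMap 0 r θ) - b θ)
          have n2 := norm_nonneg (k (circleMap 0 r θ) - k (r * a))
          have n3 := norm_nonneg (k (r * a) - k a)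
          have n4 := norm_nonneg (b θ - c)
          have h6 : ‖b θ - c‖ ^ 2 ≤ (‖k (circleMap 0 r θ) - b θ‖ +
              ‖k (circleMap 0 r θ) - k (r * a)‖ + ‖k (r * a) - k a‖) ^ 2 := by gcongr
          nlinarith [sq_nonneg (‖k (circleMap 0 r θ) - b θ‖ - ‖k (circleMap 0 r θ) - k (r * a)‖),
            sq_nonneg (‖k (circleMap 0 r θ) - b θ‖ - ‖k (r * a) - k a‖),
            sq_nonneg (‖k (circleMap 0 r θ) - k (r * a)‖ - ‖k (r * a) - k a‖)]
      have i12 : IntervalIntegrable (fun θ => 3 * ‖k (circleMap 0 r θ) - b θ‖ ^ 2 +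
          3 * ‖k (circleMap 0 r θ) - k (r * a)‖ ^ 2) volume α β :=
        ((i1 α β).const_mul 3).add ((i2 α β).const_mul 3)
      rw [intervalIntegral.integral_add i12 intervalIntegrable_const,
        intervalIntegral.integral_add ((i1 α β).const_mul 3) ((i2 α β).const_mul 3),
        intervalIntegral.integral_const_mul, intervalIntegral.integral_const_mul,
        intervalIntegral.integral_const, smul_eq_mul] at h4
      have h5 := hdil r h0 h1'
      linarith
    have ht : Tendsto (fun r : ℝ =>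
        3 * (∫ θ in (0:ℝ)..(2 * Real.pi), ‖k (circleMap 0 r θ) - b θ‖ ^ 2) +
          3 * (D * (c1 / 2) * (β - α)) + 3 * ((β - α) * ‖k (r * a) - k a‖ ^ 2)) (𝓝[<] 1)
        (𝓝 (3 * 0 + 3 * (D * (c1 / 2) * (β - α)) + 3 * ((β - α) * ‖k a - k a‖ ^ 2))) := by
      apply Tendsto.add
      · exact (hb.lim.const_mul 3).add tendsto_const_nhds
      · apply Tendsto.const_mul
        apply Tendsto.const_mul
        apply Tendsto.pow
        apply Tendsto.norm
        apply Tendsto.sub _ tendsto_const_nhds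
        have hka : ContinuousAt k a := (hk.differentiableAt (isOpen_ball.mem_nhds
          (by rw [mem_ball_zero_iff]; exact ha))).continuousAt
        have h3 : Tendsto (fun r : ℝ => (r:ℂ) * a) (𝓝[<] 1) (𝓝 a) := by
          have h4 : Continuous fun r : ℝ => (r:ℂ) * a := by fun_prop
          have h5 := h4.tendsto 1
          rw [Complex.ofReal_one, one_mul] at h5
          exact h5.mono_left nhdsWithin_le_nhds
        exact hka.tendsto.comp h3
    rw [sub_self, norm_zero] at ht
    have h2' : ∀ᶠ r : ℝ in 𝓝[<] 1, 0 < r := nhdsWithin_le_nhds (lt_mem_nhds one_pos)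
    have h6 := ge_of_tendsto ht (by
      filter_upwards [h2', self_mem_nhdsWithin] with r hr1 hr2
      exact hev r hr1 hr2)
    linarith
  -- the mean oscillation
  set w : ℝ := (β - α)⁻¹ * ∫ θ in α..β, ‖b θ - c‖ with hw
  have ibc : IntervalIntegrable (fun θ => b θ - c) volume α β := l1i hbcp hbc _ _
  have hw1 : w ≤ 1 / 2 + 1 / 2 * (3 * (D * (c1 / 2))) := by
    have h3 : ∫ θ in α..β, ‖b θ - c‖ ≤ ∫ θ in α..β, (1 / 2 + 1 / 2 * ‖b θ - c‖ ^ 2) := by
      apply intervalIntegral.integral_mono_on h1.le ibc.norm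
      · exact intervalIntegrable_const.add ((sqi hbcp hbc α β).const_mul _)
      · intro θ _
        nlinarith [sq_nonneg (‖b θ - c‖ - 1)]
    rw [intervalIntegral.integral_add intervalIntegrable_const ((sqi hbcp hbc α β).const_mul _),
      intervalIntegral.integral_const_mul, intervalIntegral.integral_const, smul_eq_mul] at h3
    have h4 : ∫ θ in α..β, ‖b θ - c‖ ≤ (1 / 2 + 1 / 2 * (3 * (D * (c1 / 2)))) * (β - α) := by
      linarith
    rw [hw, inv_mul_le_iff₀ hℓ]
    linarith
  have hmean : ‖c - arcMean b α β‖ ≤ w := by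
    have e : c - arcMean b α β = -((((β - α)⁻¹ : ℝ) : ℂ) * ∫ θ in α..β, (b θ - c)) := by
      rw [intervalIntegral.integral_sub (l1i hb.per hb.memLp _ _) intervalIntegrable_const,
        intervalIntegral.integral_const]
      unfold arcMean
      have hne : ((β - α : ℝ) : ℂ) ≠ 0 := Complex.ofReal_ne_zero.2 hℓ.ne'
      rw [Complex.real_smul, Complex.ofReal_inv]
      field_simp
      ring
    rw [e, norm_neg, norm_mul, Complex.norm_real, Real.norm_eq_abs, abs_of_pos (inv_pos.2 hℓ), hw]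
    apply mul_le_mul_of_nonneg_left _ (inv_pos.2 hℓ).le
    exact intervalIntegral.norm_integral_le_integral_norm h1.le
  have hfinal : ∫ θ in α..β, ‖b θ - arcMean b α β‖ ≤ ∫ θ in α..β, (‖b θ - c‖ + w) := by
    apply intervalIntegral.integral_mono_on h1.le
    · exact ((l1i hb.per hb.memLp α β).sub intervalIntegrable_const).norm
    · exact ibc.norm.add intervalIntegrable_const
    · intro θ _
      have e : b θ - arcMean b α β = (b θ - c) + (c - arcMean b α β) := by ring
      rw [e]
      exact (norm_add_le _ _).trans (add_le_add le_rfl hmean)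
  rw [intervalIntegral.integral_add ibc.norm intervalIntegrable_const,
    intervalIntegral.integral_const, smul_eq_mul] at hfinal
  have h8 : (β - α)⁻¹ * ∫ θ in α..β, ‖b θ - arcMean b α β‖ ≤ w + w := by
    have h9 := mul_le_mul_of_nonneg_left hfinal (inv_pos.2 hℓ).le
    rw [mul_add, ← hw, ← mul_assoc, inv_mul_cancel₀ hℓ.ne', one_mul] at h9
    exact h9
  linarith

end Pool.Agent.R253.BE
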