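import Pool.Agent.Helper576.Riesz5

open scoped BigOperators Topology
open Filter Finset

namespace Pool.Agent.R253.BE.DR

open Pool.Agent.Helper576.LpMult

/-- M. Riesz on `ℤ/n`, uniformly in `n` and in the truncation (adapted from the starting files) -/
def S_riesz : Prop :=
  ∀ q : ℝ, 1 < q → ∃ C : ℝ, 0 < C ∧ ∀ (n : ℕ) (c : ℕ → ℂ) (N : ℕ), N ≤ n →
    ∑ D ∈ Finset.range n, ‖∑ j ∈ Finset.range N,
        c j * Complex.exp (Complex.I * (2 * Real.pi * j * D / n))‖ ^ q ≤
      C * ∑ D ∈ Finset.range n, ‖∑ j ∈ Finset.range n,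
        c j * Complex.exp (Complex.I * (2 * Real.pi * j * D / n))‖ ^ q

theorem e_est {θ : ℝ} (h0 : θ ≠ 0) (h1 : |θ| ≤ Real.pi) :
    ‖1 / (Complex.exp (Complex.I * θ) - 1) - 1 / (Complex.I * θ)‖ ≤ 3 := by
  have hpi := Real.pi_gt_three
  have hpi4 := Real.pi_lt_four
  have ha : 0 < |θ| := abs_pos.mpr h0
  have hlow : 2 / Real.pi * |θ| ≤ ‖Complex.exp (Complex.I * θ) - 1‖ := by
    rw [Complex.norm_exp_I_mul_ofReal_sub_one, Real.norm_eq_abs, abs_mul, abs_two]
    have h2 : 2 / Real.pi * (|θ| / 2) ≤ Real.sin (|θ| / 2) :=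
      Real.mul_le_sin (by positivity) (by linarith)
    have h3 : |Real.sin (θ / 2)| = Real.sin (|θ| / 2) := by
      have h4 : 0 ≤ Real.sin (|θ| / 2) :=
        Real.sin_nonneg_of_nonneg_of_le_pi (by positivity) (by linarith)
      rcases abs_cases θ with ⟨h, _⟩ | ⟨h, _⟩
      · rw [h] at h4 ⊢
        exact abs_of_nonneg h4
      · rw [h] at h4 ⊢
        have h5 : -θ / 2 = -(θ / 2) := by ring
        rw [h5, Real.sin_neg] at h4 ⊢
        rw [abs_of_nonpos (by linarith)]
    rw [h3]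
    linarith
  have hlow0 : 0 < ‖Complex.exp (Complex.I * θ) - 1‖ := lt_of_lt_of_le (by positivity) hlow
  have hne : Complex.exp (Complex.I * θ) - 1 ≠ 0 := norm_pos_iff.mp hlow0
  have hne2 : Complex.I * (θ : ℂ) ≠ 0 := by
    simp [h0]
  have hnI : ‖Complex.I * (θ:ℂ)‖ = |θ| := by simp
  rcases le_or_gt |θ| 1 with hle | hgt
  · have e1 : 1 / (Complex.exp (Complex.I * θ) - 1) - 1 / (Complex.I * θ) =
        -(Complex.exp (Complex.I * θ) - 1 - Complex.I * θ) /
          ((Complex.exp (Complex.I * θ) - 1) * (Complex.I * θ)) := by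
      rw [div_sub_div _ _ hne hne2]
      congr 1
      ring
    rw [e1, norm_div, norm_neg, norm_mul, hnI]
    have h2 := Complex.norm_exp_sub_one_sub_id_le (x := Complex.I * (θ:ℂ)) (by rw [hnI]; exact hle)
    rw [hnI] at h2
    rw [div_le_iff₀ (by positivity)]
    have h3 : |θ| ^ 2 ≤ 3 * (2 / Real.pi * |θ| * |θ|) := by
      have : (1:ℝ) ≤ 3 * (2 / Real.pi) := by
        rw [← mul_div_assoc, le_div_iff₀ (by positivity)]
        linarith
      nlinarith [mul_pos ha ha]
    refine h2.trans (h3.trans ?_)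
    gcongr
  · refine (norm_sub_le _ _).trans ?_
    rw [norm_div, norm_div, hnI, norm_one]
    have h2 : 1 / ‖Complex.exp (Complex.I * θ) - 1‖ ≤ 2 := by
      rw [div_le_iff₀ hlow0]
      have : 2 / Real.pi * 1 ≤ 2 / Real.pi * |θ| := by gcongr
      have h5 : (1:ℝ) ≤ 2 * (2 / Real.pi * 1) := by
        rw [mul_one, ← mul_div_assoc, le_div_iff₀ (by positivity)]
        linarith
      linarith
    have h3 : 1 / |θ| ≤ 1 := by
      rw [div_le_one ha]
      exact hgt.le
    linarith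

/-- the kernel -/
noncomputable def W (n : ℕ) (x : ℤ) : ℂ := Complex.exp (Complex.I * ((2 * Real.pi * x / n : ℝ) : ℂ))

theorem W_add (n : ℕ) (x y : ℤ) : W n (x + y) = W n x * W n y := by
  unfold W
  rw [← Complex.exp_add]
  congr 1
  push_cast
  ring

theorem W_zero (n : ℕ) : W n 0 = 1 := by simp [W]

theorem W_norm (n : ℕ) (x : ℤ) : ‖W n x‖ = 1 := by
  unfold W
  rw [mul_comm, Complex.norm_exp_ofReal_mul_I]

theorem W_n {n : ℕ} (hn : 0 < n) : W n n = 1 := by
  unfold W
  have hn' : (n:ℝ) ≠ 0 := by positivity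
  have : (2 * Real.pi * ((n:ℤ):ℝ) / n : ℝ) = 2 * Real.pi := by
    push_cast
    field_simp
  rw [this]
  push_cast
  rw [mul_comm]
  exact Complex.exp_two_pi_mul_I

theorem W_neg_n {n : ℕ} (hn : 0 < n) : W n (-n) = 1 := by
  have h := W_add n n (-n)
  rw [W_n hn, one_mul, add_neg_cancel, W_zero] at h
  exact h.symm

theorem W_nat_mul (n : ℕ) (j : ℕ) (x : ℤ) : W n (j * x) = W n x ^ j := by
  induction j with
  | zero => simp [W_zero]
  | succ j ih =>
    have : ((j + 1 : ℕ) : ℤ) * x = j * x + x := by push_cast; ring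
    rw [this, W_add, ih, pow_succ]

theorem W_pow_n {n : ℕ} (hn : 0 < n) (x : ℤ) : W n x ^ n = 1 := by
  rw [← W_nat_mul]
  obtain ⟨k, rfl | rfl⟩ := x.eq_nat_or_neg
  · rw [mul_comm, W_nat_mul, W_n hn, one_pow]
  · have : ((n:ℤ)) * -(k:ℤ) = k * (-n) := by ring
    rw [this, W_nat_mul, W_neg_n hn, one_pow]

theorem W_ne_one {n : ℕ} (hn : 0 < n) {x : ℤ} (h0 : x ≠ 0) (h1 : |x| < n) : W n x ≠ 1 := by
  intro h
  unfold W at h
  rw [Complex.exp_eq_one_iff] at h
  obtain ⟨k, hk⟩ := h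
  have hn' : (n:ℂ) ≠ 0 := by exact_mod_cast hn.ne'
  have hpi : (Real.pi : ℂ) ≠ 0 := by exact_mod_cast Real.pi_ne_zero
  push_cast at hk
  have h2 : (x:ℂ) = k * n := by
    have h3 : Complex.I * (2 * Real.pi * x / n) * n = k * (2 * Real.pi * Complex.I) * n := by
      rw [hk]
    have h4 : (2 * Real.pi * Complex.I) * (x:ℂ) = (2 * Real.pi * Complex.I) * (k * n) := by
      rw [mul_assoc, div_mul_cancel₀ _ hn'] at h3
      linear_combination h3
    exact mul_left_cancel₀ (by simp [hpi]) h4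
  have h5 : x = k * n := by exact_mod_cast h2
  rcases eq_or_ne k 0 with hk0 | hk0
  · rw [hk0, zero_mul] at h5
    exact h0 h5
  · have h6 : 1 ≤ |k| := Int.one_le_abs hk0
    rw [h5, abs_mul] at h1
    have h7 : |(n:ℤ)| = n := abs_of_nonneg (by positivity)
    rw [h7] at h1
    nlinarith

/-- the kernel of the truncated sums -/
noncomputable def aN (n : ℕ) (x : ℤ) : ℂ := 1 / (n * (W n x - 1))

theorem aN_per {n : ℕ} (hn : 0 < n) (x : ℤ) : aN n (x + n) = aN n x := by
  unfold aN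
  rw [W_add, W_n hn, mul_one]

theorem aN_main {n : ℕ} (hn : 0 < n) {x : ℤ} (h0 : x ≠ 0) (h1 : 2 * |x| ≤ n) :
    ‖aN n x - 1 / (2 * Real.pi * Complex.I) * hk x‖ ≤ 3 / n := by
  have hn' : (0:ℝ) < n := by exact_mod_cast hn
  have hpi := Real.pi_pos
  have hx : (x:ℝ) ≠ 0 := by exact_mod_cast h0
  have hθ : (2 * Real.pi * x / n : ℝ) ≠ 0 := by positivity
  have hθ1 : |(2 * Real.pi * x / n : ℝ)| ≤ Real.pi := by
    rw [abs_div, abs_mul, abs_mul, abs_two, abs_of_pos hpi, abs_of_pos hn', div_le_iff₀ hn']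
    have : (2:ℝ) * |(x:ℝ)| ≤ n := by
      have := (Int.cast_le (R := ℝ)).mpr h1
      push_cast at this
      exact this
    nlinarith
  have h2 := e_est hθ hθ1
  have e1 : aN n x - 1 / (2 * Real.pi * Complex.I) * hk x =
      (1 / (n:ℂ)) * (1 / (Complex.exp (Complex.I * ((2 * Real.pi * x / n : ℝ) : ℂ)) - 1) -
        1 / (Complex.I * ((2 * Real.pi * x / n : ℝ) : ℂ))) := by
    unfold aN hk W
    have hnc : (n:ℂ) ≠ 0 := by exact_mod_cast hn.ne'
    have hxc : (x:ℂ) ≠ 0 := by exact_mod_cast h0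
    have hpc : (Real.pi:ℂ) ≠ 0 := by exact_mod_cast Real.pi_ne_zero
    rw [mul_sub (1 / (n:ℂ)), one_div_mul_one_div, one_div_mul_one_div, one_div_mul_one_div]
    congr 2
    push_cast
    field_simp
  rw [e1, norm_mul, norm_div, norm_one, Complex.norm_natCast]
  calc 1 / (n:ℝ) * _ ≤ 1 / (n:ℝ) * 3 := by gcongr
    _ = 3 / n := by ring

theorem hk_le {n : ℕ} (hn : 0 < n) {x : ℤ} (h1 : (n:ℤ) ≤ 2 * |x|) : ‖hk x‖ ≤ 2 / n := by
  have hn' : (0:ℝ) < n := by exact_mod_cast hn
  unfold hk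
  rw [norm_div, norm_one, Complex.norm_intCast]
  have h2 : (n:ℝ) ≤ 2 * |(x:ℝ)| := by
    have := (Int.cast_le (R := ℝ)).mpr h1
    push_cast at this
    exact this
  have h3 : 0 < |(x:ℝ)| := by linarith
  rw [div_le_div_iff₀ h3 hn']
  linarith

theorem ker_est {n : ℕ} (hn : 0 < n) {x : ℤ} (h1 : |x| < n) :
    ‖aN n x - 1 / (2 * Real.pi * Complex.I) * (hk x + hk (x + n) + hk (x + -n))‖ ≤ 7 / n := by
  have hn' : (0:ℝ) < n := by exact_mod_cast hn
  have hnz : (0:ℤ) < n := by exact_mod_cast hn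
  have hpi := Real.pi_gt_three
  have hc : ‖(1 / (2 * Real.pi * Complex.I) : ℂ)‖ ≤ 1 := by
    rw [norm_div, norm_one, norm_mul, norm_mul, Complex.norm_I, mul_one, Complex.norm_real,
      Real.norm_eq_abs, abs_of_pos (by linarith)]
    rw [div_le_one (by simp; linarith)]
    simp
    linarith
  set cc : ℂ := 1 / (2 * Real.pi * Complex.I) with hcc
  -- general combination
  have comb : ∀ x0 y z : ℤ, ‖aN n x - cc * hk x0‖ ≤ 3 / n → (n:ℤ) ≤ 2 * |y| → (n:ℤ) ≤ 2 * |z| →
      ‖aN n x - cc * (hk x0 + hk y + hk z)‖ ≤ 7 / n := by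
    intro x0 y z h2 hy hz
    have e1 : aN n x - cc * (hk x0 + hk y + hk z) =
        (aN n x - cc * hk x0) - cc * (hk y + hk z) := by ring
    rw [e1]
    refine (norm_sub_le _ _).trans ?_
    have h3 : ‖cc * (hk y + hk z)‖ ≤ 1 * (2 / n + 2 / n) := by
      rw [norm_mul]
      apply mul_le_mul hc _ (norm_nonneg _) (by norm_num)
      exact (norm_add_le _ _).trans (add_le_add (hk_le hn hy) (hk_le hn hz))
    calc _ ≤ 3 / (n:ℝ) + 1 * (2 / n + 2 / n) := add_le_add h2 h3
      _ = 7 / n := by ring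
  rcases eq_or_ne x 0 with h0 | h0
  · subst h0
    have e1 : aN n 0 = 0 := by simp [aN, W_zero]
    have e2 : hk 0 + hk (0 + (n:ℤ)) + hk (0 + -(n:ℤ)) = 0 := by
      simp [hk]
    rw [e1, e2]
    simp
    positivity
  · rcases le_or_gt (2 * |x|) n with hle | hgt
    · apply comb x (x + n) (x + -n) (aN_main hn h0 hle)
      · have := abs_le.mp (le_refl |x|)
        rw [abs_of_nonneg (by omega)]
        omega
      · have := abs_le.mp (le_refl |x|)
        rw [abs_of_nonpos (by omega)]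
        omega
    · rcases lt_or_gt_of_ne h0 with hneg | hpos
      · -- x < 0, use x + n
        rw [abs_of_neg hneg] at h1 hgt
        have h2 : ‖aN n x - cc * hk (x + n)‖ ≤ 3 / n := by
          rw [← aN_per hn x]
          apply aN_main hn (by omega)
          rw [abs_of_pos (by omega)]
          omega
        have h3 := comb (x + n) x (x + -n) h2 (by rw [abs_of_neg hneg]; omega)
          (by rw [abs_of_neg (by omega)]; omega)
        have e : hk x + hk (x + n) + hk (x + -n) = hk (x + n) + hk x + hk (x + -n) := by ring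
        rw [e]
        exact h3
      · rw [abs_of_pos hpos] at h1 hgt
        have h2 : ‖aN n x - cc * hk (x + -n)‖ ≤ 3 / n := by
          have h4 := aN_per hn (x + -n)
          rw [neg_add_cancel_right] at h4
          rw [h4]
          apply aN_main hn (by omega)
          rw [abs_of_neg (by omega)]
          omega
        have h3 := comb (x + -n) (x + n) x h2 (by rw [abs_of_pos (by omega)]; omega)
          (by rw [abs_of_pos hpos]; omega)
        have e : hk x + hk (x + n) + hk (x + -n) = hk (x + -n) + hk (x + n) + hk x := by ring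
        rw [e]
        exact h3

theorem MB_shift {p C : ℝ} {a : ℤ → ℂ} (ha : MB p C a) (m : ℤ) : MB p C (fun k => a (k + m)) := by
  intro s t F
  have h := ha s (t.map (addRightEmbedding m)) F
  rw [sum_map] at h
  refine le_trans (le_of_eq ?_) h
  apply sum_congr rfl
  intro k _
  congr 2
  apply sum_congr rfl
  intro l _
  have : k - l + m = (addRightEmbedding m) k - l := by
    simp [addRightEmbedding]
    ring
  rw [← this]

/-- the interval -/
noncomputable abbrev II (n : ℕ) : Finset ℤ := Finset.Ico 0 n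

theorem mean_est {q : ℝ} (hq : 1 < q) {n : ℕ} (hn : 0 < n) {A : ℝ} (hA : 0 ≤ A) (g E : ℤ → ℂ)
    (hE : ∀ D ∈ II n, ‖E D‖ ≤ A / n * ∑ y ∈ II n, ‖g y‖) :
    N q (II n) E ≤ A * N q (II n) g := by
  have hq0 : 0 < q := by linarith
  have hn' : (0:ℝ) < n := by exact_mod_cast hn
  have h1 : (N q (II n) E) ^ q ≤ (A * N q (II n) g) ^ q := by
    rw [N_rpow hq0, Real.mul_rpow hA (N_nonneg _ _ _), N_rpow hq0]
    have h2 := wpow (II n) hq.le (fun _ => 1) (fun y => ‖g y‖) (fun _ _ => zero_le_one)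
      (fun _ _ => norm_nonneg _)
    simp only [one_mul, sum_const, Int.card_Ico, sub_zero, Int.toNat_natCast, nsmul_eq_mul,
      mul_one] at h2
    calc ∑ l ∈ II n, ‖E l‖ ^ q ≤ ∑ l ∈ II n, (A / n * ∑ y ∈ II n, ‖g y‖) ^ q := by
          apply sum_le_sum
          intro l hl
          exact Real.rpow_le_rpow (norm_nonneg _) (hE l hl) hq0.le
      _ = n * (A / n * ∑ y ∈ II n, ‖g y‖) ^ q := by
          simp only [sum_const, Int.card_Ico, sub_zero, Int.toNat_natCast, nsmul_eq_mul]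
      _ = n * ((A / n) ^ q * (∑ y ∈ II n, ‖g y‖) ^ q) := by
          rw [Real.mul_rpow (by positivity) (sum_nonneg fun _ _ => norm_nonneg _)]
      _ ≤ n * ((A / n) ^ q * ((n:ℝ) ^ (q - 1) * ∑ y ∈ II n, ‖g y‖ ^ q)) := by
          gcongr
      _ = A ^ q * ∑ y ∈ II n, ‖g y‖ ^ q := by
          rw [Real.div_rpow hA hn'.le]
          have e1 : (n:ℝ) ^ q = (n:ℝ) ^ (q - 1) * n := by
            rw [← Real.rpow_add_one hn'.ne']
            congr 1
            ring
          rw [e1]
          have e2 : (n:ℝ) ^ (q - 1) ≠ 0 := (Real.rpow_pos_of_pos hn' _).ne'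
          field_simp
  exact (Real.rpow_le_rpow_iff (N_nonneg _ _ _) (mul_nonneg hA (N_nonneg _ _ _)) hq0).mp h1

/-- the operator with kernel `aN` -/
theorem T_est {q : ℝ} (hq : 1 < q) {C : ℝ} (hC : 0 ≤ C) (hMB : MB q C hk) {n : ℕ} (hn : 0 < n)
    (g : ℤ → ℂ) : N q (II n) (fun D => ∑ y ∈ II n, aN n (D - y) * g y) ≤
      (3 * C + 7) * N q (II n) g := by
  have hq0 : 0 < q := by linarith
  have hpi := Real.pi_gt_three
  set cc : ℂ := 1 / (2 * Real.pi * Complex.I) with hcc
  have hc : ‖cc‖ ≤ 1 := by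
    rw [hcc, norm_div, norm_one, norm_mul, norm_mul, Complex.norm_I, mul_one, Complex.norm_real,
      Real.norm_eq_abs, abs_of_pos (by linarith)]
    rw [div_le_one (by simp; linarith)]
    simp
    linarith
  set b : ℤ → ℂ := fun x => cc * (hk x + hk (x + n) + hk (x + -n)) with hb
  have hbMB : MB q (‖cc‖ * (C + C + C)) b :=
    MB.smul hq0 (by positivity) cc (MB.add hq.le (by positivity) hC
      (MB.add hq.le hC hC hMB (MB_shift hMB n)) (MB_shift hMB (-n)))
  have h1 : N q (II n) (fun D => ∑ y ∈ II n, b (D - y) * g y) ≤ (3 * C) * N q (II n) g := by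
    have h2 := (MB_iff hq0 (by positivity) b).mp hbMB (II n) (II n) g
    refine h2.trans ?_
    apply mul_le_mul_of_nonneg_right _ (N_nonneg _ _ _)
    calc ‖cc‖ * (C + C + C) ≤ 1 * (C + C + C) := by gcongr
      _ = 3 * C := by ring
  have h2 : N q (II n) (fun D => ∑ y ∈ II n, (aN n (D - y) - b (D - y)) * g y) ≤
      7 * N q (II n) g := by
    apply mean_est hq hn (by norm_num)
    intro D hD
    refine (norm_sum_le _ _).trans ?_
    rw [mul_sum]
    apply sum_le_sum
    intro y hy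
    rw [norm_mul]
    apply mul_le_mul_of_nonneg_right _ (norm_nonneg _)
    apply ker_est hn
    rw [II, Finset.mem_Ico] at hD hy
    rw [abs_lt]
    constructor <;> omega
  have e1 : (fun D => ∑ y ∈ II n, aN n (D - y) * g y) = fun D =>
      (∑ y ∈ II n, b (D - y) * g y) + ∑ y ∈ II n, (aN n (D - y) - b (D - y)) * g y := by
    ext D
    rw [← sum_add_distrib]
    apply sum_congr rfl
    intro y _
    ring
  rw [e1]
  refine (N_add_le hq.le _ _ _).trans ?_
  rw [add_mul]
  exact add_le_add h1 h2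

theorem sum_II (n : ℕ) (g : ℤ → ℂ) : ∑ y ∈ II n, g y = ∑ y ∈ range n, g (y : ℤ) := by
  symm
  apply sum_bij (fun (y : ℕ) _ => (y : ℤ))
  · intro a ha
    rw [II, Finset.mem_Ico]
    have := Finset.mem_range.mp ha
    omega
  · intro a _ b _ h
    exact_mod_cast h
  · intro b hb
    rw [II, Finset.mem_Ico] at hb
    exact ⟨b.toNat, by rw [Finset.mem_range]; omega, by omega⟩
  · intro a _
    rfl

theorem sum_IIr (n : ℕ) (g : ℤ → ℝ) : ∑ y ∈ II n, g y = ∑ y ∈ range n, g (y : ℤ) := by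
  symm
  apply sum_bij (fun (y : ℕ) _ => (y : ℤ))
  · intro a ha
    rw [II, Finset.mem_Ico]
    have := Finset.mem_range.mp ha
    omega
  · intro a _ b _ h
    exact_mod_cast h
  · intro b hb
    rw [II, Finset.mem_Ico] at hb
    exact ⟨b.toNat, by rw [Finset.mem_range]; omega, by omega⟩
  · intro a _
    rfl

theorem orth {n : ℕ} (hn : 0 < n) {x : ℤ} (h1 : |x| < n) :
    ∑ y ∈ II n, W n (x * y) = if x = 0 then (n:ℂ) else 0 := by
  rw [sum_II]
  have e1 : ∀ y ∈ range n, W n (x * (y:ℤ)) = W n x ^ y := by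
    intro y _
    rw [mul_comm, W_nat_mul]
  rw [sum_congr rfl e1]
  split_ifs with h
  · rw [h, W_zero]
    simp
  · have h2 := W_ne_one hn h h1
    rw [geom_sum_eq h2, W_pow_n hn, sub_self, zero_div]

/-- the transform -/
noncomputable def P (n : ℕ) (c : ℕ → ℂ) (N : ℕ) (D : ℤ) : ℂ := ∑ j ∈ range N, c j * W n (j * D)

theorem KN_eq {n : ℕ} (hn : 0 < n) (N : ℕ) {x : ℤ} (h1 : |x| < n) :
    (1 / (n:ℂ)) * ∑ j ∈ range N, W n (j * x) =
      (if x = 0 then (N:ℂ) / n else 0) + (W n (N * x) - 1) * aN n x := by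
  have hnc : (n:ℂ) ≠ 0 := by exact_mod_cast hn.ne'
  split_ifs with h
  · subst h
    simp [W_zero]
    ring
  · have h2 := W_ne_one hn h h1
    have e1 : ∀ j ∈ range N, W n (j * x) = W n x ^ j := fun j _ => W_nat_mul n j x
    rw [sum_congr rfl e1, geom_sum_eq h2, zero_add, W_nat_mul]
    unfold aN
    have h3 : W n x - 1 ≠ 0 := sub_ne_zero.mpr h2
    field_simp

theorem repr {n : ℕ} (hn : 0 < n) (c : ℕ → ℂ) {N : ℕ} (hN : N ≤ n) (D : ℤ) :
    P n c N D = ∑ y ∈ II n, ((1 / (n:ℂ)) * ∑ j ∈ range N, W n (j * (D - y))) * P n c n y := by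
  have hnc : (n:ℂ) ≠ 0 := by exact_mod_cast hn.ne'
  unfold P
  have e1 : ∀ y ∈ II n, ((1 / (n:ℂ)) * ∑ j ∈ range N, W n (j * (D - y))) *
      ∑ l ∈ range n, c l * W n (l * y) =
      ∑ j ∈ range N, ∑ l ∈ range n, (1 / (n:ℂ)) * (W n (j * D) * c l) * W n ((l - j) * y) := by
    intro y _
    rw [mul_assoc, sum_mul_sum, mul_sum]
    apply sum_congr rfl
    intro j _
    rw [mul_sum]
    apply sum_congr rfl
    intro l _
    have e2 : W n (j * (D - y)) * W n (l * y) = W n (j * D) * W n ((l - j) * y) := by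
      rw [← W_add, ← W_add]
      congr 1
      ring
    calc 1 / (n:ℂ) * (W n (j * (D - y)) * (c l * W n (l * y)))
        = 1 / (n:ℂ) * c l * (W n (j * (D - y)) * W n (l * y)) := by ring
      _ = _ := by rw [e2]; ring
  rw [sum_congr rfl e1, sum_comm]
  apply sum_congr rfl
  intro j hj
  rw [sum_comm]
  have hj' := Finset.mem_range.mp hj
  have e3 : ∀ l ∈ range n, ∑ y ∈ II n, 1 / (n:ℂ) * (W n (j * D) * c l) * W n ((l - j) * y) =
      if l = j then c l * W n (j * D) else 0 := by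
    intro l hl
    have hl' := Finset.mem_range.mp hl
    rw [← mul_sum, orth hn (by rw [abs_lt]; constructor <;> omega)]
    by_cases h : l = j
    · rw [if_pos (by omega), if_pos h]
      field_simp
    · rw [if_neg (by omega), if_neg h, mul_zero]
  rw [sum_congr rfl e3, sum_ite_eq' (range n) j, if_pos (by rw [Finset.mem_range]; omega)]

theorem N_smulW {q : ℝ} (n : ℕ) (s : Finset ℤ) (k : ℤ) (F : ℤ → ℂ) :
    N q s (fun D => W n (k * D) * F D) = N q s F := by
  unfold N
  congr 1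
  apply sum_congr rfl
  intro l _
  rw [norm_mul, W_norm, one_mul]

theorem P_est {q : ℝ} (hq : 1 < q) {C : ℝ} (hC : 0 ≤ C) (hMB : MB q C hk) {n : ℕ} (hn : 0 < n)
    (c : ℕ → ℂ) {N' : ℕ} (hN : N' ≤ n) :
    N q (II n) (P n c N') ≤ (1 + 2 * (3 * C + 7)) * N q (II n) (P n c n) := by
  have hq0 : 0 < q := by linarith
  have hnc : (n:ℂ) ≠ 0 := by exact_mod_cast hn.ne'
  set F := P n c n with hF
  have e1 : ∀ D ∈ II n, P n c N' D = ((N':ℂ) / n) * F D +
      (W n (N' * D) * (∑ y ∈ II n, aN n (D - y) * (W n (-N' * y) * F y)) +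
        (-1) * ∑ y ∈ II n, aN n (D - y) * F y) := by
    intro D hD
    rw [repr hn c hN D]
    have hD' := hD
    rw [II, Finset.mem_Ico] at hD'
    have e2 : ∀ y ∈ II n, ((1 / (n:ℂ)) * ∑ j ∈ range N', W n (j * (D - y))) * F y =
        (if D = y then ((N':ℂ) / n) * F y else 0) +
          (W n (N' * D) * (aN n (D - y) * (W n (-N' * y) * F y)) +
            (-1) * (aN n (D - y) * F y)) := by
      intro y hy
      rw [II, Finset.mem_Ico] at hy
      rw [KN_eq hn N' (by rw [abs_lt]; constructor <;> omega)]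
      have e3 : W n (N' * (D - y)) = W n (N' * D) * W n (-N' * y) := by
        rw [← W_add]
        congr 1
        ring
      rw [e3]
      by_cases h : D = y
      · rw [if_pos (by omega), if_pos h]
        ring
      · rw [if_neg (by omega), if_neg h]
        ring
    rw [sum_congr rfl e2, sum_add_distrib, sum_add_distrib, ← mul_sum, ← mul_sum,
      sum_ite_eq (II n) D, if_pos hD]
  have e2 : N q (II n) (P n c N') = N q (II n) (fun D => ((N':ℂ) / n) * F D +
      (W n (N' * D) * (∑ y ∈ II n, aN n (D - y) * (W n (-N' * y) * F y)) +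
        (-1) * ∑ y ∈ II n, aN n (D - y) * F y)) := by
    unfold N
    congr 1
    apply sum_congr rfl
    intro D hD
    rw [e1 D hD]
  rw [e2]
  refine (N_add_le hq.le _ _ _).trans ?_
  have h3 := N_add_le hq.le (II n)
    (fun D => W n (N' * D) * (∑ y ∈ II n, aN n (D - y) * (W n (-N' * y) * F y)))
    (fun D => (-1) * ∑ y ∈ II n, aN n (D - y) * F y)
  have h4 : N q (II n) (fun D => ((N':ℂ) / n) * F D) ≤ 1 * N q (II n) F := by
    rw [N_smul hq0]
    apply mul_le_mul_of_nonneg_right _ (N_nonneg _ _ _)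
    rw [norm_div, Complex.norm_natCast, Complex.norm_natCast, div_le_one (by positivity)]
    exact_mod_cast hN
  have h5 : N q (II n) (fun D => W n (N' * D) *
      (∑ y ∈ II n, aN n (D - y) * (W n (-N' * y) * F y))) ≤ (3 * C + 7) * N q (II n) F := by
    rw [N_smulW n (II n) N']
    refine (T_est hq hC hMB hn _).trans ?_
    rw [N_smulW n (II n) (-N')]
  have h6 : N q (II n) (fun D => (-1) * ∑ y ∈ II n, aN n (D - y) * F y) ≤
      (3 * C + 7) * N q (II n) F := by
    rw [N_smul hq0]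
    simp only [norm_neg, norm_one, one_mul]
    exact T_est hq hC hMB hn F
  linarith

theorem t_riesz : S_riesz := by
  intro q hq
  obtain ⟨C, hC, hMB⟩ := MB_hk hq
  have hq0 : 0 < q := by linarith
  refine ⟨(1 + 2 * (3 * C + 7)) ^ q, by positivity, ?_⟩
  intro n c N' hN
  rcases Nat.eq_zero_or_pos n with hn | hn
  · subst hn
    simp
  have h1 := P_est hq hC hMB hn c hN
  have h2 := Real.rpow_le_rpow (N_nonneg _ _ _) h1 hq0.le
  rw [Real.mul_rpow (by positivity) (N_nonneg _ _ _), N_rpow hq0, N_rpow hq0, sum_IIr, sum_IIr] at h2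
  have e : ∀ (M : ℕ) (D : ℕ), P n c M (D:ℤ) = ∑ j ∈ range M,
      c j * Complex.exp (Complex.I * (2 * Real.pi * j * D / n)) := by
    intro M D
    unfold P W
    apply sum_congr rfl
    intro j _
    congr 2
    push_cast
    ring
  simp only [e] at h2
  exact h2

end Pool.Agent.R253.BE.DR
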