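import Pool.Agent.R253.BE.Area

set_option autoImplicit false

namespace Pool.Agent.R253.BE

open Complex Metric Set Filter Topology MeasureTheory ComplexConjugate

lemma mr_add {u v : ℂ → ℝ} (hu : ContinuousOn u Lh) (hv : ContinuousOn v Lh) {τ : ℝ} (hτ : τ < 0) :
    mr (fun w => u w + v w) τ = mr u τ + mr v τ :=
  intervalIntegral.integral_add ((cont_line' hu hτ).intervalIntegrable _ _)
    ((cont_line' hv hτ).intervalIntegrable _ _)

namespace Dat

variable (X : Dat)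

lemma norm_S_le (c : ℝ) (w : ℂ) : ‖X.S c w‖ ≤ X.P w ^ (1 / 2 : ℝ) * X.Q w ^ (c + 1 / 2) := by
  have hQ := X.Q_pos w
  have hP := X.P_pos w
  have hgP : ‖X.g w‖ ≤ X.P w ^ (1 / 2 : ℝ) := by
    rw [← Real.sqrt_eq_rpow]
    apply Real.le_sqrt_of_sq_le
    unfold P; have := X.hδ; linarith
  have hfQ : ‖X.f w‖ ≤ X.Q w ^ (1 / 2 : ℝ) := by
    rw [← Real.sqrt_eq_rpow]
    apply Real.le_sqrt_of_sq_le
    unfold Q; have := X.hδ; linarith
  unfold S
  rw [norm_mul, norm_mul, RCLike.norm_conj, Complex.norm_real, Real.norm_eq_abs,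
    abs_of_pos (Real.rpow_pos_of_pos hQ _), Real.rpow_add hQ]
  calc ‖X.g w‖ * X.Q w ^ c * ‖X.f w‖ ≤ X.P w ^ (1 / 2 : ℝ) * X.Q w ^ c * X.Q w ^ (1 / 2 : ℝ) := by
        gcongr
    _ = _ := by ring

/-- combination of `est` with a pointwise bound -/
lemma est' {X : Dat} (h : Lim X) {u : ℂ → ℝ} {K : ℂ → ℂ} {L : ℂ → ℝ} (hp : Pk u K L) {c C : ℝ}
    (hC : 0 ≤ C) (hN : ∀ w ∈ Lh, ‖X.N2 c w‖ ≤ C * L w) (hu : ∀ w ∈ Lh, 0 ≤ u w)
    {v : ℂ → ℝ} (hv : ContinuousOn v Lh)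
    (huv : ∀ w ∈ Lh, 1 / 2 * ‖X.S c w‖ + C / 2 * u w ≤ v w)
    {j : ℝ → ℂ} (hj : ∀ τ < 0, HasDerivAt j (((Real.exp (2 * τ) : ℝ) : ℂ) * mn (X.T c) τ) τ)
    (tj : Tendsto j atBot (𝓝 0)) {τ : ℝ} (hτ : τ < 0) :
    ‖j τ‖ ≤ Real.exp (2 * τ) * mr v τ := by
  have h1 := est h hp hC hN hu hj tj hτ
  have h2 := norm_mn_le (X.S c) τ
  have h3 : 1 / 2 * mr (fun w => ‖X.S c w‖) τ + C / 2 * mr u τ ≤ mr v τ := by
    rw [← mr_const_mul, ← mr_const_mul, ← mr_add (u := fun w => 1 / 2 * ‖X.S c w‖)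
      (v := fun w => C / 2 * u w) (continuousOn_const.mul (X.cS c).norm)
      (continuousOn_const.mul hp.cu) hτ]
    exact mr_mono ((continuousOn_const.mul (X.cS c).norm).add (continuousOn_const.mul hp.cu)) hv
      huv hτ
  have h4 := Real.exp_pos (2 * τ)
  have h5 := mul_le_mul_of_nonneg_left h3 h4.le
  have h6 := mul_le_mul_of_nonneg_left h2 h4.le
  linarith

end Dat

/-- first estimate, with the regularisation -/
lemma disc_P1δ {p s t : ℝ} (hp : 1 < p) (hs : 1 < s) (ht : 1 < t) (hst : (s - 1) * (t - 1) = 1) :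
    ∃ C : ℝ, 0 ≤ C ∧ ∀ (G F : ℂ → ℂ), DifferentiableOn ℂ G (ball 0 1) →
      DifferentiableOn ℂ F (ball 0 1) → ∀ δ : ℝ, 0 < δ → ∀ R : ℝ, 0 < R → R < 1 →
      ‖∫ z in ball (0:ℂ) R, Ph G F δ ((p - 2) / 2) z‖ ≤ C * ∫ θ in (0:ℝ)..(2 * Real.pi),
        ((‖G (circleMap 0 R θ)‖ ^ 2 + δ) ^ (t / 2) +
          (‖F (circleMap 0 R θ)‖ ^ 2 + δ) ^ (s * ((p - 1) / 2))) := by
  set β : ℝ := (p - 1) / 2 with hβ
  set c : ℝ := (p - 2) / 2 with hc
  have hβ0 : 0 < β := by rw [hβ]; linarith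
  have hcβ : c + 1 / 2 = β := by rw [hc, hβ]; ring
  set κ : ℝ := min (β ^ 2) (2 * β) with hκ
  have hκ0 : 0 < κ := lt_min (by positivity) (by positivity)
  set C : ℝ := |c| * (|c - 1| + 2) / κ with hC
  have hC0 : 0 ≤ C := by positivity
  set C1 : ℝ := 1 / 2 + C / 2 * (2 + 2 / t ^ 2 + 1 / s ^ 2) with hC1
  have hs0 : 0 < s := by linarith
  have ht0 : 0 < t := by linarith
  have hC10 : 0 ≤ C1 := by positivity
  have hpq : t.HolderConjugate s := by
    rw [Real.holderConjugate_iff]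
    refine ⟨ht, ?_⟩
    field_simp
    linarith
  refine ⟨C1, hC10, ?_⟩
  intro G F hG hF δ hδ R hR0 hR1
  set X : Dat := mkDat hG hF hδ with hX
  have hlim : Lim X := mkDat_lim hG hF hδ
  set τ : ℝ := Real.log R with hτd
  have hτ : τ < 0 := Real.log_neg hR0 hR1
  have hexp : Real.exp τ = R := Real.exp_log hR0
  have hpk := ((Dat.pk hlim (1 / 2) β).smul 2).add ((Dat.pk hlim (t / 2) 0).smul (2 / t ^ 2)) |>.add
    ((Dat.pk hlim 0 (s * β)).smul (1 / s ^ 2))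
  set V : ℂ → ℝ := fun z => C1 * ((‖G z‖ ^ 2 + δ) ^ (t / 2) + (‖F z‖ ^ 2 + δ) ^ (s * β)) with hV
  have hvX : ∀ w, V (exp w) = C1 * (X.P w ^ (t / 2) + X.Q w ^ (s * β)) := fun w => rfl
  have hcv : ContinuousOn (fun w => V (exp w)) Lh := by
    simp only [hvX]
    exact continuousOn_const.mul ((X.cPr _).add (X.cQr _))
  have key := Dat.est' hlim hpk (c := c) hC0 ?_ ?_ (v := fun w => V (exp w)) hcv ?_
    (j := fun τ : ℝ => ∫ z in ball (0:ℂ) (Real.exp τ), Ph G F δ c z)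
    (fun τ hτ => area_deriv (cPh hG hF hδ c) hτ) (area_lim (cPh hG hF hδ c)) hτ
  · simp only [hexp] at key
    rw [mr_exp, hexp] at key
    have hint : 0 ≤ ∫ θ in (0:ℝ)..(2 * Real.pi), V (circleMap 0 R θ) := by
      apply intervalIntegral.integral_nonneg (by positivity)
      intro θ _
      simp only [hV]
      have h1 : 0 < ‖G (circleMap 0 R θ)‖ ^ 2 + δ := by positivity
      have h2 : 0 < ‖F (circleMap 0 R θ)‖ ^ 2 + δ := by positivity
      positivity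
    have h1 : Real.exp (2 * τ) ≤ 1 := Real.exp_le_one_iff.2 (by linarith)
    have h2 := mul_le_mul_of_nonneg_right h1 hint
    rw [one_mul] at h2
    refine (key.trans h2).trans (le_of_eq ?_)
    rw [← intervalIntegral.integral_const_mul]
  · intro w _
    have h1 := X.norm_N2_le c w
    rw [hcβ] at h1
    have h2 := X.domP1 hs ht hst hβ0 w
    rw [← hκ] at h2
    refine h1.trans ?_
    have h3 : X.D0 β w ≤ (2 * X.L (1 / 2) β w + 2 / t ^ 2 * X.L (t / 2) 0 w +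
        1 / s ^ 2 * X.L 0 (s * β) w) / κ := by
      rw [le_div_iff₀ hκ0]; linarith
    have h4 := mul_le_mul_of_nonneg_left h3 (show 0 ≤ |c| * (|c - 1| + 2) by positivity)
    refine h4.trans (le_of_eq ?_)
    rw [hC]; field_simp
  · intro w _
    have h1 := (X.U_pos (1 / 2) β w).le
    have h2 := (X.U_pos (t / 2) 0 w).le
    have h3 := (X.U_pos 0 (s * β) w).le
    positivity
  · intro w _
    rw [hvX]
    have hP := X.P_pos w
    have hQ := X.Q_pos w
    set x := X.P w ^ (1 / 2 : ℝ) with hx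
    set y := X.Q w ^ β with hy
    have hx0 : 0 < x := Real.rpow_pos_of_pos hP _
    have hy0 : 0 < y := Real.rpow_pos_of_pos hQ _
    have hxt : X.P w ^ (t / 2) = x ^ t := by
      rw [hx, ← Real.rpow_mul hP.le]; congr 1; ring
    have hys : X.Q w ^ (s * β) = y ^ s := by
      rw [hy, ← Real.rpow_mul hQ.le]; congr 1; ring
    have hxt0 : 0 < x ^ t := Real.rpow_pos_of_pos hx0 _
    have hys0 : 0 < y ^ s := Real.rpow_pos_of_pos hy0 _
    have hyoung : x * y ≤ x ^ t + y ^ s := by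
      have h := Real.young_inequality_of_nonneg hx0.le hy0.le hpq
      have h1 : x ^ t / t ≤ x ^ t := div_le_self hxt0.le ht.le
      have h2 : y ^ s / s ≤ y ^ s := div_le_self hys0.le hs.le
      linarith
    have hS := X.norm_S_le c w
    rw [hcβ, ← hx, ← hy] at hS
    have eU1 : X.U (1 / 2) β w = x * y := rfl
    have eU2 : X.U (t / 2) 0 w = x ^ t := by unfold Dat.U; rw [Real.rpow_zero, mul_one, hxt]
    have eU3 : X.U 0 (s * β) w = y ^ s := by unfold Dat.U; rw [Real.rpow_zero, one_mul, hys]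
    rw [eU1, eU2, eU3, hxt, hys]
    have h5 : 2 / t ^ 2 * x ^ t ≤ 2 / t ^ 2 * (x ^ t + y ^ s) :=
      mul_le_mul_of_nonneg_left (by linarith) (by positivity)
    have h6 : 1 / s ^ 2 * y ^ s ≤ 1 / s ^ 2 * (x ^ t + y ^ s) :=
      mul_le_mul_of_nonneg_left (by linarith) (by positivity)
    have h7 : 2 * (x * y) + 2 / t ^ 2 * x ^ t + 1 / s ^ 2 * y ^ s ≤
        (2 + 2 / t ^ 2 + 1 / s ^ 2) * (x ^ t + y ^ s) := by linarith
    have h8 := mul_le_mul_of_nonneg_left h7 (show 0 ≤ C / 2 by positivity)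
    rw [hC1]
    linarith

/-- second estimate, with the regularisation -/
lemma disc_P2δ {p : ℝ} (hp : 1 < p) {M : ℝ} (hM : 0 ≤ M) :
    ∃ C : ℝ, 0 ≤ C ∧ ∀ (G F : ℂ → ℂ), DifferentiableOn ℂ G (ball 0 1) →
      DifferentiableOn ℂ F (ball 0 1) → (∀ z ∈ ball (0:ℂ) 1, ‖F z‖ ≤ M) →
      ∀ δ : ℝ, 0 < δ → δ ≤ 1 → ∀ R : ℝ, 0 < R → R < 1 →
      ‖∫ z in ball (0:ℂ) R, Ph G F δ ((p - 2) / 2) z‖ ≤ C * ∫ θ in (0:ℝ)..(2 * Real.pi),
        ((‖G (circleMap 0 R θ)‖ ^ 2 + δ) ^ (1 / 2 : ℝ)) := by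
  set β : ℝ := (p - 1) / 2 with hβ
  set c : ℝ := (p - 2) / 2 with hc
  have hβ0 : 0 < β := by rw [hβ]; linarith
  have hcβ : c + 1 / 2 = β := by rw [hc, hβ]; ring
  set κ : ℝ := min (β ^ 2 / 2) β with hκ
  have hκ0 : 0 < κ := lt_min (by positivity) (by positivity)
  set C : ℝ := |c| * (|c - 1| + 2) / κ with hC
  have hC0 : 0 ≤ C := by positivity
  set M' : ℝ := (M ^ 2 + 1) ^ β with hM'
  have hM'0 : 0 ≤ M' := by positivity
  set C1 : ℝ := 1 / 2 * M' + C / 2 * (2 * M') with hC1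
  have hC10 : 0 ≤ C1 := by positivity
  refine ⟨C1, hC10, ?_⟩
  intro G F hG hF hFM δ hδ hδ1 R hR0 hR1
  set X : Dat := mkDat hG hF hδ with hX
  have hlim : Lim X := mkDat_lim hG hF hδ
  set τ : ℝ := Real.log R with hτd
  have hτ : τ < 0 := Real.log_neg hR0 hR1
  have hexp : Real.exp τ = R := Real.exp_log hR0
  have hpk := ((Dat.pk hlim (1 / 2) 0).smul M').add (Dat.pk hlim (1 / 2) β)
  set V : ℂ → ℝ := fun z => C1 * (‖G z‖ ^ 2 + δ) ^ (1 / 2 : ℝ) with hV
  have hvX : ∀ w, V (exp w) = C1 * X.P w ^ (1 / 2 : ℝ) := fun w => rfl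
  have hcv : ContinuousOn (fun w => V (exp w)) Lh := by
    simp only [hvX]
    exact continuousOn_const.mul (X.cPr _)
  have hQM : ∀ w ∈ Lh, X.Q w ^ β ≤ M' := by
    intro w hw
    apply Real.rpow_le_rpow (X.Q_pos w).le _ hβ0.le
    have h1 : ‖F (exp w)‖ ≤ M := hFM _ (exp_mem hw)
    have h2 : ‖F (exp w)‖ ^ 2 ≤ M ^ 2 := by gcongr
    have : X.Q w = ‖F (exp w)‖ ^ 2 + δ := rfl
    rw [this]; linarith
  have key := Dat.est' hlim hpk (c := c) hC0 ?_ ?_ (v := fun w => V (exp w)) hcv ?_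
    (j := fun τ : ℝ => ∫ z in ball (0:ℂ) (Real.exp τ), Ph G F δ c z)
    (fun τ hτ => area_deriv (cPh hG hF hδ c) hτ) (area_lim (cPh hG hF hδ c)) hτ
  · simp only [hexp] at key
    rw [mr_exp, hexp] at key
    have hint : 0 ≤ ∫ θ in (0:ℝ)..(2 * Real.pi), V (circleMap 0 R θ) := by
      apply intervalIntegral.integral_nonneg (by positivity)
      intro θ _
      simp only [hV]
      have h1 : 0 < ‖G (circleMap 0 R θ)‖ ^ 2 + δ := by positivity
      positivity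
    have h1 : Real.exp (2 * τ) ≤ 1 := Real.exp_le_one_iff.2 (by linarith)
    have h2 := mul_le_mul_of_nonneg_right h1 hint
    rw [one_mul] at h2
    refine (key.trans h2).trans (le_of_eq ?_)
    rw [← intervalIntegral.integral_const_mul]
  · intro w hw
    have h1 := X.norm_N2_le c w
    rw [hcβ] at h1
    have h2 := X.domP2 hβ0 w (hQM w hw)
    rw [← hκ] at h2
    refine h1.trans ?_
    have h3 : X.D0 β w ≤ (M' * X.L (1 / 2) 0 w + X.L (1 / 2) β w) / κ := by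
      rw [le_div_iff₀ hκ0]; linarith
    have h4 := mul_le_mul_of_nonneg_left h3 (show 0 ≤ |c| * (|c - 1| + 2) by positivity)
    refine h4.trans (le_of_eq ?_)
    rw [hC]; field_simp
  · intro w _
    have h1 := (X.U_pos (1 / 2) β w).le
    have h2 := (X.U_pos (1 / 2) 0 w).le
    positivity
  · intro w hw
    rw [hvX]
    have hP := X.P_pos w
    have hQ := X.Q_pos w
    set x := X.P w ^ (1 / 2 : ℝ) with hx
    set y := X.Q w ^ β with hy
    have hx0 : 0 < x := Real.rpow_pos_of_pos hP _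
    have hy0 : 0 < y := Real.rpow_pos_of_pos hQ _
    have hyM : y ≤ M' := hQM w hw
    have hS := X.norm_S_le c w
    rw [hcβ, ← hx, ← hy] at hS
    have eU1 : X.U (1 / 2) β w = x * y := rfl
    have eU2 : X.U (1 / 2) 0 w = x := by unfold Dat.U; rw [Real.rpow_zero, mul_one]
    rw [eU1, eU2]
    have h1 : x * y ≤ x * M' := mul_le_mul_of_nonneg_left hyM hx0.le
    have h2 : M' * x + x * y ≤ 2 * M' * x := by linarith
    have h8 := mul_le_mul_of_nonneg_left h2 (show 0 ≤ C / 2 by positivity)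
    rw [hC1]
    linarith

/-- the integrand without regularisation -/
noncomputable def Ph0 (G F : ℂ → ℂ) (p : ℝ) (z : ℂ) : ℂ :=
  ((G z + z * deriv G z) * (((‖F z‖ ^ (p - 2) : ℝ)) : ℂ)) * conj (F z)

/-- removal of the regularisation in the area integral -/
lemma lim_Ph {G F : ℂ → ℂ} (hG : DifferentiableOn ℂ G (ball 0 1))
    (hF : DifferentiableOn ℂ F (ball 0 1)) {p : ℝ} (hp : 1 < p) {R : ℝ} (hR : R < 1) :
    Tendsto (fun δ : ℝ => ∫ z in ball (0:ℂ) R, Ph G F δ ((p - 2) / 2) z) (𝓝[>] 0)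
      (𝓝 (∫ z in ball (0:ℂ) R, Ph0 G F p z)) := by
  have hsub : closedBall (0:ℂ) R ⊆ ball 0 1 := closedBall_subset_ball hR
  have hsub' : ball (0:ℂ) R ⊆ ball 0 1 := ball_subset_ball hR.le
  set β : ℝ := (p - 1) / 2 with hβ
  have hβ0 : 0 < β := by rw [hβ]; linarith
  have hcG : ContinuousOn (fun z => G z + z * deriv G z) (ball 0 1) :=
    hG.continuousOn.add (continuousOn_id.mul (hG.deriv isOpen_ball).continuousOn)
  have hb : ContinuousOn (fun z => ‖G z + z * deriv G z‖ * (‖F z‖ ^ 2 + 1) ^ β) (ball 0 1) := by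
    apply hcG.norm.mul
    apply ContinuousOn.rpow_const ((hF.continuousOn.norm.pow 2).add continuousOn_const)
    intro z _; left
    exact (add_pos_of_nonneg_of_pos (sq_nonneg ‖F z‖) one_pos).ne'
  apply tendsto_integral_filter_of_dominated_convergence
    (fun z => ‖G z + z * deriv G z‖ * (‖F z‖ ^ 2 + 1) ^ β)
  · filter_upwards [self_mem_nhdsWithin] with δ hδ
    exact ((cPh hG hF hδ _).mono hsub').aestronglyMeasurable measurableSet_ball
  · have h1 : ∀ᶠ δ : ℝ in 𝓝[>] 0, δ < 1 := nhdsWithin_le_nhds (gt_mem_nhds one_pos)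
    filter_upwards [self_mem_nhdsWithin, h1] with δ hδ hδ1
    have hδ0 : 0 < δ := hδ
    apply Eventually.of_forall
    intro z
    unfold Ph
    have hQ : 0 < ‖F z‖ ^ 2 + δ := by positivity
    rw [norm_mul, norm_mul, RCLike.norm_conj, Complex.norm_real, Real.norm_eq_abs,
      abs_of_pos (Real.rpow_pos_of_pos hQ _), mul_assoc]
    apply mul_le_mul_of_nonneg_left _ (norm_nonneg _)
    have hfQ : ‖F z‖ ≤ (‖F z‖ ^ 2 + δ) ^ (1 / 2 : ℝ) := by
      rw [← Real.sqrt_eq_rpow]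
      apply Real.le_sqrt_of_sq_le
      linarith
    calc (‖F z‖ ^ 2 + δ) ^ ((p - 2) / 2) * ‖F z‖
        ≤ (‖F z‖ ^ 2 + δ) ^ ((p - 2) / 2) * (‖F z‖ ^ 2 + δ) ^ (1 / 2 : ℝ) := by gcongr
      _ = (‖F z‖ ^ 2 + δ) ^ β := by
          rw [← Real.rpow_add hQ]; congr 1; rw [hβ]; ring
      _ ≤ (‖F z‖ ^ 2 + 1) ^ β := by
          apply Real.rpow_le_rpow hQ.le (by linarith) hβ0.le
  · exact ((hb.mono hsub).integrableOn_compact (isCompact_closedBall 0 R)).mono_set
      ball_subset_closedBall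
  · apply Eventually.of_forall
    intro z
    unfold Ph Ph0
    by_cases hz : F z = 0
    · simp [hz]
    · have hF0 : 0 < ‖F z‖ := norm_pos_iff.2 hz
      apply Tendsto.mul_const
      apply Tendsto.const_mul
      apply (Complex.continuous_ofReal.tendsto _).comp
      have h1 : Tendsto (fun δ : ℝ => ‖F z‖ ^ 2 + δ) (𝓝[>] 0) (𝓝 (‖F z‖ ^ 2 + 0)) :=
        (tendsto_const_nhds.add tendsto_id).mono_left nhdsWithin_le_nhds
      rw [add_zero] at h1
      have h2 := h1.rpow_const (p := (p - 2) / 2) (Or.inl (by positivity))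
      have e : (‖F z‖ ^ 2) ^ ((p - 2) / 2) = ‖F z‖ ^ (p - 2) := by
        rw [← Real.rpow_natCast, ← Real.rpow_mul hF0.le]
        congr 1; push_cast; ring
      rw [e] at h2
      exact h2

/-- `(a² + δ) ^ e` in terms of `a` -/
lemma reg_le {a δ e : ℝ} (ha : 0 ≤ a) (hδ : 0 ≤ δ) (he : 0 ≤ e) :
    (a ^ 2 + δ) ^ e ≤ 2 ^ e * (a ^ (2 * e) + δ ^ e) := by
  have h1 : a ^ 2 + δ ≤ 2 * max (a ^ 2) δ := by
    have := le_max_left (a ^ 2) δ
    have := le_max_right (a ^ 2) δ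
    linarith
  have h2 : (a ^ 2 + δ) ^ e ≤ (2 * max (a ^ 2) δ) ^ e := Real.rpow_le_rpow (by positivity) h1 he
  rw [Real.mul_rpow (by norm_num) (by positivity)] at h2
  refine h2.trans ?_
  apply mul_le_mul_of_nonneg_left _ (by positivity)
  have e1 : (a ^ 2) ^ e = a ^ (2 * e) := by
    rw [← Real.rpow_natCast, ← Real.rpow_mul ha]; norm_num
  have h3 : 0 ≤ a ^ (2 * e) := by positivity
  have h4 : 0 ≤ δ ^ e := by positivity
  rcases le_total (a ^ 2) δ with h | h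
  · rw [max_eq_right h]; linarith
  · rw [max_eq_left h, e1]; linarith

lemma cont_circle {V : ℂ → ℝ} (hV : ContinuousOn V (ball 0 1)) {R : ℝ} (h0 : 0 ≤ R) (h1 : R < 1) :
    Continuous fun θ : ℝ => V (circleMap 0 R θ) := by
  apply hV.comp_continuous (continuous_circleMap 0 R)
  intro θ
  rw [mem_ball_zero_iff, norm_circleMap_zero, abs_of_nonneg h0]
  exact h1

/-- first estimate -/
theorem disc_P1 {p s t : ℝ} (hp : 1 < p) (hs : 1 < s) (ht : 1 < t) (hst : (s - 1) * (t - 1) = 1) :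
    ∃ C : ℝ, 0 ≤ C ∧ ∀ (G F : ℂ → ℂ), DifferentiableOn ℂ G (ball 0 1) →
      DifferentiableOn ℂ F (ball 0 1) → ∀ R : ℝ, 0 < R → R < 1 →
      ‖∫ z in ball (0:ℂ) R, Ph0 G F p z‖ ≤ C * ∫ θ in (0:ℝ)..(2 * Real.pi),
        (‖G (circleMap 0 R θ)‖ ^ t + ‖F (circleMap 0 R θ)‖ ^ ((p - 1) * s)) := by
  obtain ⟨C, hC0, hC⟩ := disc_P1δ hp hs ht hst
  set a : ℝ := t / 2 with ha
  set b : ℝ := s * ((p - 1) / 2) with hb
  have ha0 : 0 < a := by rw [ha]; linarith
  have hb0 : 0 < b := by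
    rw [hb]; apply mul_pos (by linarith); linarith
  refine ⟨C * (2 ^ a + 2 ^ b), by positivity, ?_⟩
  intro G F hG hF R hR0 hR1
  set D : ℝ := ∫ θ in (0:ℝ)..(2 * Real.pi),
        (‖G (circleMap 0 R θ)‖ ^ t + ‖F (circleMap 0 R θ)‖ ^ ((p - 1) * s)) with hD
  have hGc : Continuous fun θ : ℝ => ‖G (circleMap 0 R θ)‖ := cont_circle hG.continuousOn.norm hR0.le hR1
  have hFc : Continuous fun θ : ℝ => ‖F (circleMap 0 R θ)‖ := cont_circle hF.continuousOn.norm hR0.le hR1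
  have hGt : Continuous fun θ : ℝ => ‖G (circleMap 0 R θ)‖ ^ t :=
    hGc.rpow_const fun θ => Or.inr (by linarith)
  have hFt : Continuous fun θ : ℝ => ‖F (circleMap 0 R θ)‖ ^ ((p - 1) * s) :=
    hFc.rpow_const fun θ => Or.inr (mul_nonneg (by linarith) (by linarith))
  have hbound : ∀ δ : ℝ, 0 < δ → ‖∫ z in ball (0:ℂ) R, Ph G F δ ((p - 2) / 2) z‖ ≤
      C * (2 ^ a + 2 ^ b) * (D + (2 * Real.pi) * (δ ^ a + δ ^ b)) := by
    intro δ hδ
    refine (hC G F hG hF δ hδ R hR0 hR1).trans ?_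
    rw [mul_assoc]
    apply mul_le_mul_of_nonneg_left _ hC0
    have e1 : D + (2 * Real.pi) * (δ ^ a + δ ^ b) = ∫ θ in (0:ℝ)..(2 * Real.pi),
        (‖G (circleMap 0 R θ)‖ ^ t + ‖F (circleMap 0 R θ)‖ ^ ((p - 1) * s) + (δ ^ a + δ ^ b)) := by
      have e2 := intervalIntegral.integral_add (μ := volume) (a := 0) (b := 2 * Real.pi)
        (f := fun θ : ℝ => ‖G (circleMap 0 R θ)‖ ^ t + ‖F (circleMap 0 R θ)‖ ^ ((p - 1) * s))
        (g := fun _ => δ ^ a + δ ^ b) ((hGt.add hFt).intervalIntegrable _ _)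
        intervalIntegrable_const
      rw [e2, ← hD]
      simp
      ring
    rw [e1, ← intervalIntegral.integral_const_mul]
    apply intervalIntegral.integral_mono_on (by positivity)
    · apply Continuous.intervalIntegrable
      apply Continuous.add
      · exact ((hGc.pow 2).add continuous_const).rpow_const fun θ => Or.inr ha0.le
      · exact ((hFc.pow 2).add continuous_const).rpow_const fun θ => Or.inr hb0.le
    · apply Continuous.intervalIntegrable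
      exact continuous_const.mul ((hGt.add hFt).add continuous_const)
    · intro θ _
      have h1 := reg_le (norm_nonneg (G (circleMap 0 R θ))) hδ.le ha0.le
      have h2 := reg_le (norm_nonneg (F (circleMap 0 R θ))) hδ.le hb0.le
      have e2 : 2 * a = t := by rw [ha]; ring
      have e3 : 2 * b = (p - 1) * s := by rw [hb]; ring
      rw [e2] at h1
      rw [e3] at h2
      have h3 : 0 ≤ ‖G (circleMap 0 R θ)‖ ^ t + δ ^ a := by positivity
      have h4 : 0 ≤ ‖F (circleMap 0 R θ)‖ ^ ((p - 1) * s) + δ ^ b := by positivity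
      have h5 : (0:ℝ) < 2 ^ a := by positivity
      have h6 : (0:ℝ) < 2 ^ b := by positivity
      have h7 := mul_nonneg h6.le h3
      have h8 := mul_nonneg h5.le h4
      linarith
  have h1 := (lim_Ph hG hF hp hR1).norm
  have hpow : ∀ e : ℝ, 0 < e → Tendsto (fun δ : ℝ => δ ^ e) (𝓝[>] 0) (𝓝 0) := by
    intro e he
    have := (Real.continuousAt_rpow_const 0 e (Or.inr he.le)).tendsto
    rw [Real.zero_rpow he.ne'] at this
    exact this.mono_left nhdsWithin_le_nhds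
  have h2 : Tendsto (fun δ : ℝ => C * (2 ^ a + 2 ^ b) * (D + (2 * Real.pi) * (δ ^ a + δ ^ b)))
      (𝓝[>] 0) (𝓝 (C * (2 ^ a + 2 ^ b) * (D + (2 * Real.pi) * (0 + 0)))) :=
    (tendsto_const_nhds.add (((hpow a ha0).add (hpow b hb0)).const_mul _)).const_mul _
  rw [add_zero, mul_zero, add_zero] at h2
  exact le_of_tendsto_of_tendsto h1 h2 (by
    filter_upwards [self_mem_nhdsWithin] with δ hδ
    exact hbound δ hδ)

/-- second estimate -/
theorem disc_P2 {p : ℝ} (hp : 1 < p) {M : ℝ} (hM : 0 ≤ M) :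
    ∃ C : ℝ, 0 ≤ C ∧ ∀ (G F : ℂ → ℂ), DifferentiableOn ℂ G (ball 0 1) →
      DifferentiableOn ℂ F (ball 0 1) → (∀ z ∈ ball (0:ℂ) 1, ‖F z‖ ≤ M) → ∀ R : ℝ, 0 < R → R < 1 →
      ‖∫ z in ball (0:ℂ) R, Ph0 G F p z‖ ≤ C * ∫ θ in (0:ℝ)..(2 * Real.pi),
        ‖G (circleMap 0 R θ)‖ := by
  obtain ⟨C, hC0, hC⟩ := disc_P2δ hp hM
  set a : ℝ := 1 / 2 with ha
  have ha0 : 0 < a := by rw [ha]; norm_num
  refine ⟨C * 2 ^ a, by positivity, ?_⟩
  intro G F hG hF hFM R hR0 hR1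
  set D : ℝ := ∫ θ in (0:ℝ)..(2 * Real.pi), ‖G (circleMap 0 R θ)‖ with hD
  have hGc : Continuous fun θ : ℝ => ‖G (circleMap 0 R θ)‖ := cont_circle hG.continuousOn.norm hR0.le hR1
  have hbound : ∀ δ : ℝ, 0 < δ → δ ≤ 1 → ‖∫ z in ball (0:ℂ) R, Ph G F δ ((p - 2) / 2) z‖ ≤
      C * 2 ^ a * (D + (2 * Real.pi) * (δ ^ a)) := by
    intro δ hδ hδ1
    refine (hC G F hG hF hFM δ hδ hδ1 R hR0 hR1).trans ?_
    rw [mul_assoc]
    apply mul_le_mul_of_nonneg_left _ hC0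
    have e1 : D + (2 * Real.pi) * (δ ^ a) = ∫ θ in (0:ℝ)..(2 * Real.pi),
        (‖G (circleMap 0 R θ)‖ + δ ^ a) := by
      rw [intervalIntegral.integral_add (hGc.intervalIntegrable _ _) intervalIntegrable_const, ← hD]
      simp
    rw [e1, ← intervalIntegral.integral_const_mul]
    apply intervalIntegral.integral_mono_on (by positivity)
    · apply Continuous.intervalIntegrable
      exact ((hGc.pow 2).add continuous_const).rpow_const fun θ => Or.inr ha0.le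
    · apply Continuous.intervalIntegrable
      exact continuous_const.mul (hGc.add continuous_const)
    · intro θ _
      have h1 := reg_le (norm_nonneg (G (circleMap 0 R θ))) hδ.le ha0.le
      have e2 : 2 * a = 1 := by rw [ha]; ring
      rw [e2, Real.rpow_one] at h1
      exact h1
  have h1 := (lim_Ph hG hF hp hR1).norm
  have hpow : Tendsto (fun δ : ℝ => δ ^ a) (𝓝[>] 0) (𝓝 0) := by
    have := (Real.continuousAt_rpow_const 0 a (Or.inr ha0.le)).tendsto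
    rw [Real.zero_rpow ha0.ne'] at this
    exact this.mono_left nhdsWithin_le_nhds
  have h2 : Tendsto (fun δ : ℝ => C * 2 ^ a * (D + (2 * Real.pi) * (δ ^ a)))
      (𝓝[>] 0) (𝓝 (C * 2 ^ a * (D + (2 * Real.pi) * 0))) :=
    (tendsto_const_nhds.add (hpow.const_mul _)).const_mul _
  rw [mul_zero, add_zero] at h2
  have h3 : ∀ᶠ δ : ℝ in 𝓝[>] 0, δ < 1 := nhdsWithin_le_nhds (gt_mem_nhds one_pos)
  exact le_of_tendsto_of_tendsto h1 h2 (by
    filter_upwards [self_mem_nhdsWithin, h3] with δ hδ hδ1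
    exact hbound δ hδ hδ1.le)

/-- circle means of powers of the modulus of a holomorphic function increase -/
theorem mean_mono {G : ℂ → ℂ} (hG : DifferentiableOn ℂ G (ball 0 1)) {t : ℝ} (ht : 0 < t)
    {r R : ℝ} (hr : 0 < r) (hrR : r ≤ R) (hR : R < 1) :
    ∫ θ in (0:ℝ)..(2 * Real.pi), ‖G (circleMap 0 r θ)‖ ^ t ≤
      ∫ θ in (0:ℝ)..(2 * Real.pi), ‖G (circleMap 0 R θ)‖ ^ t := by
  have hR0 : 0 < R := lt_of_lt_of_le hr hrR
  have hδle : ∀ δ : ℝ, 0 < δ → ∫ θ in (0:ℝ)..(2 * Real.pi), (‖G (circleMap 0 r θ)‖ ^ 2 + δ) ^ (t / 2) ≤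
      ∫ θ in (0:ℝ)..(2 * Real.pi), (‖G (circleMap 0 R θ)‖ ^ 2 + δ) ^ (t / 2) := by
    intro δ hδ
    set X : Dat := mkDat hG hG hδ with hX
    have hlim : Lim X := mkDat_lim hG hG hδ
    have hpk := Dat.pk hlim (t / 2) 0
    have h := hpk.mono (fun w _ => by
      have h1 := (X.U_pos (t / 2) 0 w).le
      have := X.hδ
      unfold Dat.L
      positivity) (Real.log_le_log hr hrR) (Real.log_neg hR0 hR)
    have e : ∀ ρ : ℝ, 0 < ρ → mr (X.U (t / 2) 0) (Real.log ρ) =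
        ∫ θ in (0:ℝ)..(2 * Real.pi), (‖G (circleMap 0 ρ θ)‖ ^ 2 + δ) ^ (t / 2) := by
      intro ρ hρ
      have := mr_exp (fun z => (‖G z‖ ^ 2 + δ) ^ (t / 2)) (Real.log ρ)
      rw [Real.exp_log hρ] at this
      rw [← this]
      congr 1
      ext w
      unfold Dat.U
      rw [Real.rpow_zero, mul_one]
      rfl
    rwa [e r hr, e R hR0] at h
  have hlimδ : ∀ ρ : ℝ, 0 < ρ → ρ < 1 → Tendsto (fun δ : ℝ => ∫ θ in (0:ℝ)..(2 * Real.pi),
      (‖G (circleMap 0 ρ θ)‖ ^ 2 + δ) ^ (t / 2)) (𝓝[>] 0) (𝓝 (∫ θ in (0:ℝ)..(2 * Real.pi),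
      ‖G (circleMap 0 ρ θ)‖ ^ t)) := by
    intro ρ hρ0 hρ1
    have hGc : Continuous fun θ : ℝ => ‖G (circleMap 0 ρ θ)‖ :=
      cont_circle hG.continuousOn.norm hρ0.le hρ1
    have hc1 : ∀ δ : ℝ, 0 ≤ δ → Continuous fun θ : ℝ =>
        (‖G (circleMap 0 ρ θ)‖ ^ 2 + δ) ^ (t / 2) := fun δ hδ =>
      ((hGc.pow 2).add continuous_const).rpow_const fun θ => Or.inr (by linarith)
    apply intervalIntegral.tendsto_integral_filter_of_dominated_convergence
      (fun θ => (‖G (circleMap 0 ρ θ)‖ ^ 2 + 1) ^ (t / 2))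
    · filter_upwards [self_mem_nhdsWithin] with δ hδ
      exact (hc1 δ (le_of_lt hδ)).aestronglyMeasurable
    · have h1 : ∀ᶠ δ : ℝ in 𝓝[>] 0, δ < 1 := nhdsWithin_le_nhds (gt_mem_nhds one_pos)
      filter_upwards [self_mem_nhdsWithin, h1] with δ hδ hδ1
      have hδ0 : 0 < δ := hδ
      apply Eventually.of_forall
      intro θ _
      rw [Real.norm_eq_abs, abs_of_nonneg (by positivity)]
      apply Real.rpow_le_rpow (by positivity) (by linarith) (by linarith)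
    · exact (hc1 1 zero_le_one).intervalIntegrable _ _
    · apply Eventually.of_forall
      intro θ _
      have h1 : Tendsto (fun δ : ℝ => ‖G (circleMap 0 ρ θ)‖ ^ 2 + δ) (𝓝[>] 0)
          (𝓝 (‖G (circleMap 0 ρ θ)‖ ^ 2 + 0)) :=
        (tendsto_const_nhds.add tendsto_id).mono_left nhdsWithin_le_nhds
      rw [add_zero] at h1
      have h2 := h1.rpow_const (p := t / 2) (Or.inr (by linarith))
      have e : (‖G (circleMap 0 ρ θ)‖ ^ 2) ^ (t / 2) = ‖G (circleMap 0 ρ θ)‖ ^ t := by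
        rw [← Real.rpow_natCast, ← Real.rpow_mul (norm_nonneg _)]
        congr 1; push_cast; ring
      rw [e] at h2
      exact h2
  exact le_of_tendsto_of_tendsto (hlimδ r hr (lt_of_le_of_lt hrR hR)) (hlimδ R hR0 hR) (by
    filter_upwards [self_mem_nhdsWithin] with δ hδ
    exact hδle δ hδ)

end Pool.Agent.R253.BE
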