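import Pool.Agent.R253.BE.Lap2

set_option autoImplicit false

namespace Pool.Agent.R253.BE

open Complex Metric Set Filter Topology MeasureTheory ComplexConjugate

/-- `|b|² ≤ 2|a+b|² + 2|a|²` -/
lemma par (a b : ℂ) : ‖b‖ ^ 2 ≤ 2 * ‖a + b‖ ^ 2 + 2 * ‖a‖ ^ 2 := by
  have h1 : ‖b‖ ≤ ‖a + b‖ + ‖a‖ := by
    have := norm_sub_le (a + b) a
    rwa [add_sub_cancel_left] at this
  nlinarith [norm_nonneg b, norm_nonneg (a + b), norm_nonneg a, sq_nonneg (‖a + b‖ - ‖a‖)]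

lemma dom_core {x y s t : ℝ} (hx : 0 < x) (hy : 0 < y) (hs : 1 < s) (ht : 1 < t)
    (hst : (s - 1) * (t - 1) = 1) (a b : ℂ) :
    x * y * ‖b‖ ^ 2 ≤ 2 * (x * y * ‖a + b‖ ^ 2) + 2 * (x ^ t * ‖a‖ ^ 2) + y ^ s * ‖b‖ ^ 2 := by
  have hpos1 : 0 ≤ x ^ t * ‖a‖ ^ 2 := by positivity
  have hpos2 : 0 ≤ x * y * ‖a + b‖ ^ 2 := by positivity
  have hpos3 : 0 ≤ y ^ s * ‖b‖ ^ 2 := by positivity
  rcases le_total x (y ^ (s - 1)) with h | h
  · have h1 : x * y ≤ y ^ s := by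
      have : y ^ s = y ^ (s - 1) * y := by rw [← Real.rpow_add_one hy.ne']; congr 1; ring
      rw [this]
      exact mul_le_mul_of_nonneg_right h hy.le
    have h2 := mul_le_mul_of_nonneg_right h1 (sq_nonneg ‖b‖)
    linarith
  · have h1 : x * y ≤ x ^ t := by
      have h3 : x ^ t = x * x ^ (t - 1) := by
        rw [mul_comm, ← Real.rpow_add_one hx.ne']; congr 1; ring
      rw [h3]
      apply mul_le_mul_of_nonneg_left _ hx.le
      have h4 := Real.rpow_le_rpow (by positivity) h (show (0:ℝ) ≤ t - 1 by linarith)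
      rw [← Real.rpow_mul hy.le, hst, Real.rpow_one] at h4
      exact h4
    have h2 := mul_le_mul_of_nonneg_right h1 (sq_nonneg ‖a‖)
    have h3 := mul_le_mul_of_nonneg_left (par a b) (mul_pos hx hy).le
    nlinarith

namespace Dat

variable (X : Dat)

lemma domP1 {s t β : ℝ} (hs : 1 < s) (ht : 1 < t) (hst : (s - 1) * (t - 1) = 1) (hβ : 0 < β)
    (w : ℂ) : min (β ^ 2) (2 * β) * X.D0 β w ≤
      2 * X.L (1 / 2) β w + (2 / t ^ 2) * X.L (t / 2) 0 w + (1 / s ^ 2) * X.L 0 (s * β) w := by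
  have hP := X.P_pos w
  have hQ := X.Q_pos w
  set x := X.P w ^ (1 / 2 : ℝ) with hx
  set y := X.Q w ^ β with hy
  have hx0 : 0 < x := Real.rpow_pos_of_pos hP _
  have hy0 : 0 < y := Real.rpow_pos_of_pos hQ _
  have hxt : X.P w ^ (t / 2) = x ^ t := by
    rw [hx, ← Real.rpow_mul hP.le]; congr 1; ring
  have hys : X.Q w ^ (s * β) = y ^ s := by
    rw [hy, ← Real.rpow_mul hQ.le]; congr 1; ring
  set eP := X.δ * ‖X.g1 w‖ ^ 2 / X.P w ^ 2 with heP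
  set eQ := X.δ * ‖X.f1 w‖ ^ 2 / X.Q w ^ 2 with heQ
  have hδ := X.hδ
  have heP0 : 0 ≤ eP := by positivity
  have heQ0 : 0 ≤ eQ := by positivity
  set a : ℂ := (1 / 2 : ℂ) * X.A w with ha
  set b : ℂ := (β : ℂ) * X.B w with hb
  have hD : X.D0 β w = x * y * (‖X.B w‖ ^ 2 + eQ) := rfl
  have hL1 : X.L (1 / 2) β w = x * y * (‖a + b‖ ^ 2 + 1 / 2 * eP + β * eQ) := by
    unfold L U
    rw [ha, hb]
    push_cast
    rfl
  have hL2 : X.L (t / 2) 0 w = x ^ t * (t ^ 2 * ‖a‖ ^ 2 + t / 2 * eP) := by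
    unfold L U
    rw [Real.rpow_zero, mul_one, hxt]
    have : ((t / 2 : ℝ) : ℂ) * X.A w + ((0:ℝ):ℂ) * X.B w = (t : ℂ) * a := by
      rw [ha]; push_cast; ring
    rw [this, norm_mul, Complex.norm_real, Real.norm_eq_abs, mul_pow, sq_abs]
    ring
  have hL3 : X.L 0 (s * β) w = y ^ s * (s ^ 2 * ‖b‖ ^ 2 + s * β * eQ) := by
    unfold L U
    rw [Real.rpow_zero, one_mul, hys]
    have : ((0:ℝ):ℂ) * X.A w + ((s * β : ℝ) : ℂ) * X.B w = (s : ℂ) * b := by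
      rw [hb]; push_cast; ring
    rw [this, norm_mul, Complex.norm_real, Real.norm_eq_abs, mul_pow, sq_abs]
    ring
  have hb2 : ‖b‖ ^ 2 = β ^ 2 * ‖X.B w‖ ^ 2 := by
    rw [hb, norm_mul, Complex.norm_real, Real.norm_eq_abs, mul_pow, sq_abs]
  have key := dom_core hx0 hy0 hs ht hst a b
  rw [hD, hL1, hL2, hL3]
  have hs0 : 0 < s := by linarith
  have ht0 : 0 < t := by linarith
  have e1 : 2 / t ^ 2 * (x ^ t * (t ^ 2 * ‖a‖ ^ 2 + t / 2 * eP)) =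
      2 * (x ^ t * ‖a‖ ^ 2) + x ^ t * (eP / t) := by
    field_simp
  have e2 : 1 / s ^ 2 * (y ^ s * (s ^ 2 * ‖b‖ ^ 2 + s * β * eQ)) =
      y ^ s * ‖b‖ ^ 2 + y ^ s * (β * eQ / s) := by
    field_simp
  rw [e1, e2]
  have h1 : min (β ^ 2) (2 * β) * (x * y * (‖X.B w‖ ^ 2 + eQ)) ≤
      x * y * (β ^ 2 * ‖X.B w‖ ^ 2) + x * y * (2 * β * eQ) := by
    have h2 : min (β ^ 2) (2 * β) * ‖X.B w‖ ^ 2 ≤ β ^ 2 * ‖X.B w‖ ^ 2 :=
      mul_le_mul_of_nonneg_right (min_le_left _ _) (sq_nonneg _)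
    have h3 : min (β ^ 2) (2 * β) * eQ ≤ 2 * β * eQ :=
      mul_le_mul_of_nonneg_right (min_le_right _ _) heQ0
    have h4 := mul_le_mul_of_nonneg_left (add_le_add h2 h3) (mul_pos hx0 hy0).le
    calc _ = x * y * (min (β ^ 2) (2 * β) * ‖X.B w‖ ^ 2 + min (β ^ 2) (2 * β) * eQ) := by ring
      _ ≤ _ := h4
      _ = _ := by ring
  rw [hb2] at key ⊢
  have h5 : 0 ≤ x * y * (1 / 2 * eP) := by positivity
  have h6 : 0 ≤ x ^ t * (eP / t) := by positivity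
  have h7 : 0 ≤ y ^ s * (β * eQ / s) := by positivity
  nlinarith [h1, key, h5, h6, h7]

lemma domP2 {β M : ℝ} (hβ : 0 < β) (w : ℂ) (hM : X.Q w ^ β ≤ M) :
    min (β ^ 2 / 2) β * X.D0 β w ≤ M * X.L (1 / 2) 0 w + X.L (1 / 2) β w := by
  have hP := X.P_pos w
  have hQ := X.Q_pos w
  set x := X.P w ^ (1 / 2 : ℝ) with hx
  set y := X.Q w ^ β with hy
  have hx0 : 0 < x := Real.rpow_pos_of_pos hP _
  have hy0 : 0 < y := Real.rpow_pos_of_pos hQ _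
  set eP := X.δ * ‖X.g1 w‖ ^ 2 / X.P w ^ 2 with heP
  set eQ := X.δ * ‖X.f1 w‖ ^ 2 / X.Q w ^ 2 with heQ
  have hδ := X.hδ
  have heP0 : 0 ≤ eP := by positivity
  have heQ0 : 0 ≤ eQ := by positivity
  set a : ℂ := (1 / 2 : ℂ) * X.A w with ha
  set b : ℂ := (β : ℂ) * X.B w with hb
  have hD : X.D0 β w = x * y * (‖X.B w‖ ^ 2 + eQ) := rfl
  have hL1 : X.L (1 / 2) β w = x * y * (‖a + b‖ ^ 2 + 1 / 2 * eP + β * eQ) := by
    unfold L U
    rw [ha, hb]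
    push_cast
    rfl
  have hL2 : X.L (1 / 2) 0 w = x * (‖a‖ ^ 2 + 1 / 2 * eP) := by
    unfold L U
    rw [Real.rpow_zero, mul_one]
    have : ((1 / 2 : ℝ) : ℂ) * X.A w + ((0:ℝ):ℂ) * X.B w = a := by
      rw [ha]; push_cast; ring
    rw [this]
    ring
  have hb2 : ‖b‖ ^ 2 = β ^ 2 * ‖X.B w‖ ^ 2 := by
    rw [hb, norm_mul, Complex.norm_real, Real.norm_eq_abs, mul_pow, sq_abs]
  have hpar := par a b
  rw [hb2] at hpar
  rw [hD, hL1, hL2]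
  have h1 : min (β ^ 2 / 2) β * (x * y * (‖X.B w‖ ^ 2 + eQ)) ≤
      x * y * (β ^ 2 / 2 * ‖X.B w‖ ^ 2) + x * y * (β * eQ) := by
    have h2 : min (β ^ 2 / 2) β * ‖X.B w‖ ^ 2 ≤ β ^ 2 / 2 * ‖X.B w‖ ^ 2 :=
      mul_le_mul_of_nonneg_right (min_le_left _ _) (sq_nonneg _)
    have h3 : min (β ^ 2 / 2) β * eQ ≤ β * eQ :=
      mul_le_mul_of_nonneg_right (min_le_right _ _) heQ0
    have h4 := mul_le_mul_of_nonneg_left (add_le_add h2 h3) (mul_pos hx0 hy0).le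
    calc _ = x * y * (min (β ^ 2 / 2) β * ‖X.B w‖ ^ 2 + min (β ^ 2 / 2) β * eQ) := by ring
      _ ≤ _ := h4
      _ = _ := by ring
  have h2 : x * y * (β ^ 2 / 2 * ‖X.B w‖ ^ 2) ≤ x * y * (‖a + b‖ ^ 2 + ‖a‖ ^ 2) := by
    apply mul_le_mul_of_nonneg_left _ (mul_pos hx0 hy0).le
    linarith
  have h3 : x * y * ‖a‖ ^ 2 ≤ M * (x * ‖a‖ ^ 2) := by
    have := mul_le_mul_of_nonneg_right hM (show 0 ≤ x * ‖a‖ ^ 2 by positivity)
    linarith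
  have hM0 : 0 ≤ M := hy0.le.trans hM
  have h4 : 0 ≤ M * (x * (1 / 2 * eP)) := by positivity
  have h5 : 0 ≤ x * y * (1 / 2 * eP) := by positivity
  nlinarith

end Dat

end Pool.Agent.R253.BE
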