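import Pool.Agent.R253.BE.Pair

set_option autoImplicit false

namespace Pool.Agent.R253.BE

open Complex Metric Set Filter Topology MeasureTheory ComplexConjugate

/-- the measures in use: positive multiples of the area measure of the disc -/
noncomputable def am (c : ℝ) : Measure ℂ := ENNReal.ofReal c • volume.restrict (ball (0:ℂ) 1)

lemma ofReal_ne {c : ℝ} (hc : 0 < c) : ENNReal.ofReal c ≠ 0 := by
  simpa using hc

section

variable {c : ℝ} (hc : 0 < c)
include hc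

lemma good_am : Good (am c) where
  fin := by
    unfold am
    have : IsFiniteMeasure (volume.restrict (ball (0:ℂ) 1)) := by
      constructor
      rw [Measure.restrict_apply_univ]
      exact measure_ball_lt_top
    exact Measure.smul_finite _ ENNReal.ofReal_ne_top
  meas := by
    intro f hf
    unfold am
    exact (hf.aestronglyMeasurable measurableSet_ball).smul_measure _
  ae := by
    unfold am
    rw [Measure.ae_ennreal_smul_measure_iff (ofReal_ne hc)]
    exact ae_restrict_mem measurableSet_ball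

lemma int_am (f : ℂ → ℂ) : ∫ z, f z ∂(am c) = c * ∫ z in ball (0:ℂ) 1, f z := by
  unfold am
  rw [integral_smul_measure, ENNReal.toReal_ofReal hc.le]
  rfl

lemma integrable_am {E : Type*} [NormedAddCommGroup E] {f : ℂ → E} :
    Integrable f (am c) ↔ IntegrableOn f (ball 0 1) := by
  unfold am
  exact integrable_smul_measure (ofReal_ne hc) ENNReal.ofReal_ne_top

lemma kernel_int {q : ℝ} (hq : 1 ≤ q) {k : ℂ → ℂ} (hk : InA (am c) q k) :
    IntegrableOn k (ball 0 1) := by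
  have h1 := (integrable_am hc).1 hk.2
  have hfin : IsFiniteMeasure (volume.restrict (ball (0:ℂ) 1)) := by
    constructor
    rw [Measure.restrict_apply_univ]
    exact measure_ball_lt_top
  have hone : Integrable (fun _ : ℂ => (1:ℝ)) (volume.restrict (ball (0:ℂ) 1)) :=
    integrable_const _
  apply Integrable.mono' (g := fun z => 1 + ‖k z‖ ^ q)
  · exact hone.add h1
  · exact hk.1.continuousOn.aestronglyMeasurable measurableSet_ball
  · apply Eventually.of_forall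
    intro z
    rcases le_total ‖k z‖ 1 with h | h
    · have : 0 ≤ ‖k z‖ ^ q := by positivity
      linarith
    · have := Real.rpow_le_rpow_of_exponent_le h hq
      rw [Real.rpow_one] at this
      linarith

/-- the extremality relation for area integrals -/
lemma EL' {p q : ℝ} (hpq : p.HolderConjugate q) {k F : ℂ → ℂ} (hk : InA (am c) q k)
    (hF : IsExt (am c) p k F) {g : ℂ → ℂ} (hg : DifferentiableOn ℂ g (ball 0 1)) {M : ℝ}
    (hM : ∀ z ∈ ball (0:ℂ) 1, ‖g z‖ ≤ M) :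
    ∫ z in ball (0:ℂ) 1, g z * conj (k z) = (phi (am c) k F).re *
      ∫ z in ball (0:ℂ) 1, (g z * ((‖F z‖ ^ (p - 2) : ℝ) : ℂ)) * conj (F z) := by
  have h := EL (good_am hc) hpq hk hF hg hM
  unfold phi at h ⊢
  rw [int_am hc, int_am hc (f := fun z => (g z * ((‖F z‖ ^ (p - 2) : ℝ) : ℂ)) * conj (F z))] at h
  have hc' : (c:ℂ) ≠ 0 := Complex.ofReal_ne_zero.2 hc.ne'
  rw [mul_left_comm] at h
  exact mul_left_cancel₀ hc' h

end

lemma dil_diff' {G : ℂ → ℂ} {ρ : ℝ} (hG : DifferentiableOn ℂ G (ball 0 ρ)) {r : ℝ}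
    (h0 : 0 < r) (h1 : r ≤ ρ) : DifferentiableOn ℂ (dil G r) (ball 0 1) := by
  intro z hz
  rw [mem_ball_zero_iff] at hz
  have hmem : (r:ℂ) * z ∈ ball (0:ℂ) ρ := by
    rw [mem_ball_zero_iff, norm_mul, Complex.norm_real, Real.norm_eq_abs, abs_of_pos h0]
    nlinarith [norm_nonneg z]
  have h2 : DifferentiableAt ℂ G (r * z) := hG.differentiableAt (isOpen_ball.mem_nhds hmem)
  have h3 : DifferentiableAt ℂ (fun z : ℂ => (r:ℂ) * z) z := by fun_prop
  exact (DifferentiableAt.comp z h2 h3).differentiableWithinAt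

lemma mean_le {G : ℂ → ℂ} {ρ : ℝ} (hρ : 1 < ρ) (hG : DifferentiableOn ℂ G (ball 0 ρ)) {t : ℝ}
    (ht : 0 < t) {r : ℝ} (h0 : 0 < r) (h1 : r < 1) :
    ∫ θ in (0:ℝ)..(2 * Real.pi), ‖G (circleMap 0 r θ)‖ ^ t ≤
      ∫ θ in (0:ℝ)..(2 * Real.pi), ‖G (circleMap 0 1 θ)‖ ^ t := by
  have hd := dil_diff' hG (by linarith : 0 < ρ) le_rfl
  have hρ0 : 0 < ρ := by linarith
  have h := mean_mono hd ht (r := r / ρ) (R := 1 / ρ) (by positivity)
    (div_le_div_of_nonneg_right h1.le hρ0.le) (by rw [div_lt_one hρ0]; exact hρ)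
  simp only [dil_circle] at h
  rwa [mul_div_cancel₀ _ hρ0.ne', mul_div_cancel₀ _ hρ0.ne'] at h

section

variable {c : ℝ} (hc : 0 < c)
include hc

/-- duality estimate for kernels of extremal functions in a Hardy space -/
theorem ub_P1 {p q s t : ℝ} (hpq : p.HolderConjugate q) (hs : 1 < s) (ht : 1 < t)
    (hst : (s - 1) * (t - 1) = 1) {k F : ℂ → ℂ} (hk : InA (am c) q k) (hF : IsExt (am c) p k F)
    {MF : ℝ} (hMF : ∀ r : ℝ, 0 < r → r < 1 →
      ∫ θ in (0:ℝ)..(2 * Real.pi), ‖F (circleMap 0 r θ)‖ ^ ((p - 1) * s) ≤ MF) :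
    ∃ C : ℝ, 0 ≤ C ∧ ∀ ρ : ℝ, 1 < ρ → ∀ G : ℂ → ℂ, DifferentiableOn ℂ G (ball 0 ρ) →
      ∀ r : ℝ, 0 < r → r < 1 →
      ‖∫ θ in (0:ℝ)..(2 * Real.pi), G (circleMap 0 1 θ) * conj (k (circleMap 0 r θ))‖ ≤
        C * ((∫ θ in (0:ℝ)..(2 * Real.pi), ‖G (circleMap 0 1 θ)‖ ^ t) + |MF|) := by
  obtain ⟨C, hC0, hC⟩ := disc_P1 hpq.lt hs ht hst
  set m : ℝ := (phi (am c) k F).re with hm
  refine ⟨2 * |m| * C, by positivity, ?_⟩
  intro ρ hρ G hG r h0 h1
  have hGr := dil_diff hρ hG h0 h1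
  have hGr1 : DifferentiableOn ℂ (dil G r) (ball 0 1) := hGr.mono (ball_subset_ball hρ.le)
  obtain ⟨M, hM⟩ := bdd_test hρ hGr
  have hpair := pair_full hρ hG hk.1 (kernel_int hc hpq.symm.lt.le hk) h0 h1
  have hg : DifferentiableOn ℂ (fun z => dil G r z + z * deriv (dil G r) z) (ball 0 1) :=
    hGr1.add (differentiableOn_id.mul (hGr1.deriv isOpen_ball))
  have hEL := EL' hc hpq hk hF hg hM
  have hint : IntegrableOn (Ph0 (dil G r) F p) (ball 0 1) :=
    (integrable_am hc).1 (int_psi (good_am hc) hpq.lt hF.1 hg.continuousOn hM)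
  have hl := (lim_ball hint).norm
  have hbd : ∀ n, ‖∫ z in ball (0:ℂ) (Rn n), Ph0 (dil G r) F p z‖ ≤
      C * ((∫ θ in (0:ℝ)..(2 * Real.pi), ‖G (circleMap 0 1 θ)‖ ^ t) + |MF|) := by
    intro n
    refine (hC (dil G r) F hGr1 hF.1.1 (Rn n) (Rn_pos n) (Rn_lt n)).trans ?_
    apply mul_le_mul_of_nonneg_left _ hC0
    have hGc : Continuous fun θ : ℝ => ‖dil G r (circleMap 0 (Rn n) θ)‖ ^ t :=
      (cont_circ hGr1.continuousOn (Rn_pos n).le (Rn_lt n)).norm.rpow_const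
        fun θ => Or.inr (by linarith)
    have hFc : Continuous fun θ : ℝ => ‖F (circleMap 0 (Rn n) θ)‖ ^ ((p - 1) * s) :=
      (cont_circ hF.1.1.continuousOn (Rn_pos n).le (Rn_lt n)).norm.rpow_const
        fun θ => Or.inr (mul_nonneg (by linarith [hpq.lt]) (by linarith))
    rw [intervalIntegral.integral_add (hGc.intervalIntegrable _ _) (hFc.intervalIntegrable _ _)]
    apply add_le_add
    · simp only [dil_circle]
      apply mean_le hρ hG (by linarith) (mul_pos h0 (Rn_pos n))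
      nlinarith [Rn_lt n, Rn_pos n]
    · exact (hMF _ (Rn_pos n) (Rn_lt n)).trans (le_abs_self _)
  have hfin := le_of_tendsto' hl hbd
  have e1 : ∫ θ in (0:ℝ)..(2 * Real.pi), G (circleMap 0 1 θ) * conj (k (circleMap 0 r θ)) =
      2 * (m * ∫ z in ball (0:ℂ) 1, Ph0 (dil G r) F p z) := by
    have : (m:ℂ) * ∫ z in ball (0:ℂ) 1, Ph0 (dil G r) F p z =
        ∫ z in ball (0:ℂ) 1, (dil G r z + z * deriv (dil G r) z) * conj (k z) := hEL.symm
    rw [this, hpair]
    ring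
  rw [e1, norm_mul, norm_mul, Complex.norm_real, Complex.norm_ofNat, Real.norm_eq_abs]
  have := mul_le_mul_of_nonneg_left hfin (show 0 ≤ 2 * |m| by positivity)
  linarith

/-- duality estimate for kernels of bounded extremal functions -/
theorem ub_P2 {p q : ℝ} (hpq : p.HolderConjugate q) {k F : ℂ → ℂ} (hk : InA (am c) q k)
    (hF : IsExt (am c) p k F) {MF : ℝ} (hMF : ∀ z ∈ ball (0:ℂ) 1, ‖F z‖ ≤ MF) :
    ∃ C : ℝ, 0 ≤ C ∧ ∀ ρ : ℝ, 1 < ρ → ∀ G : ℂ → ℂ, DifferentiableOn ℂ G (ball 0 ρ) →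
      ∀ r : ℝ, 0 < r → r < 1 →
      ‖∫ θ in (0:ℝ)..(2 * Real.pi), G (circleMap 0 1 θ) * conj (k (circleMap 0 r θ))‖ ≤
        C * ∫ θ in (0:ℝ)..(2 * Real.pi), ‖G (circleMap 0 1 θ)‖ := by
  have hMF0 : 0 ≤ MF := (norm_nonneg _).trans (hMF 0 zero_mem_ball)
  obtain ⟨C, hC0, hC⟩ := disc_P2 hpq.lt hMF0
  set m : ℝ := (phi (am c) k F).re with hm
  refine ⟨2 * |m| * C, by positivity, ?_⟩
  intro ρ hρ G hG r h0 h1
  have hGr := dil_diff hρ hG h0 h1
  have hGr1 : DifferentiableOn ℂ (dil G r) (ball 0 1) := hGr.mono (ball_subset_ball hρ.le)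
  obtain ⟨M, hM⟩ := bdd_test hρ hGr
  have hpair := pair_full hρ hG hk.1 (kernel_int hc hpq.symm.lt.le hk) h0 h1
  have hg : DifferentiableOn ℂ (fun z => dil G r z + z * deriv (dil G r) z) (ball 0 1) :=
    hGr1.add (differentiableOn_id.mul (hGr1.deriv isOpen_ball))
  have hEL := EL' hc hpq hk hF hg hM
  have hint : IntegrableOn (Ph0 (dil G r) F p) (ball 0 1) :=
    (integrable_am hc).1 (int_psi (good_am hc) hpq.lt hF.1 hg.continuousOn hM)
  have hl := (lim_ball hint).norm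
  have hbd : ∀ n, ‖∫ z in ball (0:ℂ) (Rn n), Ph0 (dil G r) F p z‖ ≤
      C * ∫ θ in (0:ℝ)..(2 * Real.pi), ‖G (circleMap 0 1 θ)‖ := by
    intro n
    refine (hC (dil G r) F hGr1 hF.1.1 hMF (Rn n) (Rn_pos n) (Rn_lt n)).trans ?_
    apply mul_le_mul_of_nonneg_left _ hC0
    simp only [dil_circle]
    have := mean_le hρ hG one_pos (mul_pos h0 (Rn_pos n)) (by nlinarith [Rn_lt n, Rn_pos n])
    simpa only [Real.rpow_one] using this
  have hfin := le_of_tendsto' hl hbd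
  have e1 : ∫ θ in (0:ℝ)..(2 * Real.pi), G (circleMap 0 1 θ) * conj (k (circleMap 0 r θ)) =
      2 * (m * ∫ z in ball (0:ℂ) 1, Ph0 (dil G r) F p z) := by
    have : (m:ℂ) * ∫ z in ball (0:ℂ) 1, Ph0 (dil G r) F p z =
        ∫ z in ball (0:ℂ) 1, (dil G r z + z * deriv (dil G r) z) * conj (k z) := hEL.symm
    rw [this, hpair]
    ring
  rw [e1, norm_mul, norm_mul, Complex.norm_real, Complex.norm_ofNat, Real.norm_eq_abs]
  have := mul_le_mul_of_nonneg_left hfin (show 0 ≤ 2 * |m| by positivity)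
  linarith

end

end Pool.Agent.R253.BE
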