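import Pool.Agent.R253.BE.Disc

set_option autoImplicit false

namespace Pool.Agent.R253.BE

open Complex Metric Set Filter Topology MeasureTheory ComplexConjugate

/-- `f` is in the Bergman space `A^p` for the measure `μ` (a multiple of the area of the disc) -/
def InA (μ : Measure ℂ) (p : ℝ) (f : ℂ → ℂ) : Prop :=
  DifferentiableOn ℂ f (ball 0 1) ∧ Integrable (fun z => ‖f z‖ ^ p) μ

/-- the norm of `A^p` -/
noncomputable def nA (μ : Measure ℂ) (p : ℝ) (f : ℂ → ℂ) : ℝ := (∫ z, ‖f z‖ ^ p ∂μ) ^ (1 / p)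

/-- the functional with kernel `k` -/
noncomputable def phi (μ : Measure ℂ) (k f : ℂ → ℂ) : ℂ := ∫ z, f z * conj (k z) ∂μ

/-- `F` is the extremal function for the kernel `k` -/
def IsExt (μ : Measure ℂ) (p : ℝ) (k F : ℂ → ℂ) : Prop :=
  InA μ p F ∧ nA μ p F = 1 ∧ ∀ f, InA μ p f → nA μ p f = 1 → (phi μ k f).re ≤ (phi μ k F).re

/-- what we use about the measure -/
structure Good (μ : Measure ℂ) : Prop where
  fin : IsFiniteMeasure μ
  meas : ∀ f : ℂ → ℂ, ContinuousOn f (ball 0 1) → AEStronglyMeasurable f μ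
  ae : ∀ᵐ z ∂μ, z ∈ ball (0:ℂ) 1

lemma add_rpow_le {a b e : ℝ} (ha : 0 ≤ a) (hb : 0 ≤ b) (he : 0 ≤ e) :
    (a + b) ^ e ≤ 2 ^ e * (a ^ e + b ^ e) := by
  have h1 : a + b ≤ 2 * max a b := by
    have := le_max_left a b
    have := le_max_right a b
    linarith
  have h2 : (a + b) ^ e ≤ (2 * max a b) ^ e := Real.rpow_le_rpow (by positivity) h1 he
  rw [Real.mul_rpow (by norm_num) (by positivity)] at h2
  refine h2.trans ?_
  apply mul_le_mul_of_nonneg_left _ (by positivity)
  have h3 : 0 ≤ a ^ e := by positivity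
  have h4 : 0 ≤ b ^ e := by positivity
  rcases le_total a b with h | h
  · rw [max_eq_right h]; linarith
  · rw [max_eq_left h]; linarith

section

variable {μ : Measure ℂ} (hμ : Good μ)
include hμ

lemma meas_rpow {f : ℂ → ℂ} (hf : ContinuousOn f (ball 0 1)) {e : ℝ} (he : 0 ≤ e) :
    AEStronglyMeasurable (fun z => ‖f z‖ ^ e) μ :=
  (Real.continuous_rpow_const he).comp_aestronglyMeasurable (hμ.meas f hf).norm

/-- adding a bounded function -/
lemma int_add {f g : ℂ → ℂ} (hf : ContinuousOn f (ball 0 1)) {e : ℝ} (he : 0 ≤ e)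
    (hi : Integrable (fun z => ‖f z‖ ^ e) μ) (hg : ContinuousOn g (ball 0 1)) {M : ℝ}
    (hM : ∀ z ∈ ball (0:ℂ) 1, ‖g z‖ ≤ M) : Integrable (fun z => ‖f z + g z‖ ^ e) μ := by
  have := hμ.fin
  apply Integrable.mono' (g := fun z => 2 ^ e * (‖f z‖ ^ e + |M| ^ e))
  · exact (hi.add (integrable_const _)).const_mul _
  · exact meas_rpow hμ (hf.add hg) he
  · filter_upwards [hμ.ae] with z hz
    rw [Real.norm_eq_abs, abs_of_nonneg (by positivity)]
    have h1 : ‖f z + g z‖ ≤ ‖f z‖ + |M| :=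
      (norm_add_le _ _).trans (add_le_add le_rfl ((hM z hz).trans (le_abs_self M)))
    exact (Real.rpow_le_rpow (norm_nonneg _) h1 he).trans
      (add_rpow_le (norm_nonneg _) (abs_nonneg _) he)

lemma int_kernel {p q : ℝ} (hpq : p.HolderConjugate q) {f k : ℂ → ℂ} (hf : InA μ p f)
    (hk : InA μ q k) : Integrable (fun z => f z * conj (k z)) μ := by
  have hp := hpq.pos
  have hq := hpq.symm.pos
  apply Integrable.mono' (g := fun z => ‖f z‖ ^ p / p + ‖k z‖ ^ q / q)
  · exact (hf.2.div_const _).add (hk.2.div_const _)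
  · apply AEStronglyMeasurable.mul (hμ.meas _ hf.1.continuousOn)
    exact Complex.continuous_conj.comp_aestronglyMeasurable (hμ.meas _ hk.1.continuousOn)
  · apply Eventually.of_forall
    intro z
    rw [norm_mul, RCLike.norm_conj]
    exact Real.young_inequality_of_nonneg (norm_nonneg _) (norm_nonneg _) hpq

lemma inA_bdd {g : ℂ → ℂ} (hg : DifferentiableOn ℂ g (ball 0 1)) {M : ℝ}
    (hM : ∀ z ∈ ball (0:ℂ) 1, ‖g z‖ ≤ M) {p : ℝ} (hp : 0 < p) : InA μ p g := by
  refine ⟨hg, ?_⟩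
  have := hμ.fin
  have h0 : Integrable (fun z => ‖(fun _ => (0:ℂ)) z‖ ^ p) μ := by
    simp [Real.zero_rpow hp.ne']
  have := int_add hμ (f := fun _ => (0:ℂ)) continuousOn_const hp.le h0 hg.continuousOn hM
  simpa using this

/-- derivative of `∫ |F + t g|^p` at `0` -/
lemma deriv_h {p : ℝ} (hp : 1 < p) {F g : ℂ → ℂ} (hF : InA μ p F)
    (hg : DifferentiableOn ℂ g (ball 0 1)) {M : ℝ} (hM : ∀ z ∈ ball (0:ℂ) 1, ‖g z‖ ≤ M) :
    HasDerivAt (fun t : ℝ => ∫ z, ‖F z + t * g z‖ ^ p ∂μ)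
      (∫ z, p * ‖F z‖ ^ (p - 2) * (conj (F z) * g z).re ∂μ) 0 := by
  have hfin := hμ.fin
  have hp0 : 0 < p := by linarith
  have hM0 : 0 ≤ M := (norm_nonneg _).trans (hM 0 zero_mem_ball)
  have hder : ∀ z : ℂ, ∀ t : ℝ, HasDerivAt (fun t : ℝ => ‖F z + t * g z‖ ^ p)
      (p * ‖F z + t * g z‖ ^ (p - 2) * (conj (F z + t * g z) * g z).re) t := by
    intro z t
    have h1 : HasDerivAt (fun t : ℝ => F z + t * g z) (g z) t := by
      have := ((Complex.ofRealCLM.hasDerivAt (x := t)).mul_const (g z)).const_add (F z)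
      simpa using this
    have h2 := (hasFDerivAt_norm_rpow (F z + t * g z) hp).comp_hasDerivAt t h1
    have e : p * ‖F z + t * g z‖ ^ (p - 2) * (conj (F z + t * g z) * g z).re =
        ((p * ‖F z + t * g z‖ ^ (p - 2)) • innerSL ℝ (F z + t * g z)) (g z) := by
      rw [ContinuousLinearMap.smul_apply, innerSL_apply_apply, Complex.inner, smul_eq_mul, mul_comm (g z)]
    rw [e]
    exact h2
  have key := hasDerivAt_integral_of_dominated_loc_of_deriv_le (μ := μ) (x₀ := (0:ℝ))
    (s := ball (0:ℝ) 1) (F := fun (t : ℝ) z => ‖F z + t * g z‖ ^ p)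
    (F' := fun (t : ℝ) z => p * ‖F z + t * g z‖ ^ (p - 2) * (conj (F z + t * g z) * g z).re)
    (bound := fun z => p * (2 ^ p * (‖F z‖ ^ p + (M + 1) ^ p)) * M) (ball_mem_nhds _ one_pos)
    ?_ ?_ ?_ ?_ ?_ ?_
  · have h := key.2
    simpa using h
  · apply Eventually.of_forall
    intro t
    apply meas_rpow hμ _ hp0.le
    exact hF.1.continuousOn.add (continuousOn_const.mul hg.continuousOn)
  · simpa using hF.2
  · have h1 : AEStronglyMeasurable (fun z => ‖F z‖ ^ (p - 2)) μ := by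
      have h2 : AEMeasurable (fun z => ‖F z‖) μ :=
        (hμ.meas F hF.1.continuousOn).norm.aemeasurable
      exact (h2.pow_const (p - 2)).aestronglyMeasurable
    have h3 : AEStronglyMeasurable (fun z => (conj (F z) * g z).re) μ := by
      apply Complex.continuous_re.comp_aestronglyMeasurable
      exact (Complex.continuous_conj.comp_aestronglyMeasurable (hμ.meas F hF.1.continuousOn)).mul
        (hμ.meas g hg.continuousOn)
    have h4 : AEStronglyMeasurable (fun z => p * ‖F z‖ ^ (p - 2) * (conj (F z) * g z).re) μ :=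
      (h1.const_mul p).mul h3
    have e : (fun z => p * ‖F z + ((0:ℝ):ℂ) * g z‖ ^ (p - 2) *
        (conj (F z + ((0:ℝ):ℂ) * g z) * g z).re) =
        fun z => p * ‖F z‖ ^ (p - 2) * (conj (F z) * g z).re := by
      ext z
      rw [Complex.ofReal_zero, zero_mul, add_zero]
    rw [e]
    exact h4
  · filter_upwards [hμ.ae] with z hz
    intro t ht
    have ht1 : |t| < 1 := by simpa using ht
    set x := F z + t * g z with hx
    have hxle : ‖x‖ ≤ ‖F z‖ + (M + 1) := by
      refine (norm_add_le _ _).trans ?_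
      rw [norm_mul, Complex.norm_real, Real.norm_eq_abs]
      have h1 : |t| * ‖g z‖ ≤ 1 * M := mul_le_mul ht1.le (hM z hz) (norm_nonneg _) zero_le_one
      linarith
    rw [norm_mul, norm_mul, Real.norm_eq_abs, Real.norm_eq_abs, Real.norm_eq_abs, abs_of_pos hp0,
      abs_of_nonneg (by positivity)]
    have h1 : |(conj x * g z).re| ≤ ‖x‖ * M := by
      refine (Complex.abs_re_le_norm _).trans ?_
      rw [norm_mul, RCLike.norm_conj]
      exact mul_le_mul_of_nonneg_left (hM z hz) (norm_nonneg _)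
    have h2 : ‖x‖ ^ (p - 2) * (‖x‖ * M) ≤ 2 ^ p * (‖F z‖ ^ p + (M + 1) ^ p) * M := by
      rw [← mul_assoc]
      apply mul_le_mul_of_nonneg_right _ hM0
      rcases eq_or_ne x 0 with h0 | h0
      · rw [h0, norm_zero, mul_zero]; positivity
      · have hx0 : 0 < ‖x‖ := norm_pos_iff.2 h0
        have e : ‖x‖ ^ (p - 2) * ‖x‖ = ‖x‖ ^ (p - 1) := by
          rw [← Real.rpow_add_one hx0.ne']; congr 1; ring
        rw [e]
        calc ‖x‖ ^ (p - 1) ≤ (‖F z‖ + (M + 1)) ^ (p - 1) :=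
              Real.rpow_le_rpow hx0.le hxle (by linarith)
          _ ≤ (‖F z‖ + (M + 1)) ^ p :=
              Real.rpow_le_rpow_of_exponent_le (by have := norm_nonneg (F z); linarith) (by linarith)
          _ ≤ _ := add_rpow_le (norm_nonneg _) (by linarith) hp0.le
    calc p * ‖x‖ ^ (p - 2) * |(conj x * g z).re| ≤ p * ‖x‖ ^ (p - 2) * (‖x‖ * M) :=
          mul_le_mul_of_nonneg_left h1 (by positivity)
      _ = p * (‖x‖ ^ (p - 2) * (‖x‖ * M)) := by ring
      _ ≤ p * (2 ^ p * (‖F z‖ ^ p + (M + 1) ^ p) * M) := mul_le_mul_of_nonneg_left h2 hp0.le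
      _ = _ := by ring
  · exact (((hF.2.add (integrable_const _)).const_mul _).const_mul _).mul_const _
  · exact Eventually.of_forall fun z t _ => hder z t

/-- the extremality relation, real form -/
lemma EL_re {p q : ℝ} (hpq : p.HolderConjugate q) {k F : ℂ → ℂ} (hk : InA μ q k)
    (hF : IsExt μ p k F) {g : ℂ → ℂ} (hg : DifferentiableOn ℂ g (ball 0 1)) {M : ℝ}
    (hM : ∀ z ∈ ball (0:ℂ) 1, ‖g z‖ ≤ M) :
    (phi μ k g).re = (phi μ k F).re * ∫ z, ‖F z‖ ^ (p - 2) * (conj (F z) * g z).re ∂μ := by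
  have hfin := hμ.fin
  have hp := hpq.lt
  have hp0 : 0 < p := hpq.pos
  obtain ⟨hFA, hFn, hFe⟩ := hF
  set m : ℝ := (phi μ k F).re with hm
  have hneg : ∀ f : ℂ → ℂ, phi μ k (fun z => -f z) = -phi μ k f := by
    intro f; unfold phi
    rw [← integral_neg]
    congr 1; ext z; ring
  have hm0 : 0 ≤ m := by
    have h1 := hFe (fun z => -F z) ⟨hFA.1.neg, by simpa using hFA.2⟩ (by
      unfold nA at hFn ⊢; simpa using hFn)
    rw [hneg, Complex.neg_re] at h1
    linarith
  have hFint : ∫ z, ‖F z‖ ^ p ∂μ = 1 := by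
    have h0 : 0 ≤ ∫ z, ‖F z‖ ^ p ∂μ := integral_nonneg fun z => by positivity
    have h1 : ((∫ z, ‖F z‖ ^ p ∂μ) ^ (1 / p)) ^ p = 1 := by
      have : (∫ z, ‖F z‖ ^ p ∂μ) ^ (1 / p) = 1 := hFn
      rw [this, Real.one_rpow]
    rw [← Real.rpow_mul h0, one_div, inv_mul_cancel₀ hp0.ne', Real.rpow_one] at h1
    exact h1
  set h : ℝ → ℝ := fun t => ∫ z, ‖F z + t * g z‖ ^ p ∂μ with hh
  have hh0 : h 0 = 1 := by simp only [hh]; simpa using hFint
  have hnn : ∀ t, 0 ≤ h t := fun t => integral_nonneg fun z => by positivity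
  have hgA : InA μ p g := inA_bdd hμ hg hM hp0
  have hmem : ∀ t : ℝ, InA μ p (fun z => F z + t * g z) := by
    intro t
    refine ⟨hFA.1.add (hg.const_mul _), ?_⟩
    apply int_add hμ (g := fun z => (t:ℂ) * g z) hFA.1.continuousOn hp0.le hFA.2
      (continuousOn_const.mul hg.continuousOn) (M := |t| * M)
    intro z hz
    rw [norm_mul, Complex.norm_real, Real.norm_eq_abs]
    exact mul_le_mul_of_nonneg_left (hM z hz) (abs_nonneg t)
  have hphi : ∀ t : ℝ, phi μ k (fun z => F z + t * g z) = phi μ k F + t * phi μ k g := by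
    intro t
    unfold phi
    rw [← integral_const_mul, ← integral_add (int_kernel hμ hpq hFA hk)
      ((int_kernel hμ hpq hgA hk).const_mul _)]
    congr 1; ext z; ring
  have hineq : ∀ t : ℝ, m + t * (phi μ k g).re ≤ m * (h t) ^ (1 / p) := by
    intro t
    have e1 : m + t * (phi μ k g).re = (phi μ k (fun z => F z + t * g z)).re := by
      rw [hphi, Complex.add_re, Complex.re_ofReal_mul]
    rw [e1]
    set f : ℂ → ℂ := fun z => F z + t * g z with hf
    rcases eq_or_lt_of_le (hnn t) with h0 | h0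
    · have h1 : (fun z => ‖f z‖ ^ p) =ᵐ[μ] 0 :=
        (integral_eq_zero_iff_of_nonneg (fun z => by simp only [Pi.zero_apply]; positivity)
          (hmem t).2).1 h0.symm
      have h2 : phi μ k f = 0 := by
        unfold phi
        apply integral_eq_zero_of_ae
        filter_upwards [h1] with z hz
        simp only [Pi.zero_apply] at hz ⊢
        have := (Real.rpow_eq_zero (norm_nonneg _) hp0.ne').1 hz
        rw [norm_eq_zero.1 this, zero_mul]
      rw [h2, ← h0, Real.zero_rpow (by positivity), mul_zero, Complex.zero_re]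
    · set N : ℝ := (h t) ^ (1 / p) with hN
      have hN0 : 0 < N := Real.rpow_pos_of_pos h0 _
      have hNp : N ^ p = h t := by
        rw [hN, ← Real.rpow_mul (hnn t), one_div, inv_mul_cancel₀ hp0.ne', Real.rpow_one]
      have e3 : ∀ z, ‖((N⁻¹ : ℝ) : ℂ) * f z‖ ^ p = (h t)⁻¹ * ‖f z‖ ^ p := by
        intro z
        rw [norm_mul, Complex.norm_real, Real.norm_eq_abs, abs_of_pos (inv_pos.2 hN0),
          Real.mul_rpow (inv_pos.2 hN0).le (norm_nonneg _), Real.inv_rpow hN0.le, hNp]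
      have h1 := hFe (fun z => ((N⁻¹ : ℝ) : ℂ) * f z) ⟨(hmem t).1.const_mul _, by
        simp only [e3]; exact (hmem t).2.const_mul _⟩ (by
        unfold nA
        simp only [e3]
        rw [integral_const_mul]
        have : ∫ z, ‖f z‖ ^ p ∂μ = h t := rfl
        rw [this, inv_mul_cancel₀ h0.ne', Real.one_rpow])
      have e4 : phi μ k (fun z => ((N⁻¹ : ℝ) : ℂ) * f z) = ((N⁻¹ : ℝ) : ℂ) * phi μ k f := by
        unfold phi
        rw [← integral_const_mul]
        congr 1; ext z; ring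
      rw [e4, Complex.re_ofReal_mul] at h1
      have h2 := mul_le_mul_of_nonneg_left h1 hN0.le
      rw [← mul_assoc, mul_inv_cancel₀ hN0.ne', one_mul] at h2
      linarith
  have hB : ∀ t : ℝ, 0 ≤ m / p * (h t - 1) - t * (phi μ k g).re := by
    intro t
    have h1 := rpow_one_add_le_one_add_mul_self (s := h t - 1) (p := 1 / p)
      (by have := hnn t; linarith) (by positivity) (by rw [div_le_one hp0]; exact hp.le)
    rw [add_sub_cancel] at h1
    have h2 := mul_le_mul_of_nonneg_left h1 hm0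
    have h3 := hineq t
    have e : m * (1 + 1 / p * (h t - 1)) = m + m / p * (h t - 1) := by ring
    rw [e] at h2
    linarith
  have hd := deriv_h hμ hp hFA hg hM
  have hd2 : HasDerivAt (fun t => m / p * (h t - 1) - t * (phi μ k g).re)
      (m / p * (∫ z, p * ‖F z‖ ^ (p - 2) * (conj (F z) * g z).re ∂μ) - 1 * (phi μ k g).re) 0 :=
    ((hd.sub_const 1).const_mul _).sub ((hasDerivAt_id 0).mul_const _)
  have hmin : IsLocalMin (fun t => m / p * (h t - 1) - t * (phi μ k g).re) 0 := by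
    apply Eventually.of_forall
    intro t
    simp only [hh0, sub_self, mul_zero, zero_mul]
    exact hB t
  have h0 := hmin.hasDerivAt_eq_zero hd2
  have e5 : ∫ z, p * ‖F z‖ ^ (p - 2) * (conj (F z) * g z).re ∂μ =
      p * ∫ z, ‖F z‖ ^ (p - 2) * (conj (F z) * g z).re ∂μ := by
    rw [← integral_const_mul]
    congr 1; ext z; ring
  rw [e5] at h0
  have e6 : m / p * (p * ∫ z, ‖F z‖ ^ (p - 2) * (conj (F z) * g z).re ∂μ) =
      m * ∫ z, ‖F z‖ ^ (p - 2) * (conj (F z) * g z).re ∂μ := by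
    field_simp
  rw [e6] at h0
  linarith

lemma int_psi {p : ℝ} (hp : 1 < p) {F g : ℂ → ℂ} (hF : InA μ p F)
    (hg : ContinuousOn g (ball 0 1)) {M : ℝ} (hM : ∀ z ∈ ball (0:ℂ) 1, ‖g z‖ ≤ M) :
    Integrable (fun z => (g z * ((‖F z‖ ^ (p - 2) : ℝ) : ℂ)) * conj (F z)) μ := by
  have hfin := hμ.fin
  have hp0 : 0 < p := by linarith
  have hM0 : 0 ≤ M := (norm_nonneg _).trans (hM 0 zero_mem_ball)
  apply Integrable.mono' (g := fun z => M * (2 ^ p * (‖F z‖ ^ p + 1 ^ p)))
  · exact ((hF.2.add (integrable_const _)).const_mul _).const_mul _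
  · have h2 : AEMeasurable (fun z => ‖F z‖) μ := (hμ.meas F hF.1.continuousOn).norm.aemeasurable
    have h1 : AEStronglyMeasurable (fun z => ‖F z‖ ^ (p - 2)) μ :=
      (h2.pow_const (p - 2)).aestronglyMeasurable
    exact ((hμ.meas g hg).mul (Complex.continuous_ofReal.comp_aestronglyMeasurable h1)).mul
      (Complex.continuous_conj.comp_aestronglyMeasurable (hμ.meas F hF.1.continuousOn))
  · filter_upwards [hμ.ae] with z hz
    rw [norm_mul, norm_mul, RCLike.norm_conj, Complex.norm_real, Real.norm_eq_abs,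
      abs_of_nonneg (by positivity), mul_assoc]
    apply mul_le_mul (hM z hz) _ (by positivity) hM0
    rcases eq_or_ne (F z) 0 with h0 | h0
    · rw [h0, norm_zero, mul_zero]; positivity
    · have hx0 : 0 < ‖F z‖ := norm_pos_iff.2 h0
      have e : ‖F z‖ ^ (p - 2) * ‖F z‖ = ‖F z‖ ^ (p - 1) := by
        rw [← Real.rpow_add_one hx0.ne']; congr 1; ring
      rw [e]
      calc ‖F z‖ ^ (p - 1) ≤ (‖F z‖ + 1) ^ (p - 1) :=
            Real.rpow_le_rpow hx0.le (by linarith) (by linarith)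
        _ ≤ (‖F z‖ + 1) ^ p :=
            Real.rpow_le_rpow_of_exponent_le (by linarith) (by linarith)
        _ ≤ _ := add_rpow_le (norm_nonneg _) zero_le_one hp0.le

/-- the extremality relation -/
theorem EL {p q : ℝ} (hpq : p.HolderConjugate q) {k F : ℂ → ℂ} (hk : InA μ q k)
    (hF : IsExt μ p k F) {g : ℂ → ℂ} (hg : DifferentiableOn ℂ g (ball 0 1)) {M : ℝ}
    (hM : ∀ z ∈ ball (0:ℂ) 1, ‖g z‖ ≤ M) :
    phi μ k g = (phi μ k F).re * ∫ z, (g z * ((‖F z‖ ^ (p - 2) : ℝ) : ℂ)) * conj (F z) ∂μ := by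
  have hp := hpq.lt
  have hint := int_psi hμ hp hF.1 hg.continuousOn hM
  have hgA : InA μ p g := inA_bdd hμ hg hM hpq.pos
  have h1 := EL_re hμ hpq hk hF hg hM
  have h2 := EL_re hμ hpq hk hF (g := fun z => -I * g z) (hg.const_mul _) (M := M) (by
    intro z hz; rw [norm_mul, norm_neg, Complex.norm_I, one_mul]; exact hM z hz)
  have e1 : phi μ k (fun z => -I * g z) = -I * phi μ k g := by
    unfold phi
    rw [← integral_const_mul]
    congr 1; ext z; ring
  have e2 : (-I * phi μ k g).re = (phi μ k g).im := by simp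
  rw [e1, e2] at h2
  have e3 : ∀ z, ‖F z‖ ^ (p - 2) * (conj (F z) * g z).re =
      ((g z * ((‖F z‖ ^ (p - 2) : ℝ) : ℂ)) * conj (F z)).re := by
    intro z
    rw [show (g z * ((‖F z‖ ^ (p - 2) : ℝ) : ℂ)) * conj (F z) =
      ((‖F z‖ ^ (p - 2) : ℝ) : ℂ) * (conj (F z) * g z) by ring, Complex.re_ofReal_mul]
  have e4 : ∀ z, ‖F z‖ ^ (p - 2) * (conj (F z) * (-I * g z)).re =
      ((g z * ((‖F z‖ ^ (p - 2) : ℝ) : ℂ)) * conj (F z)).im := by
    intro z
    rw [show (g z * ((‖F z‖ ^ (p - 2) : ℝ) : ℂ)) * conj (F z) =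
      ((‖F z‖ ^ (p - 2) : ℝ) : ℂ) * (conj (F z) * g z) by ring, Complex.im_ofReal_mul,
      show conj (F z) * (-I * g z) = -I * (conj (F z) * g z) by ring]
    congr 1
    simp
  simp only [e3] at h1
  simp only [e4] at h2
  have e5 := integral_re_add_im hint
  apply Complex.ext
  · rw [h1, Complex.re_ofReal_mul]
    congr 1
    exact integral_re hint
  · rw [h2, Complex.im_ofReal_mul]
    congr 1
    exact integral_im hint

end

end Pool.Agent.R253.BE
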