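import Pool.Agent.R253.BE.Dom

set_option autoImplicit false

namespace Pool.Agent.R253.BE

open Complex Metric Set Filter Topology MeasureTheory ComplexConjugate

/-- comparison of derivatives on `(-∞,0)` with zero limits at `-∞` -/
lemma fence {f f' : ℝ → ℂ} {b b' : ℝ → ℝ} (hf : ∀ τ < 0, HasDerivAt f (f' τ) τ)
    (hb : ∀ τ < 0, HasDerivAt b (b' τ) τ) (hle : ∀ τ < 0, ‖f' τ‖ ≤ b' τ)
    (tf : Tendsto f atBot (𝓝 0)) (tb : Tendsto b atBot (𝓝 0)) : ∀ τ < 0, ‖f τ‖ ≤ b τ := by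
  intro τ hτ
  have h1 : ∀ τ₀ < τ, ‖f τ‖ ≤ b τ - b τ₀ + ‖f τ₀‖ := by
    intro τ₀ h0
    have h2 : ∀ x ∈ Icc τ₀ τ, x < 0 := fun x hx => lt_of_le_of_lt hx.2 hτ
    have hB : ∀ x ∈ Icc τ₀ τ, HasDerivAt (fun x => b x - b τ₀ + ‖f τ₀‖) (b' x) x := fun x hx =>
      ((hb x (h2 x hx)).sub_const _).add_const _
    exact image_norm_le_of_norm_deriv_right_le_deriv_boundary' (f := f)
      (f' := f') (B := fun x => b x - b τ₀ + ‖f τ₀‖) (B' := b')
      (fun x hx => (hf x (h2 x hx)).continuousAt.continuousWithinAt)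
      (fun x hx => (hf x (h2 x ⟨hx.1, hx.2.le⟩)).hasDerivWithinAt)
      (by simp) (fun x hx => (hB x hx).continuousAt.continuousWithinAt)
      (fun x hx => (hB x ⟨hx.1, hx.2.le⟩).hasDerivWithinAt)
      (fun x hx => hle x (h2 x ⟨hx.1, hx.2.le⟩)) ⟨h0.le, le_rfl⟩
  have h4 : Tendsto (fun τ₀ => b τ - b τ₀ + ‖f τ₀‖) atBot (𝓝 (b τ - 0 + ‖(0:ℂ)‖)) :=
    (tendsto_const_nhds.sub tb).add tf.norm
  rw [norm_zero, sub_zero, add_zero] at h4
  exact ge_of_tendsto h4 ((eventually_lt_atBot τ).mono h1)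

/-- real mean -/
noncomputable def mr (u : ℂ → ℝ) (τ : ℝ) : ℝ := ∫ t in (0:ℝ)..(2 * Real.pi), u (τ + t * I)

lemma mn_ofReal (u : ℂ → ℝ) (τ : ℝ) : mn (fun w => (u w : ℂ)) τ = (mr u τ : ℂ) :=
  intervalIntegral.integral_ofReal

lemma norm_mn_le (V : ℂ → ℂ) (τ : ℝ) : ‖mn V τ‖ ≤ mr (fun w => ‖V w‖) τ :=
  intervalIntegral.norm_integral_le_integral_norm (by positivity)

lemma cont_line' {V : ℂ → ℝ} (h : ContinuousOn V Lh) {τ : ℝ} (hτ : τ < 0) :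
    Continuous fun t : ℝ => V (τ + t * I) := by
  apply h.comp_continuous (by fun_prop)
  intro t; exact mem_Lh hτ t

lemma mr_mono {u v : ℂ → ℝ} (hu : ContinuousOn u Lh) (hv : ContinuousOn v Lh)
    (h : ∀ w ∈ Lh, u w ≤ v w) {τ : ℝ} (hτ : τ < 0) : mr u τ ≤ mr v τ := by
  apply intervalIntegral.integral_mono_on (by positivity) ((cont_line' hu hτ).intervalIntegrable _ _)
    ((cont_line' hv hτ).intervalIntegrable _ _)
  intro t _
  exact h _ (mem_Lh hτ t)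

lemma mr_const_mul (c : ℝ) (u : ℂ → ℝ) (τ : ℝ) : mr (fun w => c * u w) τ = c * mr u τ :=
  intervalIntegral.integral_const_mul _ _

/-- the filter `Re w → -∞` -/
def bot' : Filter ℂ := comap Complex.re atBot

lemma mn_tendsto {V : ℂ → ℂ} {v : ℂ} (hV : ContinuousOn V Lh) (h : Tendsto V bot' (𝓝 v)) :
    Tendsto (mn V) atBot (𝓝 (2 * Real.pi * v)) := by
  rw [Metric.tendsto_nhds]
  intro ε hε
  have hπ := Real.pi_pos
  have h1 : ∀ᶠ w in bot', dist (V w) v < ε / (4 * Real.pi) :=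
    (Metric.tendsto_nhds.1 h) _ (by positivity)
  rw [bot', eventually_comap] at h1
  filter_upwards [h1, eventually_lt_atBot 0] with τ hτ hτ0
  have e1 : mn V τ - 2 * Real.pi * v = ∫ t in (0:ℝ)..(2 * Real.pi), (V (τ + t * I) - v) := by
    rw [intervalIntegral.integral_sub ((cont_line hV hτ0).intervalIntegrable _ _)
      intervalIntegrable_const]
    simp [mn]
  rw [dist_eq_norm, e1]
  have h2 : ‖∫ t in (0:ℝ)..(2 * Real.pi), (V (τ + t * I) - v)‖ ≤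
      ε / (4 * Real.pi) * |2 * Real.pi - 0| := by
    apply intervalIntegral.norm_integral_le_of_norm_le_const
    intro t _
    rw [← dist_eq_norm]
    exact (hτ _ (by simp)).le
  refine h2.trans_lt ?_
  rw [sub_zero, abs_of_pos (by positivity)]
  have : ε / (4 * Real.pi) * (2 * Real.pi) = ε / 2 := by field_simp; ring
  rw [this]; linarith

lemma mr_tendsto {u : ℂ → ℝ} {v : ℝ} (hV : ContinuousOn u Lh) (h : Tendsto u bot' (𝓝 v)) :
    Tendsto (mr u) atBot (𝓝 (2 * Real.pi * v)) := by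
  have h1 := mn_tendsto (V := fun w => (u w : ℂ)) (v := (v:ℂ))
    (Complex.continuous_ofReal.comp_continuousOn hV)
    ((Complex.continuous_ofReal.tendsto v).comp h)
  have h2 := (Complex.continuous_re.tendsto _).comp h1
  have e : (2 * (Real.pi : ℂ) * (v : ℂ)).re = 2 * Real.pi * v := by
    rw [show (2 * (Real.pi : ℂ) * (v : ℂ)) = ((2 * Real.pi * v : ℝ) : ℂ) by push_cast; ring,
      Complex.ofReal_re]
  rw [e] at h2
  refine h2.congr fun τ => ?_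
  simp only [Function.comp_apply]
  rw [mn_ofReal, Complex.ofReal_re]

/-- a positive function with its Wirtinger derivative and Laplacian -/
structure Pk (u : ℂ → ℝ) (K : ℂ → ℂ) (L : ℂ → ℝ) : Prop where
  wu : Wir (fun w => (u w : ℂ)) K (fun w => conj (K w))
  wK : ∃ K1, Wir K K1 (fun w => (L w : ℂ))
  tK : Tendsto K bot' (𝓝 0)
  tu : ∃ u0, Tendsto u bot' (𝓝 u0)

lemma Pk.cu {u : ℂ → ℝ} {K : ℂ → ℂ} {L : ℂ → ℝ} (h : Pk u K L) : ContinuousOn u Lh := by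
  have := Complex.continuous_re.comp_continuousOn h.wu.c0
  exact this

lemma Pk.cK {u : ℂ → ℝ} {K : ℂ → ℂ} {L : ℂ → ℝ} (h : Pk u K L) : ContinuousOn K Lh := h.wu.c1

lemma Pk.cL {u : ℂ → ℝ} {K : ℂ → ℂ} {L : ℂ → ℝ} (h : Pk u K L) : ContinuousOn L Lh := by
  obtain ⟨K1, h1⟩ := h.wK
  have := Complex.continuous_re.comp_continuousOn h1.c2
  exact this

lemma Wir.add {V V1 V2 W W1 W2 : ℂ → ℂ} (h : Wir V V1 V2) (h' : Wir W W1 W2) :
    Wir (fun w => V w + W w) (fun w => V1 w + W1 w) (fun w => V2 w + W2 w) where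
  c0 := h.c0.add h'.c0
  c1 := h.c1.add h'.c1
  c2 := h.c2.add h'.c2
  per := fun w hw => by rw [h.per w hw, h'.per w hw]
  der := fun w hw => WD.add (h.der w hw) (h'.der w hw)

lemma Wir.smul {V V1 V2 : ℂ → ℂ} (h : Wir V V1 V2) (c : ℂ) :
    Wir (fun w => c * V w) (fun w => c * V1 w) (fun w => c * V2 w) where
  c0 := continuousOn_const.mul h.c0
  c1 := continuousOn_const.mul h.c1
  c2 := continuousOn_const.mul h.c2
  per := fun w hw => by rw [h.per w hw]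
  der := fun w hw e => by
    have := (h.der w hw e).const_mul c
    have e2 : c * V1 w * e + c * V2 w * conj e = c * (V1 w * e + V2 w * conj e) := by ring
    rw [e2]
    exact this

lemma Pk.add {u : ℂ → ℝ} {K : ℂ → ℂ} {L : ℂ → ℝ} (h : Pk u K L) {u' : ℂ → ℝ} {K' : ℂ → ℂ}
    {L' : ℂ → ℝ} (h' : Pk u' K' L') :
    Pk (fun w => u w + u' w) (fun w => K w + K' w) (fun w => L w + L' w) where
  wu := by
    have := h.wu.add h'.wu
    simpa only [Complex.ofReal_add, map_add] using this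
  wK := by
    obtain ⟨K1, h1⟩ := h.wK
    obtain ⟨K1', h1'⟩ := h'.wK
    exact ⟨_, by simpa only [Complex.ofReal_add] using h1.add h1'⟩
  tK := by have := h.tK.add h'.tK; rwa [add_zero] at this
  tu := by
    obtain ⟨a, ha⟩ := h.tu
    obtain ⟨a', ha'⟩ := h'.tu
    exact ⟨_, ha.add ha'⟩

lemma Pk.smul {u : ℂ → ℝ} {K : ℂ → ℂ} {L : ℂ → ℝ} (h : Pk u K L) (c : ℝ) :
    Pk (fun w => c * u w) (fun w => c * K w) (fun w => c * L w) where
  wu := by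
    have := h.wu.smul (c : ℂ)
    simpa only [Complex.ofReal_mul, map_mul, Complex.conj_ofReal] using this
  wK := by
    obtain ⟨K1, h1⟩ := h.wK
    exact ⟨_, by simpa only [Complex.ofReal_mul] using h1.smul (c : ℂ)⟩
  tK := by have := h.tK.const_mul (c : ℂ); rwa [mul_zero] at this
  tu := by
    obtain ⟨a, ha⟩ := h.tu
    exact ⟨_, ha.const_mul c⟩

/-- derivative of the real mean -/
lemma Pk.der_u {u : ℂ → ℝ} {K : ℂ → ℂ} {L : ℂ → ℝ} (h : Pk u K L) {τ : ℝ} (hτ : τ < 0) :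
    HasDerivAt (mr u) (2 * (mn K τ).re) τ := by
  have h1 := Complex.reCLM.hasFDerivAt.comp_hasDerivAt τ (h.wu.hasDerivAt_mn hτ)
  rw [← h.wu.mn_eq hτ] at h1
  have e2 : 2 * (mn K τ).re = Complex.reCLM (2 * mn K τ) := by simp
  rw [e2]
  refine h1.congr_of_eventuallyEq (Eventually.of_forall fun s => ?_)
  simp only [Function.comp_apply, Complex.reCLM_apply]
  rw [mn_ofReal, Complex.ofReal_re]

lemma Pk.der_K {u : ℂ → ℝ} {K : ℂ → ℂ} {L : ℂ → ℝ} (h : Pk u K L) {τ : ℝ} (hτ : τ < 0) :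
    HasDerivAt (fun τ => (mn K τ).re) (2 * mr L τ) τ := by
  obtain ⟨K1, h1⟩ := h.wK
  have h2 := Complex.reCLM.hasFDerivAt.comp_hasDerivAt τ (h1.hasDerivAt_mn hτ)
  rw [mn_ofReal] at h2
  have e2 : 2 * mr L τ = Complex.reCLM (2 * (mr L τ : ℂ)) := by
    simp [Complex.reCLM_apply, Complex.mul_re]
  rw [e2]
  exact h2

lemma Pk.lim_K {u : ℂ → ℝ} {K : ℂ → ℂ} {L : ℂ → ℝ} (h : Pk u K L) :
    Tendsto (fun τ => (mn K τ).re) atBot (𝓝 0) := by
  have h1 := mn_tendsto h.cK h.tK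
  rw [mul_zero] at h1
  have h2 := (Complex.continuous_re.tendsto _).comp h1
  rw [Complex.zero_re] at h2
  exact h2

/-- the mean of a function with nonnegative Laplacian is monotone -/
lemma Pk.mono {u : ℂ → ℝ} {K : ℂ → ℂ} {L : ℂ → ℝ} (h : Pk u K L) (hL : ∀ w ∈ Lh, 0 ≤ L w)
    {τ₁ τ₂ : ℝ} (h12 : τ₁ ≤ τ₂) (h2 : τ₂ < 0) : mr u τ₁ ≤ mr u τ₂ := by
  have hK : ∀ τ < 0, 0 ≤ (mn K τ).re := by
    have := fence (f := fun _ => 0) (f' := fun _ => 0) (b := fun τ => (mn K τ).re)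
      (b' := fun τ => 2 * mr L τ) (fun τ _ => hasDerivAt_const τ 0) (fun τ hτ => h.der_K hτ)
      (fun τ hτ => by
        rw [norm_zero]
        have : 0 ≤ mr L τ := intervalIntegral.integral_nonneg (by positivity)
          fun t _ => hL _ (mem_Lh hτ t)
        linarith) tendsto_const_nhds h.lim_K
    intro τ hτ
    simpa using this τ hτ
  have hmono : MonotoneOn (mr u) (Iio 0) := by
    apply monotoneOn_of_deriv_nonneg (convex_Iio 0)
    · intro τ hτ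
      exact (h.der_u hτ).continuousAt.continuousWithinAt
    · rw [interior_Iio]
      intro τ hτ
      exact (h.der_u hτ).differentiableAt.differentiableWithinAt
    · rw [interior_Iio]
      intro τ hτ
      rw [(h.der_u hτ).deriv]
      have := hK τ hτ
      linarith
  exact hmono (lt_of_le_of_lt h12 h2) h2 h12

/-- limits at `-∞` of the data -/
structure Lim (X : Dat) : Prop where
  tg : ∃ g0, Tendsto X.g bot' (𝓝 g0)
  tf : ∃ f0, Tendsto X.f bot' (𝓝 f0)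
  tg1 : Tendsto X.g1 bot' (𝓝 0)
  tf1 : Tendsto X.f1 bot' (𝓝 0)

namespace Dat

variable {X : Dat}

lemma tcj {V : ℂ → ℂ} {v : ℂ} (h : Tendsto V bot' (𝓝 v)) :
    Tendsto (fun w => conj (V w)) bot' (𝓝 (conj v)) :=
  (Complex.continuous_conj.tendsto v).comp h

lemma tof {V : ℂ → ℝ} {v : ℝ} (h : Tendsto V bot' (𝓝 v)) :
    Tendsto (fun w => (V w : ℂ)) bot' (𝓝 (v : ℂ)) :=
  (Complex.continuous_ofReal.tendsto v).comp h

lemma tP (h : Lim X) : ∃ P0 : ℝ, 0 < P0 ∧ Tendsto X.P bot' (𝓝 P0) := by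
  obtain ⟨g0, hg⟩ := h.tg
  have hδ := X.hδ
  exact ⟨‖g0‖ ^ 2 + X.δ, by positivity, (hg.norm.pow 2).add tendsto_const_nhds⟩

lemma tQ (h : Lim X) : ∃ Q0 : ℝ, 0 < Q0 ∧ Tendsto X.Q bot' (𝓝 Q0) := by
  obtain ⟨g0, hg⟩ := h.tf
  have hδ := X.hδ
  exact ⟨‖g0‖ ^ 2 + X.δ, by positivity, (hg.norm.pow 2).add tendsto_const_nhds⟩

lemma tPr (h : Lim X) (a : ℝ) : ∃ P0 : ℝ, Tendsto (fun w => X.P w ^ a) bot' (𝓝 P0) := by
  obtain ⟨P0, h0, h1⟩ := tP h
  exact ⟨P0 ^ a, h1.rpow_const (Or.inl h0.ne')⟩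

lemma tQr (h : Lim X) (a : ℝ) : ∃ P0 : ℝ, Tendsto (fun w => X.Q w ^ a) bot' (𝓝 P0) := by
  obtain ⟨P0, h0, h1⟩ := tQ h
  exact ⟨P0 ^ a, h1.rpow_const (Or.inl h0.ne')⟩

lemma tU (h : Lim X) (a b : ℝ) : ∃ U0 : ℝ, Tendsto (X.U a b) bot' (𝓝 U0) := by
  obtain ⟨P0, h0⟩ := tPr h a
  obtain ⟨Q0, h1⟩ := tQr h b
  exact ⟨P0 * Q0, h0.mul h1⟩

lemma tA (h : Lim X) : Tendsto X.A bot' (𝓝 0) := by
  obtain ⟨g0, hg⟩ := h.tg
  obtain ⟨P0, h0, h1⟩ := tP h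
  have := ((tcj hg).mul h.tg1).div (tof h1) (Complex.ofReal_ne_zero.2 h0.ne')
  rwa [mul_zero, zero_div] at this

lemma tB (h : Lim X) : Tendsto X.B bot' (𝓝 0) := by
  obtain ⟨g0, hg⟩ := h.tf
  obtain ⟨P0, h0, h1⟩ := tQ h
  have := ((tcj hg).mul h.tf1).div (tof h1) (Complex.ofReal_ne_zero.2 h0.ne')
  rwa [mul_zero, zero_div] at this

lemma tK (h : Lim X) (a b : ℝ) : Tendsto (X.K a b) bot' (𝓝 0) := by
  obtain ⟨U0, hU⟩ := tU h a b
  have := (tof hU).mul (((tA h).const_mul (a:ℂ)).add ((tB h).const_mul (b:ℂ)))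
  rwa [mul_zero, mul_zero, add_zero, mul_zero] at this

lemma pk (h : Lim X) (a b : ℝ) : Pk (X.U a b) (X.K a b) (X.L a b) where
  wu := X.WirU a b
  wK := ⟨_, X.WirK a b⟩
  tK := tK h a b
  tu := tU h a b

lemma tN (h : Lim X) (c : ℝ) : Tendsto (X.N c) bot' (𝓝 0) := by
  obtain ⟨g0, hg⟩ := h.tg
  obtain ⟨f0, hf⟩ := h.tf
  obtain ⟨Q0, hQ⟩ := tQr h (c - 1)
  have := (hg.mul (tof (hQ.const_mul c))).mul (h.tf1.mul ((tcj hf).mul (tcj hf)))
  rwa [zero_mul, mul_zero] at this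

lemma tS (h : Lim X) (c : ℝ) : ∃ S0, Tendsto (X.S c) bot' (𝓝 S0) := by
  obtain ⟨g0, hg⟩ := h.tg
  obtain ⟨f0, hf⟩ := h.tf
  obtain ⟨Q0, hQ⟩ := tQr h c
  exact ⟨_, (hg.mul (tof hQ)).mul (tcj hf)⟩

/-- the integrand of the area integral -/
noncomputable def T (X : Dat) (c : ℝ) (w : ℂ) : ℂ :=
  ((X.g w + X.g1 w) * ((X.Q w ^ c : ℝ) : ℂ)) * conj (X.f w)

lemma cT (X : Dat) (c : ℝ) : ContinuousOn (X.T c) Lh :=
  ((X.cg.add X.cg1).mul (X.cQrc c)).mul (cconj X.cf)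

lemma mn_N_le (h : Lim X) {u : ℂ → ℝ} {K : ℂ → ℂ} {L : ℂ → ℝ} (hp : Pk u K L) {c C : ℝ}
    (hN : ∀ w ∈ Lh, ‖X.N2 c w‖ ≤ C * L w) : ∀ τ < 0, ‖mn (X.N c) τ‖ ≤ C * (mn K τ).re := by
  apply fence (f' := fun τ => 2 * mn (X.N2 c) τ) (b' := fun τ => C * (2 * mr L τ))
  · intro τ hτ; exact (X.WirN c).hasDerivAt_mn hτ
  · intro τ hτ; exact (hp.der_K hτ).const_mul C
  · intro τ hτ
    have h1 := norm_mn_le (X.N2 c) τ
    have h2 : mr (fun w => ‖X.N2 c w‖) τ ≤ mr (fun w => C * L w) τ :=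
      mr_mono (X.cN2 c).norm (continuousOn_const.mul hp.cL) hN hτ
    rw [mr_const_mul] at h2
    rw [norm_mul, Complex.norm_ofNat]
    linarith
  · have := mn_tendsto (X.cN c) (tN h c)
    rwa [mul_zero] at this
  · have := hp.lim_K.const_mul C
    rwa [mul_zero] at this

theorem est_key (h : Lim X) {u : ℂ → ℝ} {K : ℂ → ℂ} {L : ℂ → ℝ} (hp : Pk u K L) {c C : ℝ}
    (hC : 0 ≤ C) (hN : ∀ w ∈ Lh, ‖X.N2 c w‖ ≤ C * L w) (hu : ∀ w ∈ Lh, 0 ≤ u w)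
    {j : ℝ → ℂ} (hj : ∀ τ < 0, HasDerivAt j (((Real.exp (2 * τ) : ℝ) : ℂ) * mn (X.T c) τ) τ)
    (tj : Tendsto j atBot (𝓝 0)) {τ : ℝ} (hτ : τ < 0) :
    ‖j τ - 1 / 2 * (((Real.exp (2 * τ) : ℝ) : ℂ) * mn (X.S c) τ)‖ ≤
      C / 2 * (Real.exp (2 * τ) * mr u τ) := by
  have hNle := mn_N_le h hp hN
  have hex : Tendsto (fun τ : ℝ => Real.exp (2 * τ)) atBot (𝓝 0) :=
    Real.tendsto_exp_atBot.comp (tendsto_id.const_mul_atBot (by norm_num : (0:ℝ) < 2))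
  have hexd : ∀ τ : ℝ, HasDerivAt (fun τ : ℝ => Real.exp (2 * τ)) (2 * Real.exp (2 * τ)) τ := by
    intro τ
    have := ((hasDerivAt_id τ).const_mul 2).exp
    simpa [mul_comm] using this
  refine fence (f := fun τ => j τ - 1 / 2 * (((Real.exp (2 * τ) : ℝ) : ℂ) * mn (X.S c) τ))
    (f' := fun τ => -(((Real.exp (2 * τ) : ℝ) : ℂ) * mn (X.N c) τ))
    (b := fun τ => C / 2 * (Real.exp (2 * τ) * mr u τ))
    (b' := fun τ => C / 2 * (2 * Real.exp (2 * τ) * mr u τ + Real.exp (2 * τ) * (2 * (mn K τ).re)))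
    ?_ ?_ ?_ ?_ ?_ τ hτ
  · intro τ hτ
    have h1 := (X.WirS c).hasDerivAt_mn hτ
    rw [← (X.WirS c).mn_eq hτ] at h1
    have h2 := (((hexd τ).ofReal_comp.mul h1).const_mul (1 / 2 : ℂ))
    have h3 := (hj τ hτ).sub h2
    have hsum : mn (X.S1 c) τ = mn (X.T c) τ - mn (X.S c) τ + mn (X.N c) τ := by
      have e1 : mn (X.T c) τ - mn (X.S c) τ = mn (fun w => X.T c w - X.S c w) τ :=
        (intervalIntegral.integral_sub ((cont_line (X.cT c) hτ).intervalIntegrable _ _)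
          ((cont_line (X.cS c) hτ).intervalIntegrable _ _)).symm
      have e2 : mn (fun w => X.T c w - X.S c w) τ + mn (X.N c) τ =
          mn (fun w => X.T c w - X.S c w + X.N c w) τ :=
        (intervalIntegral.integral_add
          ((cont_line ((X.cT c).sub (X.cS c)) hτ).intervalIntegrable _ _)
          ((cont_line (X.cN c) hτ).intervalIntegrable _ _)).symm
      rw [e1, e2]
      congr 1
      ext w
      unfold S1 T S
      ring
    have e : -(((Real.exp (2 * τ) : ℝ) : ℂ) * mn (X.N c) τ) =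
        ((Real.exp (2 * τ) : ℝ) : ℂ) * mn (X.T c) τ - 1 / 2 * (((2 * Real.exp (2 * τ) : ℝ) : ℂ) *
          mn (X.S c) τ + ((Real.exp (2 * τ) : ℝ) : ℂ) * (2 * mn (X.S1 c) τ)) := by
      rw [hsum]
      push_cast
      ring
    rw [e]
    exact h3
  · intro τ hτ
    exact (((hexd τ).mul (hp.der_u hτ)).const_mul _)
  · intro τ hτ
    rw [norm_neg, norm_mul, Complex.norm_real, Real.norm_eq_abs, abs_of_pos (Real.exp_pos _)]
    have h1 := mul_le_mul_of_nonneg_left (hNle τ hτ) (Real.exp_pos (2 * τ)).le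
    have h2 : 0 ≤ mr u τ := intervalIntegral.integral_nonneg (by positivity)
      fun t _ => hu _ (mem_Lh hτ t)
    have h3 : 0 ≤ C * Real.exp (2 * τ) * mr u τ := by positivity
    linarith
  · obtain ⟨S0, hS⟩ := tS h c
    have h1 := mn_tendsto (X.cS c) hS
    have h2 : Tendsto (fun τ : ℝ => ((Real.exp (2 * τ) : ℝ) : ℂ)) atBot (𝓝 ((0:ℝ) : ℂ)) :=
      (Complex.continuous_ofReal.tendsto 0).comp hex
    have h3 := tj.sub ((h2.mul h1).const_mul (1 / 2 : ℂ))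
    simpa using h3
  · obtain ⟨u0, hu0⟩ := hp.tu
    have h1 := (hex.mul (mr_tendsto hp.cu hu0)).const_mul (C / 2)
    simpa using h1

theorem est (h : Lim X) {u : ℂ → ℝ} {K : ℂ → ℂ} {L : ℂ → ℝ} (hp : Pk u K L) {c C : ℝ}
    (hC : 0 ≤ C) (hN : ∀ w ∈ Lh, ‖X.N2 c w‖ ≤ C * L w) (hu : ∀ w ∈ Lh, 0 ≤ u w)
    {j : ℝ → ℂ} (hj : ∀ τ < 0, HasDerivAt j (((Real.exp (2 * τ) : ℝ) : ℂ) * mn (X.T c) τ) τ)
    (tj : Tendsto j atBot (𝓝 0)) {τ : ℝ} (hτ : τ < 0) :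
    ‖j τ‖ ≤ 1 / 2 * Real.exp (2 * τ) * ‖mn (X.S c) τ‖ + C / 2 * Real.exp (2 * τ) * mr u τ := by
  have key := est_key h hp hC hN hu hj tj hτ
  have h1 := norm_le_norm_sub_add (j τ) (1 / 2 * (((Real.exp (2 * τ) : ℝ) : ℂ) * mn (X.S c) τ))
  have h2 : ‖1 / 2 * (((Real.exp (2 * τ) : ℝ) : ℂ) * mn (X.S c) τ)‖ =
      1 / 2 * Real.exp (2 * τ) * ‖mn (X.S c) τ‖ := by
    rw [norm_mul, norm_mul, Complex.norm_real, Real.norm_eq_abs, abs_of_pos (Real.exp_pos _)]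
    norm_num
    ring
  rw [h2] at h1
  linarith

end Dat

end Pool.Agent.R253.BE
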