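import Pool.Agent.R253.BE.Dual

set_option autoImplicit false

namespace Pool.Agent.R253.BE

open Complex Metric Set Filter Topology MeasureTheory ComplexConjugate

/-- mean value property on the unit circle -/
lemma mv {H : ℂ → ℂ} {ρ : ℝ} (hρ : 1 < ρ) (hH : DifferentiableOn ℂ H (ball 0 ρ)) :
    ∫ θ in (0:ℝ)..(2 * Real.pi), H (circleMap 0 1 θ) = 2 * Real.pi * H 0 := by
  have hsub : closedBall (0:ℂ) 1 ⊆ ball 0 ρ := closedBall_subset_ball hρ
  have h := Complex.circleIntegral_sub_center_inv_smul_of_differentiable_on_off_countable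
    (R := 1) one_pos (f := H) (c := 0) countable_empty (hH.continuousOn.mono hsub) (by
      intro z hz
      exact hH.differentiableAt (isOpen_ball.mem_nhds (hsub (ball_subset_closedBall hz.1))))
  have e : (∮ z in C(0, 1), (z - 0)⁻¹ • H z) = I * ∫ θ in (0:ℝ)..(2 * Real.pi), H (circleMap 0 1 θ) := by
    unfold circleIntegral
    rw [← intervalIntegral.integral_const_mul]
    congr 1
    ext θ
    have hne : circleMap 0 1 θ ≠ 0 := circleMap_ne_center one_ne_zero
    simp only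
    rw [deriv_circleMap, sub_zero, smul_eq_mul, smul_eq_mul]
    field_simp
  rw [e, smul_eq_mul] at h
  apply mul_left_cancel₀ I_ne_zero
  rw [h]; ring

lemma dil_diff'' {k : ℂ → ℂ} (hk : DifferentiableOn ℂ k (ball 0 1)) {r : ℝ} (h0 : 0 < r) :
    DifferentiableOn ℂ (dil k r) (ball 0 (1 / r)) := by
  intro z hz
  rw [mem_ball_zero_iff] at hz
  have hmem : (r:ℂ) * z ∈ ball (0:ℂ) 1 := by
    rw [mem_ball_zero_iff, norm_mul, Complex.norm_real, Real.norm_eq_abs, abs_of_pos h0]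
    rw [lt_div_iff₀ h0] at hz
    linarith
  have h2 : DifferentiableAt ℂ k (r * z) := hk.differentiableAt (isOpen_ball.mem_nhds hmem)
  have h3 : DifferentiableAt ℂ (fun z : ℂ => (r:ℂ) * z) z := by fun_prop
  exact (DifferentiableAt.comp z h2 h3).differentiableWithinAt

/-- the Poisson kernel -/
noncomputable def pz (a : ℂ) (θ : ℝ) : ℝ := (1 - ‖a‖ ^ 2) / ‖circleMap 0 1 θ - a‖ ^ 2

lemma circ_norm (θ : ℝ) : ‖circleMap 0 1 θ‖ = 1 := by simp

lemma circ_ne {a : ℂ} (ha : ‖a‖ < 1) (θ : ℝ) : circleMap 0 1 θ - a ≠ 0 := by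
  intro h
  have := sub_eq_zero.1 h
  have h2 := circ_norm θ
  rw [this] at h2
  linarith

lemma pz_pos {a : ℂ} (ha : ‖a‖ < 1) (θ : ℝ) : 0 < pz a θ := by
  unfold pz
  have h1 : 0 < ‖circleMap 0 1 θ - a‖ := norm_pos_iff.2 (circ_ne ha θ)
  have h2 : 0 < 1 - ‖a‖ ^ 2 := by nlinarith [norm_nonneg a]
  positivity

lemma pz_cont {a : ℂ} (ha : ‖a‖ < 1) : Continuous (pz a) := by
  unfold pz
  apply continuous_const.div
  · have := continuous_circleMap (0:ℂ) 1
    fun_prop
  · intro θ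
    exact pow_ne_zero 2 (norm_pos_iff.2 (circ_ne ha θ)).ne'

lemma conj_id {a z : ℂ} (hz : ‖z‖ = 1) : 1 - conj a * z = z * conj (z - a) := by
  have h1 : z * conj z = 1 := by
    rw [Complex.mul_conj', hz]; norm_num
  rw [map_sub, mul_sub, h1]; ring

lemma one_sub_ne {a z : ℂ} {ρ : ℝ} (ha : ‖a‖ < 1) (hρ : ρ ≤ 2 / (1 + ‖a‖)) (hz : ‖z‖ < ρ) :
    1 - conj a * z ≠ 0 := by
  intro h
  have h1 : conj a * z = 1 := (sub_eq_zero.1 h).symm
  have h2 : ‖a‖ * ‖z‖ = 1 := by
    rw [← RCLike.norm_conj a, ← norm_mul, h1, norm_one]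
  have h3 : ‖z‖ < 2 / (1 + ‖a‖) := hz.trans_le hρ
  rw [lt_div_iff₀ (by positivity)] at h3
  nlinarith [norm_nonneg a, norm_nonneg z]

lemma pz_int {a : ℂ} (ha : ‖a‖ < 1) : ∫ θ in (0:ℝ)..(2 * Real.pi), pz a θ = 2 * Real.pi := by
  have hρ : 1 < 2 / (1 + ‖a‖) := by
    rw [lt_div_iff₀ (by positivity)]; linarith
  set H : ℂ → ℂ := fun z => (1 + conj a * z) / (1 - conj a * z) with hH
  have hd : DifferentiableOn ℂ H (ball 0 (2 / (1 + ‖a‖))) := by
    intro z hz
    rw [mem_ball_zero_iff] at hz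
    have hne := one_sub_ne ha le_rfl hz
    have h1 : DifferentiableAt ℂ (fun z : ℂ => 1 + conj a * z) z := by fun_prop
    have h2 : DifferentiableAt ℂ (fun z : ℂ => 1 - conj a * z) z := by fun_prop
    have : DifferentiableAt ℂ H z := h1.div h2 hne
    exact this.differentiableWithinAt
  have h := mv hρ hd
  have hH0 : H 0 = 1 := by simp [hH]
  rw [hH0, mul_one] at h
  have h2 := congrArg Complex.re h
  have hc : Continuous fun θ : ℝ => H (circleMap 0 1 θ) := cont_circ hd.continuousOn zero_le_one hρ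
  have e1 : (∫ θ in (0:ℝ)..(2 * Real.pi), H (circleMap 0 1 θ)).re =
      ∫ θ in (0:ℝ)..(2 * Real.pi), (H (circleMap 0 1 θ)).re := by
    have := Complex.reCLM.intervalIntegral_comp_comm (hc.intervalIntegrable (μ := volume) 0 (2 * Real.pi))
    exact this.symm
  rw [e1] at h2
  have e2 : (2 * (Real.pi : ℂ)).re = 2 * Real.pi := by simp
  rw [e2] at h2
  rw [← h2]
  congr 1
  ext θ
  set z := circleMap 0 1 θ with hz
  have hz1 : ‖z‖ = 1 := circ_norm θ
  have hne := circ_ne ha θ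
  rw [← hz] at hne
  unfold pz
  rw [← hz]
  simp only [hH]
  have hz0 : z ≠ 0 := by intro h0; rw [h0, norm_zero] at hz1; norm_num at hz1
  have hcne : conj (z - a) ≠ 0 := (map_ne_zero _).2 hne
  have e3 : (1 + conj a * z) / (1 - conj a * z) =
      (((1 - ‖a‖ ^ 2) / ‖z - a‖ ^ 2 : ℝ) : ℂ) +
        (conj a * z - conj (conj a * z)) / ((‖z - a‖ ^ 2 : ℝ) : ℂ) := by
    have h4 : ((‖z - a‖ ^ 2 : ℝ) : ℂ) = (z - a) * conj (z - a) := by
      rw [Complex.mul_conj']; push_cast; rfl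
    have h5 : ((1 - ‖a‖ ^ 2 : ℝ) : ℂ) = 1 - conj a * a := by
      rw [Complex.conj_mul']; push_cast; rfl
    rw [Complex.ofReal_div, h4, h5, conj_id hz1]
    have h6 : z * conj z = 1 := by rw [Complex.mul_conj', hz1]; norm_num
    rw [map_mul, conj_conj]
    have h7 : conj z = z⁻¹ := by field_simp; rw [mul_comm]; exact h6
    rw [map_sub, h7] at hcne ⊢
    field_simp
    ring
  rw [e3, Complex.add_re, Complex.ofReal_re]
  have h8 : ((conj a * z - conj (conj a * z)) / ((‖z - a‖ ^ 2 : ℝ) : ℂ)).re = 0 := by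
    rw [Complex.div_ofReal_re]
    simp
  rw [h8, add_zero]

/-- the Garsia type estimate from the duality estimate -/
theorem garsia {k : ℂ → ℂ} (hk : DifferentiableOn ℂ k (ball 0 1)) {C : ℝ} (hC0 : 0 ≤ C)
    (hΛ : ∀ ρ : ℝ, 1 < ρ → ∀ G : ℂ → ℂ, DifferentiableOn ℂ G (ball 0 ρ) → ∀ r : ℝ, 0 < r → r < 1 →
      ‖∫ θ in (0:ℝ)..(2 * Real.pi), G (circleMap 0 1 θ) * conj (k (circleMap 0 r θ))‖ ≤
        C * ∫ θ in (0:ℝ)..(2 * Real.pi), ‖G (circleMap 0 1 θ)‖)
    {r : ℝ} (h0 : 0 < r) (h1 : r < 1) {a : ℂ} (ha : ‖a‖ < 1) :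
    ∫ θ in (0:ℝ)..(2 * Real.pi), pz a θ * ‖k (circleMap 0 r θ) - k (r * a)‖ ^ 2 ≤
      2 * Real.pi * C ^ 2 := by
  set ρ : ℝ := min (1 / r) (2 / (1 + ‖a‖)) with hρd
  have hρ : 1 < ρ := by
    rw [hρd, lt_min_iff]
    refine ⟨by rw [lt_div_iff₀ h0]; linarith, by rw [lt_div_iff₀ (by positivity)]; linarith⟩
  set K : ℂ → ℂ := dil k r with hK
  have hKd : DifferentiableOn ℂ K (ball 0 ρ) :=
    (dil_diff'' hk h0).mono (ball_subset_ball (min_le_left _ _))
  have haρ : a ∈ ball (0:ℂ) ρ := by rw [mem_ball_zero_iff]; linarith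
  have hDd : DifferentiableOn ℂ (dslope K a) (ball 0 ρ) :=
    (Complex.differentiableOn_dslope (isOpen_ball.mem_nhds haρ)).2 hKd
  set G : ℂ → ℂ := fun z => z * (((1 - ‖a‖ ^ 2 : ℝ) : ℂ) / (1 - conj a * z)) * dslope K a z with hG
  have hGd : DifferentiableOn ℂ G (ball 0 ρ) := by
    apply DifferentiableOn.mul _ hDd
    intro z hz
    rw [mem_ball_zero_iff] at hz
    have hne := one_sub_ne ha (min_le_right _ _) hz
    apply DifferentiableAt.differentiableWithinAt
    apply differentiableAt_id.mul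
    exact (differentiableAt_const _).div (by fun_prop) hne
  have hGc : ∀ θ : ℝ, G (circleMap 0 1 θ) = (pz a θ : ℂ) * (k (circleMap 0 r θ) - k (r * a)) := by
    intro θ
    have hne := circ_ne ha θ
    have hz1 := circ_norm θ
    have hKc : K (circleMap 0 1 θ) = k (circleMap 0 r θ) := by
      rw [hK, dil_circle, mul_one]
    have hKa : K a = k (r * a) := rfl
    simp only [hG]
    rw [dslope_of_ne _ (sub_ne_zero.1 hne), slope_def_field, hKc, hKa, conj_id hz1]
    unfold pz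
    set z := circleMap 0 1 θ with hz
    have hz0 : z ≠ 0 := by intro h0; rw [h0, norm_zero] at hz1; norm_num at hz1
    have hcne : conj (z - a) ≠ 0 := (map_ne_zero _).2 hne
    have h4 : ((‖z - a‖ ^ 2 : ℝ) : ℂ) = (z - a) * conj (z - a) := by
      rw [Complex.mul_conj']; push_cast; rfl
    rw [Complex.ofReal_div, h4]
    field_simp
  have hmv : ∫ θ in (0:ℝ)..(2 * Real.pi), G (circleMap 0 1 θ) = 0 := by
    rw [mv hρ hGd]; simp [hG]
  have hGcont : Continuous fun θ : ℝ => G (circleMap 0 1 θ) := cont_circ hGd.continuousOn zero_le_one hρ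
  have hkc : Continuous fun θ : ℝ => k (circleMap 0 r θ) := cont_circ hk.continuousOn h0.le h1
  set J : ℝ := ∫ θ in (0:ℝ)..(2 * Real.pi), pz a θ * ‖k (circleMap 0 r θ) - k (r * a)‖ ^ 2 with hJ
  have hpc := pz_cont ha
  have hJ0 : 0 ≤ J := by
    apply intervalIntegral.integral_nonneg (by positivity)
    intro θ _
    have := pz_pos ha θ
    positivity
  have e1 : ∫ θ in (0:ℝ)..(2 * Real.pi), G (circleMap 0 1 θ) * conj (k (circleMap 0 r θ)) = (J : ℂ) := by
    have e2 : ∀ θ : ℝ, G (circleMap 0 1 θ) * conj (k (circleMap 0 r θ)) =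
        ((pz a θ * ‖k (circleMap 0 r θ) - k (r * a)‖ ^ 2 : ℝ) : ℂ) +
          conj (k (r * a)) * G (circleMap 0 1 θ) := by
      intro θ
      rw [hGc]
      have h5 : ((‖k (circleMap 0 r θ) - k (r * a)‖ ^ 2 : ℝ) : ℂ) =
          (k (circleMap 0 r θ) - k (r * a)) * conj (k (circleMap 0 r θ) - k (r * a)) := by
        rw [Complex.mul_conj']; push_cast; rfl
      rw [Complex.ofReal_mul, h5, map_sub]
      ring
    have hc1 : Continuous fun θ : ℝ =>
        ((pz a θ * ‖k (circleMap 0 r θ) - k (r * a)‖ ^ 2 : ℝ) : ℂ) :=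
      Complex.continuous_ofReal.comp (hpc.mul ((hkc.sub continuous_const).norm.pow 2))
    have hc2 : Continuous fun θ : ℝ => conj (k (r * a)) * G (circleMap 0 1 θ) :=
      continuous_const.mul hGcont
    simp only [e2]
    rw [intervalIntegral.integral_add (hc1.intervalIntegrable _ _)
      (hc2.intervalIntegrable _ _), intervalIntegral.integral_const_mul,
      hmv, mul_zero, add_zero, intervalIntegral.integral_ofReal]
  have h := hΛ ρ hρ G hGd r h0 h1
  rw [e1, Complex.norm_real, Real.norm_eq_abs, abs_of_nonneg hJ0] at h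
  have h3 : C * ∫ θ in (0:ℝ)..(2 * Real.pi), ‖G (circleMap 0 1 θ)‖ ≤ J / 2 + Real.pi * C ^ 2 := by
    rw [← intervalIntegral.integral_const_mul]
    have e3 : J / 2 + Real.pi * C ^ 2 = ∫ θ in (0:ℝ)..(2 * Real.pi),
        (1 / 2 * (pz a θ * ‖k (circleMap 0 r θ) - k (r * a)‖ ^ 2) + C ^ 2 / 2 * pz a θ) := by
      have hc3 : Continuous fun θ : ℝ => 1 / 2 * (pz a θ * ‖k (circleMap 0 r θ) - k (r * a)‖ ^ 2) :=
        continuous_const.mul (hpc.mul ((hkc.sub continuous_const).norm.pow 2))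
      have hc4 : Continuous fun θ : ℝ => C ^ 2 / 2 * pz a θ := continuous_const.mul hpc
      rw [intervalIntegral.integral_add (hc3.intervalIntegrable _ _)
        (hc4.intervalIntegrable _ _), intervalIntegral.integral_const_mul,
        intervalIntegral.integral_const_mul, pz_int ha, ← hJ]
      ring
    rw [e3]
    apply intervalIntegral.integral_mono_on (by positivity)
    · exact (continuous_const.mul hGcont.norm).intervalIntegrable _ _
    · apply Continuous.intervalIntegrable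
      exact (continuous_const.mul (hpc.mul ((hkc.sub continuous_const).norm.pow 2))).add
        (continuous_const.mul hpc)
    · intro θ _
      rw [hGc, norm_mul, Complex.norm_real, Real.norm_eq_abs, abs_of_pos (pz_pos ha θ)]
      have := pz_pos ha θ
      nlinarith [sq_nonneg (‖k (circleMap 0 r θ) - k (r * a)‖ - C)]
  linarith

end Pool.Agent.R253.BE
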