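import Pool.Agent.R253.BE.Garsia
import Pool.Agent.R253.BE.DRiesz

set_option autoImplicit false

namespace Pool.Agent.R253.BE

open Complex Metric Set Filter Topology MeasureTheory ComplexConjugate

/-- M. Riesz theorem for trigonometric polynomials -/
theorem mriesz {q : ℝ} (hq : 1 < q) : ∃ C : ℝ, 0 < C ∧ ∀ (n : ℕ) (c : ℕ → ℂ) (N : ℕ), N ≤ n →
    ∫ θ in (0:ℝ)..(2 * Real.pi), ‖∑ j ∈ Finset.range N, c j * exp (I * (j * θ))‖ ^ q ≤
      C * ∫ θ in (0:ℝ)..(2 * Real.pi), ‖∑ j ∈ Finset.range n, c j * exp (I * (j * θ))‖ ^ q := by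
  obtain ⟨C, hC, h⟩ := DR.t_riesz q hq
  refine ⟨C, hC, fun n c N hN => ?_⟩
  have hq0 : 0 < q := by linarith
  rcases Nat.eq_zero_or_pos n with hn | hn
  · subst hn
    have : N = 0 := by omega
    subst this
    simp [Real.zero_rpow hq0.ne']
  set A : ℕ → ℝ → ℝ := fun M θ => ‖∑ j ∈ Finset.range M, c j * exp (I * (j * θ))‖ ^ q with hA
  have hAc : ∀ M, Continuous (A M) := by
    intro M
    simp only [hA]
    apply Continuous.rpow_const _ fun θ => Or.inr hq0.le
    fun_prop
  have hAp : ∀ M, Function.Periodic (A M) (2 * Real.pi) := by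
    intro M θ
    simp only [hA]
    congr 2
    apply Finset.sum_congr rfl
    intro j _
    congr 1
    rw [Complex.exp_eq_exp_iff_exists_int]
    refine ⟨j, ?_⟩
    push_cast
    ring
  have hshift : ∀ M (a : ℝ), ∫ θ in (0:ℝ)..(2 * Real.pi), A M (θ + a) =
      ∫ θ in (0:ℝ)..(2 * Real.pi), A M θ := by
    intro M a
    rw [intervalIntegral.integral_comp_add_right (fun x => A M x) a]
    have := (hAp M).intervalIntegral_add_eq a 0
    rw [zero_add] at this
    rw [zero_add, add_comm (2 * Real.pi) a]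
    exact this
  have hpt : ∀ θ : ℝ, ∑ D ∈ Finset.range n, A N (θ + 2 * Real.pi * D / n) ≤
      C * ∑ D ∈ Finset.range n, A n (θ + 2 * Real.pi * D / n) := by
    intro θ
    have h1 := h n (fun j => c j * exp (I * (j * θ))) N hN
    have e : ∀ M (D : ℕ), ‖∑ j ∈ Finset.range M, c j * exp (I * (j * θ)) *
        Complex.exp (Complex.I * (2 * Real.pi * j * D / n))‖ ^ q = A M (θ + 2 * Real.pi * D / n) := by
      intro M D
      simp only [hA]
      congr 2
      apply Finset.sum_congr rfl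
      intro j _
      rw [mul_assoc, ← Complex.exp_add]
      congr 2
      push_cast
      ring
    simp only [e] at h1
    exact h1
  have hint : ∀ M, ∫ θ in (0:ℝ)..(2 * Real.pi), ∑ D ∈ Finset.range n,
      A M (θ + 2 * Real.pi * D / n) = n * ∫ θ in (0:ℝ)..(2 * Real.pi), A M θ := by
    intro M
    rw [intervalIntegral.integral_finsetSum]
    · simp only [hshift]
      rw [Finset.sum_const, Finset.card_range, nsmul_eq_mul]
    · intro D _
      exact ((hAc M).comp (by fun_prop : Continuous fun θ : ℝ => θ + 2 * Real.pi * D / n)).intervalIntegrable _ _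
  have hmono : ∫ θ in (0:ℝ)..(2 * Real.pi), ∑ D ∈ Finset.range n, A N (θ + 2 * Real.pi * D / n) ≤
      ∫ θ in (0:ℝ)..(2 * Real.pi), C * ∑ D ∈ Finset.range n, A n (θ + 2 * Real.pi * D / n) := by
    have hcs : ∀ M, Continuous fun θ : ℝ => ∑ D ∈ Finset.range n, A M (θ + 2 * Real.pi * D / n) := by
      intro M
      apply continuous_finsetSum
      intro D _
      exact (hAc M).comp (by fun_prop : Continuous fun θ : ℝ => θ + 2 * Real.pi * D / n)
    apply intervalIntegral.integral_mono_on (by positivity) ((hcs N).intervalIntegrable _ _)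
      ((continuous_const.mul (hcs n)).intervalIntegrable _ _)
    intro θ _
    exact hpt θ
  rw [intervalIntegral.integral_const_mul, hint, hint] at hmono
  have hn' : (0:ℝ) < n := by exact_mod_cast hn
  have h2 : (n:ℝ) * ∫ θ in (0:ℝ)..(2 * Real.pi), A N θ ≤
      n * (C * ∫ θ in (0:ℝ)..(2 * Real.pi), A n θ) := by linarith
  exact le_of_mul_le_mul_left h2 hn'

/-- a trigonometric polynomial of degree `M` -/
noncomputable def tp (M : ℕ) (a : ℕ → ℂ) (θ : ℝ) : ℂ :=
  ∑ j ∈ Finset.range (M + (M + 1)), a j * exp (I * (((j : ℂ) - M) * θ))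

/-- its analytic part -/
noncomputable def gp (M : ℕ) (a : ℕ → ℂ) (z : ℂ) : ℂ := ∑ m ∈ Finset.range (M + 1), a (M + m) * z ^ m

lemma tp_cont (M : ℕ) (a : ℕ → ℂ) : Continuous (tp M a) := by
  unfold tp; fun_prop

lemma gp_diff (M : ℕ) (a : ℕ → ℂ) : Differentiable ℂ (gp M a) := by
  unfold gp; fun_prop

lemma circ_pow (m : ℕ) (θ : ℝ) : (circleMap 0 1 θ) ^ m = exp (I * ((m:ℂ) * θ)) := by
  simp only [circleMap, zero_add, Complex.ofReal_one, one_mul]
  rw [← Complex.exp_nat_mul]
  congr 1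
  ring

lemma tp_split (M : ℕ) (a : ℕ → ℂ) (θ : ℝ) :
    tp M a θ = (∑ j ∈ Finset.range M, a j * exp (I * (((j : ℂ) - M) * θ))) + gp M a (circleMap 0 1 θ) := by
  unfold tp gp
  rw [Finset.sum_range_add]
  congr 1
  apply Finset.sum_congr rfl
  intro m _
  rw [circ_pow]
  congr 3
  push_cast
  ring

theorem proj {q : ℝ} (hq : 1 < q) : ∃ C : ℝ, 0 ≤ C ∧ ∀ (M : ℕ) (a : ℕ → ℂ),
    ∫ θ in (0:ℝ)..(2 * Real.pi), ‖gp M a (circleMap 0 1 θ)‖ ^ q ≤
      C * ∫ θ in (0:ℝ)..(2 * Real.pi), ‖tp M a θ‖ ^ q := by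
  obtain ⟨C, hC, h⟩ := mriesz hq
  have hq0 : 0 < q := by linarith
  refine ⟨2 ^ q * (1 + C), by positivity, fun M a => ?_⟩
  have h1 := h (M + (M + 1)) a M (by omega)
  set P : ℕ → ℝ → ℂ := fun N θ => ∑ j ∈ Finset.range N, a j * exp (I * (j * θ)) with hP
  have hPc : ∀ N, Continuous (P N) := by intro N; simp only [hP]; fun_prop
  have e1 : ∀ θ : ℝ, P (M + (M + 1)) θ = exp (I * (M * θ)) * tp M a θ := by
    intro θ
    simp only [hP]
    unfold tp
    rw [Finset.mul_sum]
    apply Finset.sum_congr rfl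
    intro j _
    rw [show exp (I * (M * θ)) * (a j * exp (I * (((j : ℂ) - M) * θ))) =
      a j * (exp (I * (M * θ)) * exp (I * (((j : ℂ) - M) * θ))) by ring, ← Complex.exp_add]
    congr 2
    ring
  have e2 : ∀ θ : ℝ, exp (I * (M * θ)) * gp M a (circleMap 0 1 θ) = P (M + (M + 1)) θ - P M θ := by
    intro θ
    simp only [hP]
    rw [Finset.sum_range_add, add_sub_cancel_left]
    unfold gp
    rw [Finset.mul_sum]
    apply Finset.sum_congr rfl
    intro j _
    rw [circ_pow, show exp (I * (M * θ)) * (a (M + j) * exp (I * ((j:ℂ) * θ))) =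
      a (M + j) * (exp (I * (M * θ)) * exp (I * ((j:ℂ) * θ))) by ring, ← Complex.exp_add]
    congr 2
    push_cast
    ring
  have hne : ∀ θ : ℝ, ‖exp (I * (M * θ))‖ = 1 := by
    intro θ
    rw [show I * ((M:ℂ) * θ) = (((M:ℝ) * θ : ℝ) : ℂ) * I by push_cast; ring]
    exact Complex.norm_exp_ofReal_mul_I _
  have n1 : ∀ θ : ℝ, ‖P (M + (M + 1)) θ‖ = ‖tp M a θ‖ := by
    intro θ; rw [e1, norm_mul, hne, one_mul]
  have n2 : ∀ θ : ℝ, ‖gp M a (circleMap 0 1 θ)‖ ≤ ‖tp M a θ‖ + ‖P M θ‖ := by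
    intro θ
    have : ‖gp M a (circleMap 0 1 θ)‖ = ‖P (M + (M + 1)) θ - P M θ‖ := by
      rw [← e2, norm_mul, hne, one_mul]
    rw [this, ← n1]
    exact norm_sub_le _ _
  have hT : Continuous fun θ : ℝ => ‖tp M a θ‖ ^ q :=
    (tp_cont M a).norm.rpow_const fun θ => Or.inr hq0.le
  have hPM : Continuous fun θ : ℝ => ‖P M θ‖ ^ q := (hPc M).norm.rpow_const fun θ => Or.inr hq0.le
  have hG : Continuous fun θ : ℝ => ‖gp M a (circleMap 0 1 θ)‖ ^ q :=
    (((gp_diff M a).continuous.comp (continuous_circleMap 0 1)).norm).rpow_const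
      fun θ => Or.inr hq0.le
  have h2 : ∫ θ in (0:ℝ)..(2 * Real.pi), ‖gp M a (circleMap 0 1 θ)‖ ^ q ≤
      ∫ θ in (0:ℝ)..(2 * Real.pi), 2 ^ q * (‖tp M a θ‖ ^ q + ‖P M θ‖ ^ q) := by
    apply intervalIntegral.integral_mono_on (by positivity) (hG.intervalIntegrable _ _)
      ((continuous_const.mul (hT.add hPM)).intervalIntegrable _ _)
    intro θ _
    exact (Real.rpow_le_rpow (norm_nonneg _) (n2 θ) hq0.le).trans
      (add_rpow_le (norm_nonneg _) (norm_nonneg _) hq0.le)
  rw [intervalIntegral.integral_const_mul, intervalIntegral.integral_add (hT.intervalIntegrable _ _)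
    (hPM.intervalIntegrable _ _)] at h2
  have e3 : ∀ θ : ℝ, ‖∑ j ∈ Finset.range (M + (M + 1)), a j * exp (I * (j * θ))‖ = ‖tp M a θ‖ := n1
  simp only [e3] at h1
  have h3 : ∫ θ in (0:ℝ)..(2 * Real.pi), ‖P M θ‖ ^ q ≤
      C * ∫ θ in (0:ℝ)..(2 * Real.pi), ‖tp M a θ‖ ^ q := h1
  have h4 := mul_le_mul_of_nonneg_left h3 (show (0:ℝ) ≤ 2 ^ q by positivity)
  calc _ ≤ _ := h2
    _ ≤ _ := by
      rw [mul_add, mul_assoc, add_mul, mul_add]
      linarith

/-- negative frequencies do not see an analytic function -/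
lemma neg_freq {k : ℂ → ℂ} (hk : DifferentiableOn ℂ k (ball 0 1)) {r : ℝ} (h0 : 0 < r) (h1 : r < 1)
    {m : ℕ} (hm : 0 < m) :
    ∫ θ in (0:ℝ)..(2 * Real.pi), k (circleMap 0 r θ) * exp (I * ((m:ℂ) * θ)) = 0 := by
  have hρ : 1 < 1 / r := by rw [lt_div_iff₀ h0]; linarith
  have hd : DifferentiableOn ℂ (fun z => dil k r z * z ^ m) (ball 0 (1 / r)) :=
    (dil_diff'' hk h0).mul (by fun_prop)
  have h := mv hρ hd
  rw [zero_pow hm.ne', mul_zero, mul_zero] at h
  refine Eq.trans ?_ h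
  congr 1
  ext θ
  rw [dil_circle, mul_one, circ_pow]

/-- pairing with a trigonometric polynomial only sees the analytic part -/
lemma pair_tp {k : ℂ → ℂ} (hk : DifferentiableOn ℂ k (ball 0 1)) {r : ℝ} (h0 : 0 < r) (h1 : r < 1)
    (M : ℕ) (a : ℕ → ℂ) :
    ∫ θ in (0:ℝ)..(2 * Real.pi), tp M a θ * conj (k (circleMap 0 r θ)) =
      ∫ θ in (0:ℝ)..(2 * Real.pi), gp M a (circleMap 0 1 θ) * conj (k (circleMap 0 r θ)) := by
  have hkc : Continuous fun θ : ℝ => k (circleMap 0 r θ) := cont_circ hk.continuousOn h0.le h1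
  have hkc' : Continuous fun θ : ℝ => conj (k (circleMap 0 r θ)) := Complex.continuous_conj.comp hkc
  have hgc : Continuous fun θ : ℝ => gp M a (circleMap 0 1 θ) * conj (k (circleMap 0 r θ)) :=
    ((gp_diff M a).continuous.comp (continuous_circleMap 0 1)).mul hkc'
  have hj : ∀ j : ℕ, Continuous fun θ : ℝ => a j * exp (I * (((j : ℂ) - M) * θ)) *
      conj (k (circleMap 0 r θ)) := by
    intro j
    exact (by fun_prop : Continuous fun θ : ℝ => a j * exp (I * (((j : ℂ) - M) * θ))).mul hkc'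
  have e1 : ∀ θ : ℝ, tp M a θ * conj (k (circleMap 0 r θ)) =
      (∑ j ∈ Finset.range M, a j * exp (I * (((j : ℂ) - M) * θ)) * conj (k (circleMap 0 r θ))) +
        gp M a (circleMap 0 1 θ) * conj (k (circleMap 0 r θ)) := by
    intro θ
    rw [tp_split, add_mul, Finset.sum_mul]
  have hsc : Continuous fun θ : ℝ => ∑ j ∈ Finset.range M, a j * exp (I * (((j : ℂ) - M) * θ)) *
      conj (k (circleMap 0 r θ)) := continuous_finsetSum _ fun j _ => hj j
  simp only [e1]
  rw [intervalIntegral.integral_add (hsc.intervalIntegrable _ _) (hgc.intervalIntegrable _ _),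
    intervalIntegral.integral_finsetSum fun j _ => (hj j).intervalIntegrable _ _]
  have hz : ∀ j ∈ Finset.range M, ∫ θ in (0:ℝ)..(2 * Real.pi), a j * exp (I * (((j : ℂ) - M) * θ)) *
      conj (k (circleMap 0 r θ)) = 0 := by
    intro j hj
    rw [Finset.mem_range] at hj
    have h2 := neg_freq hk h0 h1 (m := M - j) (by omega)
    have h3 : ∫ θ in (0:ℝ)..(2 * Real.pi),
        conj (k (circleMap 0 r θ) * exp (I * (((M - j : ℕ):ℂ) * θ))) = 0 := by
      rw [intervalIntegral.integral_of_le (by positivity), integral_conj,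
        ← intervalIntegral.integral_of_le (by positivity), h2, map_zero]
    have e2 : ∀ θ : ℝ, a j * exp (I * (((j : ℂ) - M) * θ)) * conj (k (circleMap 0 r θ)) =
        a j * conj (k (circleMap 0 r θ) * exp (I * (((M - j : ℕ):ℂ) * θ))) := by
      intro θ
      rw [map_mul, ← Complex.exp_conj, map_mul, map_mul, Complex.conj_I, Complex.conj_ofReal,
        Complex.conj_natCast, Nat.cast_sub hj.le]
      rw [show -I * (((M:ℂ) - j) * θ) = I * (((j:ℂ) - M) * θ) by ring]
      ring
    simp only [e2]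
    rw [intervalIntegral.integral_const_mul, h3, mul_zero]
  rw [Finset.sum_eq_zero hz, zero_add]

/-- `‖z‖^(s-2) z` is continuous for `s > 1` -/
lemma cont_pow_sgn {s : ℝ} (hs : 1 < s) : Continuous fun z : ℂ => ((‖z‖ ^ (s - 2) : ℝ) : ℂ) * z := by
  rw [continuous_iff_continuousAt]
  intro z
  rcases eq_or_ne z 0 with hz | hz
  · subst hz
    rw [ContinuousAt, mul_zero]
    apply squeeze_zero_norm' (a := fun z : ℂ => ‖z‖ ^ (s - 1))
    · apply Eventually.of_forall
      intro z
      rcases eq_or_ne z 0 with hz | hz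
      · subst hz; simp; positivity
      · have hz0 : 0 < ‖z‖ := norm_pos_iff.2 hz
        rw [norm_mul, Complex.norm_real, Real.norm_eq_abs, abs_of_nonneg (by positivity),
          ← Real.rpow_add_one hz0.ne']
        apply le_of_eq
        congr 1; ring
    · have h1 : ContinuousAt (fun z : ℂ => ‖z‖ ^ (s - 1)) 0 := by
        apply ContinuousAt.rpow_const continuous_norm.continuousAt
        right; linarith
      have h2 := h1.tendsto
      simp only [norm_zero] at h2
      rwa [Real.zero_rpow (by linarith)] at h2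
  · have h1 : ContinuousAt (fun z : ℂ => ‖z‖ ^ (s - 2)) z := by
      apply ContinuousAt.rpow_const continuous_norm.continuousAt
      left; simpa using hz
    exact (Complex.continuous_ofReal.continuousAt.comp h1).mul continuousAt_id

/-- elements of the span of the characters are trigonometric polynomials -/
lemma span_rep [hT : Fact (0 < 2 * Real.pi)] {T : C(AddCircle (2 * Real.pi), ℂ)}
    (h : T ∈ Submodule.span ℂ (range (@fourier (2 * Real.pi)))) :
    ∃ (M : ℕ) (a : ℕ → ℂ), ∀ θ : ℝ, T (θ : AddCircle (2 * Real.pi)) = tp M a θ := by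
  obtain ⟨c, hc⟩ := Finsupp.mem_span_range_iff_exists_finsupp.1 h
  set M : ℕ := c.support.sup Int.natAbs with hM
  have hsub : ∀ i ∈ c.support, i.natAbs ≤ M := fun i hi => Finset.le_sup (f := Int.natAbs) hi
  refine ⟨M, fun j => c ((j:ℤ) - M), fun θ => ?_⟩
  have e0 : T (θ : AddCircle (2 * Real.pi)) = ∑ i ∈ c.support, c i * exp (I * ((i:ℂ) * θ)) := by
    rw [← hc, Finsupp.sum, ContinuousMap.sum_apply]
    apply Finset.sum_congr rfl
    intro i _
    rw [ContinuousMap.smul_apply, smul_eq_mul, fourier_coe_apply]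
    congr 2
    have hπ : (Real.pi : ℂ) ≠ 0 := Complex.ofReal_ne_zero.2 Real.pi_ne_zero
    push_cast
    field_simp
  rw [e0]
  unfold tp
  have e1 : ∑ i ∈ c.support, c i * exp (I * ((i:ℂ) * θ)) =
      ∑ i ∈ (Finset.range (M + (M + 1))).image (fun j : ℕ => (j:ℤ) - M),
        c i * exp (I * ((i:ℂ) * θ)) := by
    apply Finset.sum_subset
    · intro i hi
      have := hsub i hi
      rw [Finset.mem_image]
      refine ⟨(i + M).toNat, ?_, ?_⟩
      · rw [Finset.mem_range]; omega
      · omega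
    · intro i _ hi
      rw [Finsupp.notMem_support_iff.1 hi, zero_mul]
  rw [e1, Finset.sum_image]
  · apply Finset.sum_congr rfl
    intro j _
    push_cast
    rfl
  · intro x _ y _ hxy
    simp only at hxy
    omega

/-- the duality estimate gives membership in the Hardy space -/
theorem hardy_of_dual {k : ℂ → ℂ} (hk : DifferentiableOn ℂ k (ball 0 1)) {s t : ℝ} (hs : 1 < s)
    (ht : 1 < t) (hst : (s - 1) * (t - 1) = 1) {C D : ℝ} (hC : 0 ≤ C)
    (hΛ : ∀ ρ : ℝ, 1 < ρ → ∀ G : ℂ → ℂ, DifferentiableOn ℂ G (ball 0 ρ) → ∀ r : ℝ, 0 < r → r < 1 →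
      ‖∫ θ in (0:ℝ)..(2 * Real.pi), G (circleMap 0 1 θ) * conj (k (circleMap 0 r θ))‖ ≤
        C * ((∫ θ in (0:ℝ)..(2 * Real.pi), ‖G (circleMap 0 1 θ)‖ ^ t) + D)) :
    ∃ B : ℝ, ∀ r : ℝ, 0 < r → r < 1 →
      ∫ θ in (0:ℝ)..(2 * Real.pi), ‖k (circleMap 0 r θ)‖ ^ s ≤ B := by
  have hT : Fact (0 < 2 * Real.pi) := ⟨Real.two_pi_pos⟩
  obtain ⟨C2, hC2, hproj⟩ := proj ht
  have ht0 : 0 < t := by linarith
  set lam : ℝ := (1 / (2 * (C * C2 + 1))) ^ (1 / (t - 1)) with hlam
  have hbase : 0 < 1 / (2 * (C * C2 + 1)) := by positivity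
  have hlam0 : 0 < lam := Real.rpow_pos_of_pos hbase _
  have hlamt : lam ^ (t - 1) = 1 / (2 * (C * C2 + 1)) := by
    rw [hlam, ← Real.rpow_mul hbase.le, one_div_mul_cancel (by linarith), Real.rpow_one]
  refine ⟨2 * C * D / lam, fun r h0 h1 => ?_⟩
  have hkc : Continuous fun θ : ℝ => k (circleMap 0 r θ) := cont_circ hk.continuousOn h0.le h1
  have hkc' : Continuous fun θ : ℝ => conj (k (circleMap 0 r θ)) := Complex.continuous_conj.comp hkc
  set J : ℝ := ∫ θ in (0:ℝ)..(2 * Real.pi), ‖k (circleMap 0 r θ)‖ ^ s with hJ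
  -- the inequality for trigonometric polynomials
  have htrig : ∀ (M : ℕ) (a : ℕ → ℂ),
      lam * ‖∫ θ in (0:ℝ)..(2 * Real.pi), tp M a θ * conj (k (circleMap 0 r θ))‖ ≤
        C * (lam ^ t * (C2 * ∫ θ in (0:ℝ)..(2 * Real.pi), ‖tp M a θ‖ ^ t) + D) := by
    intro M a
    have h2 := hΛ 2 (by norm_num) (fun z => (lam : ℂ) * gp M a z)
      (((gp_diff M a).differentiableOn).const_mul _) r h0 h1
    have e1 : ∫ θ in (0:ℝ)..(2 * Real.pi), (lam : ℂ) * gp M a (circleMap 0 1 θ) *
        conj (k (circleMap 0 r θ)) = (lam : ℂ) * ∫ θ in (0:ℝ)..(2 * Real.pi),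
          tp M a θ * conj (k (circleMap 0 r θ)) := by
      rw [pair_tp hk h0 h1, ← intervalIntegral.integral_const_mul]
      congr 1
      ext θ
      ring
    have e2 : ∫ θ in (0:ℝ)..(2 * Real.pi), ‖(lam : ℂ) * gp M a (circleMap 0 1 θ)‖ ^ t =
        lam ^ t * ∫ θ in (0:ℝ)..(2 * Real.pi), ‖gp M a (circleMap 0 1 θ)‖ ^ t := by
      rw [← intervalIntegral.integral_const_mul]
      congr 1
      ext θ
      rw [norm_mul, Complex.norm_real, Real.norm_eq_abs, abs_of_pos hlam0,
        Real.mul_rpow hlam0.le (norm_nonneg _)]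
    rw [e1, e2, norm_mul, Complex.norm_real, Real.norm_eq_abs, abs_of_pos hlam0] at h2
    refine h2.trans ?_
    apply mul_le_mul_of_nonneg_left _ hC
    have h3 := mul_le_mul_of_nonneg_left (hproj M a) (show 0 ≤ lam ^ t by positivity)
    linarith
  -- extension to continuous functions
  have hcont1 : Continuous fun T : C(AddCircle (2 * Real.pi), ℂ) =>
      ∫ θ in (0:ℝ)..(2 * Real.pi), T (θ : AddCircle (2 * Real.pi)) * conj (k (circleMap 0 r θ)) := by
    apply intervalIntegral.continuous_parametric_intervalIntegral_of_continuous'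
    apply Continuous.mul
    · exact continuous_eval.comp (continuous_fst.prodMk
        ((AddCircle.continuous_mk' (2 * Real.pi)).comp continuous_snd))
    · exact hkc'.comp continuous_snd
  have hcont2 : Continuous fun T : C(AddCircle (2 * Real.pi), ℂ) =>
      ∫ θ in (0:ℝ)..(2 * Real.pi), ‖T (θ : AddCircle (2 * Real.pi))‖ ^ t := by
    apply intervalIntegral.continuous_parametric_intervalIntegral_of_continuous'
    apply Continuous.rpow_const _ fun _ => Or.inr ht0.le
    apply Continuous.norm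
    exact continuous_eval.comp (continuous_fst.prodMk
        ((AddCircle.continuous_mk' (2 * Real.pi)).comp continuous_snd))
  have hall : ∀ T : C(AddCircle (2 * Real.pi), ℂ),
      lam * ‖∫ θ in (0:ℝ)..(2 * Real.pi), T (θ : AddCircle (2 * Real.pi)) *
        conj (k (circleMap 0 r θ))‖ ≤
        C * (lam ^ t * (C2 * ∫ θ in (0:ℝ)..(2 * Real.pi),
          ‖T (θ : AddCircle (2 * Real.pi))‖ ^ t) + D) := by
    have hclosed : IsClosed {T : C(AddCircle (2 * Real.pi), ℂ) |
        lam * ‖∫ θ in (0:ℝ)..(2 * Real.pi), T (θ : AddCircle (2 * Real.pi)) *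
        conj (k (circleMap 0 r θ))‖ ≤
        C * (lam ^ t * (C2 * ∫ θ in (0:ℝ)..(2 * Real.pi),
          ‖T (θ : AddCircle (2 * Real.pi))‖ ^ t) + D)} :=
      isClosed_le (continuous_const.mul hcont1.norm)
        (continuous_const.mul ((continuous_const.mul (continuous_const.mul hcont2)).add
          continuous_const))
    intro T
    have hmem : T ∈ (Submodule.span ℂ (range (@fourier (2 * Real.pi)))).topologicalClosure := by
      rw [span_fourier_closure_eq_top]; trivial
    have hsub : (Submodule.span ℂ (range (@fourier (2 * Real.pi))) :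
        Set (C(AddCircle (2 * Real.pi), ℂ))) ⊆ {T : C(AddCircle (2 * Real.pi), ℂ) |
        lam * ‖∫ θ in (0:ℝ)..(2 * Real.pi), T (θ : AddCircle (2 * Real.pi)) *
        conj (k (circleMap 0 r θ))‖ ≤
        C * (lam ^ t * (C2 * ∫ θ in (0:ℝ)..(2 * Real.pi),
          ‖T (θ : AddCircle (2 * Real.pi))‖ ^ t) + D)} := by
      intro S hS
      obtain ⟨M, a, hrep⟩ := span_rep hS
      simp only [mem_setOf_eq, hrep]
      exact htrig M a
    exact (closure_minimal hsub hclosed) hmem
  -- the extremal test function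
  have hH : Continuous fun x : AddCircle (2 * Real.pi) =>
      ((‖k (r * (AddCircle.toCircle x : ℂ))‖ ^ (s - 2) : ℝ) : ℂ) *
        k (r * (AddCircle.toCircle x : ℂ)) := by
    have h2 : Continuous fun x : AddCircle (2 * Real.pi) => k (r * (AddCircle.toCircle x : ℂ)) := by
      apply hk.continuousOn.comp_continuous
      · exact continuous_const.mul (continuous_subtype_val.comp AddCircle.continuous_toCircle)
      · intro x
        rw [mem_ball_zero_iff, norm_mul, Complex.norm_real, Real.norm_eq_abs, abs_of_pos h0,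
          Circle.norm_coe, mul_one]
        exact h1
    exact (cont_pow_sgn hs).comp h2
  have hfin := hall ⟨_, hH⟩
  have hcirc : ∀ θ : ℝ, (r:ℂ) * (AddCircle.toCircle (θ : AddCircle (2 * Real.pi)) : ℂ) =
      circleMap 0 r θ := by
    intro θ
    rw [AddCircle.toCircle_apply_mk, div_self Real.two_pi_pos.ne', one_mul, Circle.coe_exp]
    simp [circleMap]
  have e3 : ∀ θ : ℝ, (((‖k (circleMap 0 r θ)‖ ^ (s - 2) : ℝ) : ℂ) * k (circleMap 0 r θ)) *
      conj (k (circleMap 0 r θ)) = ((‖k (circleMap 0 r θ)‖ ^ s : ℝ) : ℂ) := by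
    intro θ
    rw [mul_assoc, Complex.mul_conj']
    rcases eq_or_ne (k (circleMap 0 r θ)) 0 with hz | hz
    · rw [hz, norm_zero, Real.zero_rpow (by linarith : s ≠ 0)]; simp
    · have hz0 : 0 < ‖k (circleMap 0 r θ)‖ := norm_pos_iff.2 hz
      rw [show ‖k (circleMap 0 r θ)‖ ^ s = ‖k (circleMap 0 r θ)‖ ^ (s - 2) *
        ‖k (circleMap 0 r θ)‖ ^ 2 by
          rw [← Real.rpow_natCast, ← Real.rpow_add hz0]; congr 1; push_cast; ring]
      push_cast
      ring
  have e4 : ∀ θ : ℝ, ‖((‖k (circleMap 0 r θ)‖ ^ (s - 2) : ℝ) : ℂ) * k (circleMap 0 r θ)‖ ^ t =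
      ‖k (circleMap 0 r θ)‖ ^ s := by
    intro θ
    rcases eq_or_ne (k (circleMap 0 r θ)) 0 with hz | hz
    · rw [hz, mul_zero, norm_zero, Real.zero_rpow ht0.ne', Real.zero_rpow (by linarith : s ≠ 0)]
    · have hz0 : 0 < ‖k (circleMap 0 r θ)‖ := norm_pos_iff.2 hz
      rw [norm_mul, Complex.norm_real, Real.norm_eq_abs, abs_of_nonneg (by positivity),
        ← Real.rpow_add_one hz0.ne', ← Real.rpow_mul hz0.le]
      congr 1
      nlinarith
  simp only [ContinuousMap.coe_mk, hcirc, e3, e4] at hfin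
  rw [intervalIntegral.integral_ofReal, Complex.norm_real, Real.norm_eq_abs, ← hJ] at hfin
  have hJ0 : 0 ≤ J := intervalIntegral.integral_nonneg (by positivity) fun θ _ => by positivity
  rw [abs_of_nonneg hJ0] at hfin
  have e5 : lam ^ t = lam * (1 / (2 * (C * C2 + 1))) := by
    rw [← hlamt, mul_comm, ← Real.rpow_add_one hlam0.ne']; congr 1; ring
  have h5 : C * (lam ^ t * (C2 * J)) ≤ lam * J / 2 := by
    rw [e5]
    have h6 : C * C2 * (1 / (2 * (C * C2 + 1))) ≤ 1 / 2 := by
      rw [mul_one_div, div_le_div_iff₀ (by positivity) (by norm_num)]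
      nlinarith
    have h7 := mul_le_mul_of_nonneg_right h6 (show 0 ≤ lam * J by positivity)
    calc _ = C * C2 * (1 / (2 * (C * C2 + 1))) * (lam * J) := by ring
      _ ≤ _ := h7
      _ = _ := by ring
  rw [le_div_iff₀ hlam0]
  rw [mul_add] at hfin
  linarith

end Pool.Agent.R253.BE
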