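import Pool.Agent.R253.BE.Mean

set_option autoImplicit false

namespace Pool.Agent.R253.BE

open Complex Metric Set Filter Topology MeasureTheory ComplexConjugate

/-- Wirtinger derivatives `v1`, `v2` of the complex function `V` at `w` -/
def WD (V : ℂ → ℂ) (v1 v2 w : ℂ) : Prop :=
  ∀ e : ℂ, HasDerivAt (fun s : ℝ => V (w + s * e)) (v1 * e + v2 * conj e) 0

/-- Wirtinger derivative `k` of the real function `p` at `w` -/
def WR (p : ℂ → ℝ) (k w : ℂ) : Prop :=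
  ∀ e : ℂ, HasDerivAt (fun s : ℝ => p (w + s * e)) (2 * (k * e).re) 0

lemma WD.holo {V : ℂ → ℂ} {v w : ℂ} (h : HasDerivAt V v w) : WD V v 0 w := by
  intro e
  have h1 : HasDerivAt (fun s : ℝ => w + s * e) e 0 := by
    have := ((Complex.ofRealCLM.hasDerivAt (x := 0)).mul_const e).const_add w
    simpa using this
  have h0 : HasDerivAt V v (w + (0:ℝ) * e) := by simpa using h
  have h2 := h0.scomp (0:ℝ) h1
  have e2 : v * e + 0 * conj e = e • v := by rw [smul_eq_mul]; ring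
  rw [e2]
  exact h2

lemma WD.const (c w : ℂ) : WD (fun _ => c) 0 0 w := WD.holo (hasDerivAt_const w c)

lemma WD.cj {V : ℂ → ℂ} {v1 v2 w : ℂ} (h : WD V v1 v2 w) :
    WD (fun z => conj (V z)) (conj v2) (conj v1) w := by
  intro e
  have h1 := (h e).star
  have e2 : conj v2 * e + conj v1 * conj e = star (v1 * e + v2 * conj e) := by
    rw [Complex.star_def, map_add, map_mul, map_mul, conj_conj]; ring
  rw [e2]
  exact h1

lemma WD.add {V W : ℂ → ℂ} {v1 v2 w1 w2 w : ℂ} (h : WD V v1 v2 w) (h' : WD W w1 w2 w) :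
    WD (fun z => V z + W z) (v1 + w1) (v2 + w2) w := by
  intro e
  have h1 := (h e).add (h' e)
  have e2 : (v1 + w1) * e + (v2 + w2) * conj e = v1 * e + v2 * conj e + (w1 * e + w2 * conj e) := by
    ring
  rw [e2]
  exact h1

lemma WD.mul {V W : ℂ → ℂ} {v1 v2 w1 w2 w : ℂ} (h : WD V v1 v2 w) (h' : WD W w1 w2 w) :
    WD (fun z => V z * W z) (v1 * W w + V w * w1) (v2 * W w + V w * w2) w := by
  intro e
  have h1 := (h e).mul (h' e)
  have e2 : (v1 * W w + V w * w1) * e + (v2 * W w + V w * w2) * conj e =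
      (v1 * e + v2 * conj e) * W (w + (0:ℝ) * e) + V (w + (0:ℝ) * e) * (w1 * e + w2 * conj e) := by
    simp only [ofReal_zero, zero_mul, add_zero]
    ring
  rw [e2]
  exact h1

lemma WR.ofReal {p : ℂ → ℝ} {k w : ℂ} (h : WR p k w) : WD (fun z => (p z : ℂ)) k (conj k) w := by
  intro e
  have h1 := (h e).ofReal_comp
  have e2 : k * e + conj k * conj e = ((2 * (k * e).re : ℝ) : ℂ) := by
    rw [← map_mul, Complex.add_conj]
  rw [e2]
  exact h1

lemma WD.re {V : ℂ → ℂ} {v w : ℂ} (h : WD V v (conj v) w) : WR (fun z => (V z).re) v w := by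
  intro e
  have h1 := Complex.reCLM.hasFDerivAt.comp_hasDerivAt (0:ℝ) (h e)
  have e2 : 2 * (v * e).re = Complex.reCLM (v * e + conj v * conj e) := by
    rw [← map_mul, Complex.add_conj]; simp
  rw [e2]
  exact h1

lemma WR.rpow {p : ℂ → ℝ} {k w : ℂ} (h : WR p k w) (hp : 0 < p w) (a : ℝ) :
    WR (fun z => p z ^ a) ((a * p w ^ (a - 1) : ℝ) * k) w := by
  intro e
  have h1 := (h e).rpow_const (p := a) (Or.inl (by simp only [ofReal_zero, zero_mul, add_zero]; exact hp.ne'))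
  have e2 : 2 * (((a * p w ^ (a - 1) : ℝ) : ℂ) * k * e).re =
      2 * (k * e).re * a * p (w + (0:ℝ) * e) ^ (a - 1) := by
    simp only [ofReal_zero, zero_mul, add_zero]
    rw [mul_assoc, Complex.re_ofReal_mul]
    ring
  rw [e2]
  exact h1

lemma WR.mul {p q : ℂ → ℝ} {k l w : ℂ} (h : WR p k w) (h' : WR q l w) :
    WR (fun z => p z * q z) (k * q w + p w * l) w := by
  intro e
  have h1 := (h e).mul (h' e)
  have e2 : 2 * ((k * q w + p w * l) * e).re =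
      2 * (k * e).re * q (w + (0:ℝ) * e) + p (w + (0:ℝ) * e) * (2 * (l * e).re) := by
    simp only [ofReal_zero, zero_mul, add_zero]
    rw [show (k * q w + p w * l) * e = (q w : ℂ) * (k * e) + (p w : ℂ) * (l * e) by ring,
      Complex.add_re, Complex.re_ofReal_mul, Complex.re_ofReal_mul]
    ring
  rw [e2]
  exact h1

/-- `‖g‖² + δ` -/
lemma WR.sq {g : ℂ → ℂ} {g' w : ℂ} (h : HasDerivAt g g' w) (δ : ℝ) :
    WR (fun z => ‖g z‖ ^ 2 + δ) (conj (g w) * g') w := by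
  have h1 := (WD.cj (WD.holo h)).mul (WD.holo h)
  have e0 : conj (0:ℂ) = 0 := map_zero _
  have h2 : WD (fun z => conj (g z) * g z) (conj (g w) * g') (conj (conj (g w) * g')) w := by
    have e1 : conj 0 * g w + conj (g w) * g' = conj (g w) * g' := by rw [e0]; ring
    have e2 : conj g' * g w + conj (g w) * 0 = conj (conj (g w) * g') := by
      rw [map_mul, conj_conj]; ring
    rw [e1, e2] at h1
    exact h1
  have h3 := h2.re
  intro e
  have h4 := (h3 e).add_const δ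
  refine h4.congr_of_eventuallyEq (Eventually.of_forall fun s => ?_)
  simp only
  congr 1
  rw [Complex.conj_mul', ← Complex.ofReal_pow, Complex.ofReal_re]

/-- data: two holomorphic functions of the logarithmic variable -/
structure Dat where
  g : ℂ → ℂ
  g1 : ℂ → ℂ
  g2 : ℂ → ℂ
  f : ℂ → ℂ
  f1 : ℂ → ℂ
  f2 : ℂ → ℂ
  hg : ∀ w ∈ Lh, HasDerivAt g (g1 w) w
  hg1 : ∀ w ∈ Lh, HasDerivAt g1 (g2 w) w
  hf : ∀ w ∈ Lh, HasDerivAt f (f1 w) w
  hf1 : ∀ w ∈ Lh, HasDerivAt f1 (f2 w) w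
  cg2 : ContinuousOn g2 Lh
  cf2 : ContinuousOn f2 Lh
  pg : ∀ w ∈ Lh, g (w + 2 * Real.pi * I) = g w
  pg1 : ∀ w ∈ Lh, g1 (w + 2 * Real.pi * I) = g1 w
  pf : ∀ w ∈ Lh, f (w + 2 * Real.pi * I) = f w
  pf1 : ∀ w ∈ Lh, f1 (w + 2 * Real.pi * I) = f1 w
  δ : ℝ
  hδ : 0 < δ

namespace Dat

variable (X : Dat)

noncomputable def P (w : ℂ) : ℝ := ‖X.g w‖ ^ 2 + X.δ
noncomputable def Q (w : ℂ) : ℝ := ‖X.f w‖ ^ 2 + X.δ
noncomputable def A (w : ℂ) : ℂ := conj (X.g w) * X.g1 w / X.P w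
noncomputable def B (w : ℂ) : ℂ := conj (X.f w) * X.f1 w / X.Q w
noncomputable def U (a b : ℝ) (w : ℂ) : ℝ := X.P w ^ a * X.Q w ^ b
noncomputable def K (a b : ℝ) (w : ℂ) : ℂ := (X.U a b w : ℂ) * (a * X.A w + b * X.B w)
noncomputable def L (a b : ℝ) (w : ℂ) : ℝ := X.U a b w * (‖(a:ℂ) * X.A w + b * X.B w‖ ^ 2 +
  a * (X.δ * ‖X.g1 w‖ ^ 2 / X.P w ^ 2) + b * (X.δ * ‖X.f1 w‖ ^ 2 / X.Q w ^ 2))

lemma P_pos (w : ℂ) : 0 < X.P w := by have := X.hδ; unfold P; positivity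
lemma Q_pos (w : ℂ) : 0 < X.Q w := by have := X.hδ; unfold Q; positivity
lemma U_pos (a b : ℝ) (w : ℂ) : 0 < X.U a b w :=
  mul_pos (Real.rpow_pos_of_pos (X.P_pos w) _) (Real.rpow_pos_of_pos (X.Q_pos w) _)

lemma cg : ContinuousOn X.g Lh := fun w hw => (X.hg w hw).continuousAt.continuousWithinAt
lemma cg1 : ContinuousOn X.g1 Lh := fun w hw => (X.hg1 w hw).continuousAt.continuousWithinAt
lemma cf : ContinuousOn X.f Lh := fun w hw => (X.hf w hw).continuousAt.continuousWithinAt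
lemma cf1 : ContinuousOn X.f1 Lh := fun w hw => (X.hf1 w hw).continuousAt.continuousWithinAt

lemma cP : ContinuousOn X.P Lh := (X.cg.norm.pow 2).add continuousOn_const
lemma cQ : ContinuousOn X.Q Lh := (X.cf.norm.pow 2).add continuousOn_const

lemma cPc : ContinuousOn (fun w => (X.P w : ℂ)) Lh := Complex.continuous_ofReal.comp_continuousOn X.cP
lemma cQc : ContinuousOn (fun w => (X.Q w : ℂ)) Lh := Complex.continuous_ofReal.comp_continuousOn X.cQ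

lemma cconj {V : ℂ → ℂ} (h : ContinuousOn V Lh) : ContinuousOn (fun w => conj (V w)) Lh :=
  Complex.continuous_conj.comp_continuousOn h

lemma P_ne (w : ℂ) : (X.P w : ℂ) ≠ 0 := Complex.ofReal_ne_zero.2 (X.P_pos w).ne'
lemma Q_ne (w : ℂ) : (X.Q w : ℂ) ≠ 0 := Complex.ofReal_ne_zero.2 (X.Q_pos w).ne'

lemma cA : ContinuousOn X.A Lh :=
  ((cconj X.cg).mul X.cg1).div X.cPc fun w _ => X.P_ne w
lemma cB : ContinuousOn X.B Lh :=
  ((cconj X.cf).mul X.cf1).div X.cQc fun w _ => X.Q_ne w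

lemma cPr (a : ℝ) : ContinuousOn (fun w => X.P w ^ a) Lh :=
  X.cP.rpow_const fun w _ => Or.inl (X.P_pos w).ne'
lemma cQr (a : ℝ) : ContinuousOn (fun w => X.Q w ^ a) Lh :=
  X.cQ.rpow_const fun w _ => Or.inl (X.Q_pos w).ne'

lemma cU (a b : ℝ) : ContinuousOn (X.U a b) Lh := (X.cPr a).mul (X.cQr b)
lemma cUc (a b : ℝ) : ContinuousOn (fun w => (X.U a b w : ℂ)) Lh :=
  Complex.continuous_ofReal.comp_continuousOn (X.cU a b)

lemma cK (a b : ℝ) : ContinuousOn (X.K a b) Lh :=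
  (X.cUc a b).mul ((continuousOn_const.mul X.cA).add (continuousOn_const.mul X.cB))

lemma cL (a b : ℝ) : ContinuousOn (X.L a b) Lh := by
  apply (X.cU a b).mul
  apply ContinuousOn.add
  · apply ContinuousOn.add
    · exact (((continuousOn_const.mul X.cA).add (continuousOn_const.mul X.cB)).norm).pow 2
    · apply continuousOn_const.mul
      apply ContinuousOn.div (continuousOn_const.mul (X.cg1.norm.pow 2)) (X.cP.pow 2)
      intro w _; exact pow_ne_zero 2 (X.P_pos w).ne'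
  · apply continuousOn_const.mul
    apply ContinuousOn.div (continuousOn_const.mul (X.cf1.norm.pow 2)) (X.cQ.pow 2)
    intro w _; exact pow_ne_zero 2 (X.Q_pos w).ne'

lemma wP {w : ℂ} (hw : w ∈ Lh) : WR X.P (conj (X.g w) * X.g1 w) w := WR.sq (X.hg w hw) X.δ
lemma wQ {w : ℂ} (hw : w ∈ Lh) : WR X.Q (conj (X.f w) * X.f1 w) w := WR.sq (X.hf w hw) X.δ

lemma wU (a b : ℝ) {w : ℂ} (hw : w ∈ Lh) : WR (X.U a b) (X.K a b w) w := by
  have h := ((X.wP hw).rpow (X.P_pos w) a).mul ((X.wQ hw).rpow (X.Q_pos w) b)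
  have e : X.K a b w = ((a * X.P w ^ (a - 1) : ℝ) : ℂ) * (conj (X.g w) * X.g1 w) *
      ((X.Q w ^ b : ℝ) : ℂ) + ((X.P w ^ a : ℝ) : ℂ) * (((b * X.Q w ^ (b - 1) : ℝ) : ℂ) *
      (conj (X.f w) * X.f1 w)) := by
    have hP := X.P_ne w
    have hQ := X.Q_ne w
    unfold K U A B
    rw [Real.rpow_sub_one (X.P_pos w).ne', Real.rpow_sub_one (X.Q_pos w).ne']
    push_cast
    field_simp
  rw [e]
  exact h

/-- derivative of the inverse -/
lemma wInv {p : ℂ → ℝ} {k w : ℂ} (h : WR p k w) (hp : 0 < p w) :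
    WD (fun z => (p z : ℂ)⁻¹) (-k / (p w : ℂ) ^ 2) (-conj k / (p w : ℂ) ^ 2) w := by
  intro e
  have h1 := (h.ofReal e).inv (by
    simp only [ofReal_zero, zero_mul, add_zero]
    exact Complex.ofReal_ne_zero.2 hp.ne')
  have e2 : -k / (p w : ℂ) ^ 2 * e + -conj k / (p w : ℂ) ^ 2 * conj e =
      -(k * e + conj k * conj e) / (p (w + (0:ℝ) * e) : ℂ) ^ 2 := by
    simp only [ofReal_zero, zero_mul, add_zero]
    ring
  rw [e2]
  exact h1

noncomputable def A1 (w : ℂ) : ℂ := conj (X.g w) * X.g2 w / X.P w - X.A w ^ 2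
noncomputable def B1 (w : ℂ) : ℂ := conj (X.f w) * X.f2 w / X.Q w - X.B w ^ 2

lemma wAgen {g g1 : ℂ → ℂ} {g2 w : ℂ} {P : ℂ → ℝ} {δ : ℝ} (hg : HasDerivAt g (g1 w) w)
    (hg1 : HasDerivAt g1 g2 w) (hP : ∀ z, P z = ‖g z‖ ^ 2 + δ) (hPpos : 0 < P w) :
    WD (fun z => conj (g z) * g1 z / (P z : ℂ)) (conj (g w) * g2 / P w - (conj (g w) * g1 w / P w) ^ 2)
      (((δ * ‖g1 w‖ ^ 2 / P w ^ 2 : ℝ)) : ℂ) w := by
  have hPe : P = fun z => ‖g z‖ ^ 2 + δ := funext hP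
  have h1 : WR P (conj (g w) * g1 w) w := by rw [hPe]; exact WR.sq hg δ
  have h2 := wInv h1 hPpos
  have h3 := ((WD.cj (WD.holo hg)).mul (WD.holo hg1)).mul h2
  have hPne : (P w : ℂ) ≠ 0 := Complex.ofReal_ne_zero.2 hPpos.ne'
  have e1 : conj (g w) * g2 / P w - (conj (g w) * g1 w / P w) ^ 2 =
      (conj 0 * g1 w + conj (g w) * g2) * (P w : ℂ)⁻¹ + conj (g w) * g1 w *
        (-(conj (g w) * g1 w) / (P w : ℂ) ^ 2) := by
    rw [map_zero]; field_simp; ring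
  have e2 : (((δ * ‖g1 w‖ ^ 2 / P w ^ 2 : ℝ)) : ℂ) =
      (conj (g1 w) * g1 w + conj (g w) * 0) * (P w : ℂ)⁻¹ + conj (g w) * g1 w *
        (-conj (conj (g w) * g1 w) / (P w : ℂ) ^ 2) := by
    have hn1 : conj (g1 w) * g1 w = ((‖g1 w‖ ^ 2 : ℝ) : ℂ) := by
      rw [Complex.conj_mul']; push_cast; rfl
    have hn0 : conj (g w) * g w = ((‖g w‖ ^ 2 : ℝ) : ℂ) := by
      rw [Complex.conj_mul']; push_cast; rfl
    rw [map_mul, conj_conj]
    have e3 : conj (g w) * g1 w * (-(g w * conj (g1 w)) / (P w : ℂ) ^ 2) =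
        -((conj (g w) * g w) * (conj (g1 w) * g1 w)) / (P w : ℂ) ^ 2 := by ring
    rw [e3, hn1, hn0]
    have hP' : ((‖g w‖ ^ 2 : ℝ) : ℂ) = P w - δ := by rw [hP w]; push_cast; ring
    rw [hP']
    push_cast
    field_simp
    ring
  rw [e1, e2]
  exact h3

lemma wA {w : ℂ} (hw : w ∈ Lh) :
    WD X.A (X.A1 w) ((X.δ * ‖X.g1 w‖ ^ 2 / X.P w ^ 2 : ℝ) : ℂ) w :=
  wAgen (X.hg w hw) (X.hg1 w hw) (fun _ => rfl) (X.P_pos w)

lemma wB {w : ℂ} (hw : w ∈ Lh) :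
    WD X.B (X.B1 w) ((X.δ * ‖X.f1 w‖ ^ 2 / X.Q w ^ 2 : ℝ) : ℂ) w :=
  wAgen (X.hf w hw) (X.hf1 w hw) (fun _ => rfl) (X.Q_pos w)

noncomputable def K1 (a b : ℝ) (w : ℂ) : ℂ := X.K a b w * (a * X.A w + b * X.B w) +
  (X.U a b w : ℂ) * (a * X.A1 w + b * X.B1 w)

lemma wK (a b : ℝ) {w : ℂ} (hw : w ∈ Lh) : WD (X.K a b) (X.K1 a b w) (X.L a b w : ℂ) w := by
  have h := (X.wU a b hw).ofReal.mul
    (((WD.const (a:ℂ) w).mul (X.wA hw)).add ((WD.const (b:ℂ) w).mul (X.wB hw)))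
  have e1 : X.K1 a b w = X.K a b w * (a * X.A w + b * X.B w) + (X.U a b w : ℂ) *
      ((0 * X.A w + a * X.A1 w) + (0 * X.B w + b * X.B1 w)) := by
    unfold K1; ring
  have e2 : (X.L a b w : ℂ) = conj (X.K a b w) * (a * X.A w + b * X.B w) + (X.U a b w : ℂ) *
      ((0 * X.A w + a * ((X.δ * ‖X.g1 w‖ ^ 2 / X.P w ^ 2 : ℝ) : ℂ)) +
        (0 * X.B w + b * ((X.δ * ‖X.f1 w‖ ^ 2 / X.Q w ^ 2 : ℝ) : ℂ))) := by
    unfold L K
    rw [map_mul, Complex.conj_ofReal]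
    have : conj ((a:ℂ) * X.A w + b * X.B w) * (a * X.A w + b * X.B w) =
        ((‖(a:ℂ) * X.A w + b * X.B w‖ ^ 2 : ℝ) : ℂ) := by
      rw [Complex.conj_mul']; push_cast; rfl
    rw [mul_assoc, this]
    push_cast
    ring
  rw [e1, e2]
  exact h

end Dat

end Pool.Agent.R253.BE
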