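import Pool.Agent.R253.BE.Lap

set_option autoImplicit false

namespace Pool.Agent.R253.BE

open Complex Metric Set Filter Topology MeasureTheory ComplexConjugate

namespace Dat

variable (X : Dat)

lemma pP {w : ℂ} (hw : w ∈ Lh) : X.P (w + 2 * Real.pi * I) = X.P w := by
  unfold P; rw [X.pg w hw]
lemma pQ {w : ℂ} (hw : w ∈ Lh) : X.Q (w + 2 * Real.pi * I) = X.Q w := by
  unfold Q; rw [X.pf w hw]
lemma pU (a b : ℝ) {w : ℂ} (hw : w ∈ Lh) : X.U a b (w + 2 * Real.pi * I) = X.U a b w := by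
  unfold U; rw [X.pP hw, X.pQ hw]
lemma pK (a b : ℝ) {w : ℂ} (hw : w ∈ Lh) : X.K a b (w + 2 * Real.pi * I) = X.K a b w := by
  unfold K A B; rw [X.pU a b hw, X.pP hw, X.pQ hw, X.pg w hw, X.pf w hw, X.pg1 w hw, X.pf1 w hw]

lemma cA1 : ContinuousOn X.A1 Lh :=
  (((cconj X.cg).mul X.cg2).div X.cPc fun w _ => X.P_ne w).sub (X.cA.pow 2)
lemma cB1 : ContinuousOn X.B1 Lh :=
  (((cconj X.cf).mul X.cf2).div X.cQc fun w _ => X.Q_ne w).sub (X.cB.pow 2)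
lemma cK1 (a b : ℝ) : ContinuousOn (X.K1 a b) Lh :=
  ((X.cK a b).mul ((continuousOn_const.mul X.cA).add (continuousOn_const.mul X.cB))).add
    ((X.cUc a b).mul ((continuousOn_const.mul X.cA1).add (continuousOn_const.mul X.cB1)))

lemma WirU (a b : ℝ) : Wir (fun w => (X.U a b w : ℂ)) (X.K a b) (fun w => conj (X.K a b w)) where
  c0 := X.cUc a b
  c1 := X.cK a b
  c2 := cconj (X.cK a b)
  per := fun w hw => by rw [X.pU a b hw]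
  der := fun w hw => (X.wU a b hw).ofReal

lemma WirK (a b : ℝ) : Wir (X.K a b) (X.K1 a b) (fun w => (X.L a b w : ℂ)) where
  c0 := X.cK a b
  c1 := X.cK1 a b
  c2 := Complex.continuous_ofReal.comp_continuousOn (X.cL a b)
  per := fun w hw => X.pK a b hw
  der := fun w hw => X.wK a b hw

/-- `g ∂_w(ψ)`, `ψ = Q ^ c f̄` -/
noncomputable def N (c : ℝ) (w : ℂ) : ℂ :=
  (X.g w * ((c * X.Q w ^ (c - 1) : ℝ) : ℂ)) * (X.f1 w * (conj (X.f w) * conj (X.f w)))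

noncomputable def N1 (c : ℝ) (w : ℂ) : ℂ :=
  (X.g1 w * ((c * X.Q w ^ (c - 1) : ℝ) : ℂ) + X.g w * ((c * ((c - 1) * X.Q w ^ (c - 1 - 1)) : ℝ) *
    (conj (X.f w) * X.f1 w))) * (X.f1 w * (conj (X.f w) * conj (X.f w))) +
  (X.g w * ((c * X.Q w ^ (c - 1) : ℝ) : ℂ)) * (X.f2 w * (conj (X.f w) * conj (X.f w)))

noncomputable def N2 (c : ℝ) (w : ℂ) : ℂ :=
  X.g w * conj (X.f w) * ((c * X.Q w ^ (c - 1 - 1) * ‖X.f1 w‖ ^ 2 *
    ((c - 1) * ‖X.f w‖ ^ 2 + 2 * X.Q w) : ℝ) : ℂ)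

noncomputable def S (c : ℝ) (w : ℂ) : ℂ := (X.g w * ((X.Q w ^ c : ℝ) : ℂ)) * conj (X.f w)
noncomputable def S1 (c : ℝ) (w : ℂ) : ℂ :=
  (X.g1 w * ((X.Q w ^ c : ℝ) : ℂ)) * conj (X.f w) + X.N c w
noncomputable def S2 (c : ℝ) (w : ℂ) : ℂ :=
  (X.g w * (((c * X.Q w ^ (c - 1) : ℝ) : ℂ) * conj (conj (X.f w) * X.f1 w))) * conj (X.f w) +
    (X.g w * ((X.Q w ^ c : ℝ) : ℂ)) * conj (X.f1 w)

lemma wS (c : ℝ) {w : ℂ} (hw : w ∈ Lh) : WD (X.S c) (X.S1 c w) (X.S2 c w) w := by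
  have h := ((WD.holo (X.hg w hw)).mul ((X.wQ hw).rpow (X.Q_pos w) c).ofReal).mul
    (WD.cj (WD.holo (X.hf w hw)))
  have e1 : X.S1 c w = (X.g1 w * ((X.Q w ^ c : ℝ) : ℂ) + X.g w *
      (((c * X.Q w ^ (c - 1) : ℝ) : ℂ) * (conj (X.f w) * X.f1 w))) * conj (X.f w) +
      (X.g w * ((X.Q w ^ c : ℝ) : ℂ)) * conj 0 := by
    unfold S1 N; rw [map_zero]; ring
  have e2 : X.S2 c w = (0 * ((X.Q w ^ c : ℝ) : ℂ) + X.g w *
      conj (((c * X.Q w ^ (c - 1) : ℝ) : ℂ) * (conj (X.f w) * X.f1 w))) * conj (X.f w) +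
      (X.g w * ((X.Q w ^ c : ℝ) : ℂ)) * conj (X.f1 w) := by
    unfold S2
    rw [map_mul (starRingEnd ℂ) ((c * X.Q w ^ (c - 1) : ℝ) : ℂ) (conj (X.f w) * X.f1 w),
      Complex.conj_ofReal]; ring
  rw [e1, e2]
  exact h

lemma WR.const_mul' {p : ℂ → ℝ} {k w : ℂ} (h : WR p k w) (c : ℝ) :
    WR (fun z => c * p z) (c * k) w := by
  intro e
  have h1 := (h e).const_mul c
  have e2 : 2 * ((c:ℂ) * k * e).re = c * (2 * (k * e).re) := by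
    rw [mul_assoc, Complex.re_ofReal_mul]; ring
  rw [e2]
  exact h1

lemma wN (c : ℝ) {w : ℂ} (hw : w ∈ Lh) : WD (X.N c) (X.N1 c w) (X.N2 c w) w := by
  have hq := (WR.const_mul' ((X.wQ hw).rpow (X.Q_pos w) (c - 1)) c).ofReal
  have hcf := WD.cj (WD.holo (X.hf w hw))
  have h := ((WD.holo (X.hg w hw)).mul hq).mul ((WD.holo (X.hf1 w hw)).mul (hcf.mul hcf))
  have e1 : X.N1 c w = (X.g1 w * ((c * X.Q w ^ (c - 1) : ℝ) : ℂ) + X.g w *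
      ((c:ℂ) * ((((c - 1) * X.Q w ^ (c - 1 - 1) : ℝ) : ℂ) * (conj (X.f w) * X.f1 w)))) *
      (X.f1 w * (conj (X.f w) * conj (X.f w))) +
      (X.g w * ((c * X.Q w ^ (c - 1) : ℝ) : ℂ)) * (X.f2 w * (conj (X.f w) * conj (X.f w)) +
        X.f1 w * (conj 0 * conj (X.f w) + conj (X.f w) * conj 0)) := by
    unfold N1; rw [map_zero]; push_cast; ring
  have e2 : X.N2 c w = (0 * ((c * X.Q w ^ (c - 1) : ℝ) : ℂ) + X.g w *
      conj ((c:ℂ) * ((((c - 1) * X.Q w ^ (c - 1 - 1) : ℝ) : ℂ) * (conj (X.f w) * X.f1 w)))) *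
      (X.f1 w * (conj (X.f w) * conj (X.f w))) +
      (X.g w * ((c * X.Q w ^ (c - 1) : ℝ) : ℂ)) * (0 * (conj (X.f w) * conj (X.f w)) +
        X.f1 w * (conj (X.f1 w) * conj (X.f w) + conj (X.f w) * conj (X.f1 w))) := by
    have hn1 : X.f1 w * conj (X.f1 w) = ((‖X.f1 w‖ ^ 2 : ℝ) : ℂ) := by
      rw [Complex.mul_conj']; push_cast; rfl
    have hn0 : X.f w * conj (X.f w) = ((‖X.f w‖ ^ 2 : ℝ) : ℂ) := by
      rw [Complex.mul_conj']; push_cast; rfl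
    have hQ : X.Q w ^ (c - 1) = X.Q w ^ (c - 1 - 1) * X.Q w := by
      conv_rhs => rw [← Real.rpow_add_one (X.Q_pos w).ne']
      congr 1; ring
    unfold N2
    rw [map_mul, map_mul, map_mul, Complex.conj_ofReal, Complex.conj_ofReal, conj_conj, hQ]
    have e3 : (0 * ((c * (X.Q w ^ (c - 1 - 1) * X.Q w) : ℝ) : ℂ) + X.g w *
        ((c:ℂ) * ((((c - 1) * X.Q w ^ (c - 1 - 1) : ℝ) : ℂ) * (X.f w * conj (X.f1 w))))) *
        (X.f1 w * (conj (X.f w) * conj (X.f w))) +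
        (X.g w * ((c * (X.Q w ^ (c - 1 - 1) * X.Q w) : ℝ) : ℂ)) * (0 * (conj (X.f w) * conj (X.f w)) +
        X.f1 w * (conj (X.f1 w) * conj (X.f w) + conj (X.f w) * conj (X.f1 w))) =
        X.g w * conj (X.f w) * ((c:ℂ) * (X.Q w ^ (c - 1 - 1) : ℝ)) * ((((c:ℂ) - 1) *
          ((X.f w * conj (X.f w)) * (X.f1 w * conj (X.f1 w)))) +
          2 * (X.Q w : ℂ) * (X.f1 w * conj (X.f1 w))) := by
      push_cast
      ring
    rw [e3, hn1, hn0]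
    push_cast
    ring
  rw [e1, e2]
  exact h

lemma cQrc (a : ℝ) : ContinuousOn (fun w => ((X.Q w ^ a : ℝ) : ℂ)) Lh :=
  Complex.continuous_ofReal.comp_continuousOn (X.cQr a)

lemma cQrc' (c a : ℝ) : ContinuousOn (fun w => ((c * X.Q w ^ a : ℝ) : ℂ)) Lh :=
  Complex.continuous_ofReal.comp_continuousOn (continuousOn_const.mul (X.cQr a))

lemma cN (c : ℝ) : ContinuousOn (X.N c) Lh :=
  (X.cg.mul (X.cQrc' c (c - 1))).mul (X.cf1.mul ((cconj X.cf).mul (cconj X.cf)))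

lemma cN1 (c : ℝ) : ContinuousOn (X.N1 c) Lh := by
  have h1 : ContinuousOn (fun w => ((c * ((c - 1) * X.Q w ^ (c - 1 - 1)) : ℝ) : ℂ)) Lh :=
    Complex.continuous_ofReal.comp_continuousOn
      (continuousOn_const.mul (continuousOn_const.mul (X.cQr (c - 1 - 1))))
  exact (((X.cg1.mul (X.cQrc' c (c - 1))).add (X.cg.mul (h1.mul ((cconj X.cf).mul X.cf1)))).mul
    (X.cf1.mul ((cconj X.cf).mul (cconj X.cf)))).add
    ((X.cg.mul (X.cQrc' c (c - 1))).mul (X.cf2.mul ((cconj X.cf).mul (cconj X.cf))))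

lemma cN2 (c : ℝ) : ContinuousOn (X.N2 c) Lh := by
  apply (X.cg.mul (cconj X.cf)).mul
  apply Complex.continuous_ofReal.comp_continuousOn
  exact ((continuousOn_const.mul (X.cQr _)).mul (X.cf1.norm.pow 2)).mul
    ((continuousOn_const.mul (X.cf.norm.pow 2)).add (continuousOn_const.mul X.cQ))

lemma cS (c : ℝ) : ContinuousOn (X.S c) Lh := (X.cg.mul (X.cQrc c)).mul (cconj X.cf)
lemma cS1 (c : ℝ) : ContinuousOn (X.S1 c) Lh :=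
  ((X.cg1.mul (X.cQrc c)).mul (cconj X.cf)).add (X.cN c)
lemma cS2 (c : ℝ) : ContinuousOn (X.S2 c) Lh :=
  ((X.cg.mul ((X.cQrc' c (c - 1)).mul (cconj ((cconj X.cf).mul X.cf1)))).mul (cconj X.cf)).add
    ((X.cg.mul (X.cQrc c)).mul (cconj X.cf1))

lemma WirN (c : ℝ) : Wir (X.N c) (X.N1 c) (X.N2 c) where
  c0 := X.cN c
  c1 := X.cN1 c
  c2 := X.cN2 c
  per := fun w hw => by unfold N; rw [X.pQ hw, X.pg w hw, X.pf w hw, X.pf1 w hw]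
  der := fun w hw => X.wN c hw

lemma WirS (c : ℝ) : Wir (X.S c) (X.S1 c) (X.S2 c) where
  c0 := X.cS c
  c1 := X.cS1 c
  c2 := X.cS2 c
  per := fun w hw => by unfold S; rw [X.pQ hw, X.pg w hw, X.pf w hw]
  der := fun w hw => X.wS c hw

/-- the basic quantity dominating `N2` -/
noncomputable def D0 (β : ℝ) (w : ℂ) : ℝ :=
  X.U (1 / 2) β w * (‖X.B w‖ ^ 2 + X.δ * ‖X.f1 w‖ ^ 2 / X.Q w ^ 2)

lemma norm_N2_le (c : ℝ) (w : ℂ) :
    ‖X.N2 c w‖ ≤ |c| * (|c - 1| + 2) * X.D0 (c + 1 / 2) w := by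
  have hQ := X.Q_pos w
  have hP := X.P_pos w
  have hgP : ‖X.g w‖ ≤ X.P w ^ (1 / 2 : ℝ) := by
    rw [← Real.sqrt_eq_rpow]
    apply Real.le_sqrt_of_sq_le
    unfold P; have := X.hδ; linarith
  have hfQ : ‖X.f w‖ ≤ X.Q w ^ (1 / 2 : ℝ) := by
    rw [← Real.sqrt_eq_rpow]
    apply Real.le_sqrt_of_sq_le
    unfold Q; have := X.hδ; linarith
  have hB : ‖X.B w‖ ^ 2 + X.δ * ‖X.f1 w‖ ^ 2 / X.Q w ^ 2 = ‖X.f1 w‖ ^ 2 / X.Q w := by
    unfold B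
    rw [norm_div, norm_mul, RCLike.norm_conj, Complex.norm_real, Real.norm_eq_abs, abs_of_pos hQ]
    have hδ : X.δ = X.Q w - ‖X.f w‖ ^ 2 := by unfold Q; ring
    rw [hδ]
    field_simp
    ring
  unfold D0
  rw [hB]
  have e1 : ‖X.N2 c w‖ = ‖X.g w‖ * ‖X.f w‖ * (|c| * X.Q w ^ (c - 1 - 1) * ‖X.f1 w‖ ^ 2 *
      |(c - 1) * ‖X.f w‖ ^ 2 + 2 * X.Q w|) := by
    unfold N2
    rw [norm_mul, norm_mul, RCLike.norm_conj, Complex.norm_real, Real.norm_eq_abs, abs_mul, abs_mul,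
      abs_mul, abs_of_pos (Real.rpow_pos_of_pos hQ _), abs_of_nonneg (sq_nonneg ‖X.f1 w‖)]
  have e2 : |(c - 1) * ‖X.f w‖ ^ 2 + 2 * X.Q w| ≤ (|c - 1| + 2) * X.Q w := by
    refine (abs_add_le _ _).trans ?_
    rw [abs_mul, abs_mul, abs_of_nonneg (sq_nonneg ‖X.f w‖), abs_of_pos hQ,
      abs_of_pos (show (0:ℝ) < 2 by norm_num)]
    have h1 : ‖X.f w‖ ^ 2 ≤ X.Q w := by unfold Q; have := X.hδ; linarith
    have := mul_le_mul_of_nonneg_left h1 (abs_nonneg (c - 1))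
    linarith
  rw [e1]
  calc ‖X.g w‖ * ‖X.f w‖ * (|c| * X.Q w ^ (c - 1 - 1) * ‖X.f1 w‖ ^ 2 *
      |(c - 1) * ‖X.f w‖ ^ 2 + 2 * X.Q w|)
      ≤ X.P w ^ (1 / 2 : ℝ) * X.Q w ^ (1 / 2 : ℝ) * (|c| * X.Q w ^ (c - 1 - 1) * ‖X.f1 w‖ ^ 2 *
        ((|c - 1| + 2) * X.Q w)) := by gcongr
    _ = |c| * (|c - 1| + 2) * (X.P w ^ (1 / 2 : ℝ) * (X.Q w ^ (1 / 2 : ℝ) * X.Q w ^ (c - 1 - 1) *
        X.Q w ^ (2:ℝ)) * (‖X.f1 w‖ ^ 2 / X.Q w)) := by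
        rw [Real.rpow_two]; field_simp
    _ = _ := by
        rw [← Real.rpow_add hQ, ← Real.rpow_add hQ]
        unfold U
        congr 4
        ring

end Dat

end Pool.Agent.R253.BE
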