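import Mathlib

set_option autoImplicit false

namespace Pool.Agent.R253.BE

open Complex Metric Set Filter Topology MeasureTheory ComplexConjugate

/-- the left half-plane -/
def Lh : Set ℂ := {w | w.re < 0}

lemma isOpen_Lh : IsOpen Lh := isOpen_lt Complex.continuous_re continuous_const

/-- mean (not normalised) over a vertical period -/
noncomputable def mn (V : ℂ → ℂ) (τ : ℝ) : ℂ := ∫ t in (0:ℝ)..(2 * Real.pi), V (τ + t * I)

/-- `V1`, `V2` are the Wirtinger derivatives of `V` in `Lh`, all continuous -/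
structure Wir (V V1 V2 : ℂ → ℂ) : Prop where
  c0 : ContinuousOn V Lh
  c1 : ContinuousOn V1 Lh
  c2 : ContinuousOn V2 Lh
  per : ∀ w, w ∈ Lh → V (w + 2 * Real.pi * I) = V w
  der : ∀ w ∈ Lh, ∀ e : ℂ, HasDerivAt (fun s : ℝ => V (w + s * e)) (V1 w * e + V2 w * conj e) 0

lemma mem_Lh {τ : ℝ} (hτ : τ < 0) (t : ℝ) : ((τ : ℂ) + t * I) ∈ Lh := by
  simp [Lh, hτ]

lemma cont_line {V : ℂ → ℂ} (h : ContinuousOn V Lh) {τ : ℝ} (hτ : τ < 0) :
    Continuous fun t : ℝ => V (τ + t * I) := by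
  apply h.comp_continuous (by fun_prop)
  intro t; exact mem_Lh hτ t

/-- derivative in the horizontal direction -/
lemma Wir.der_re {V V1 V2 : ℂ → ℂ} (h : Wir V V1 V2) {τ : ℝ} (hτ : τ < 0) (t : ℝ) :
    HasDerivAt (fun x : ℝ => V (x + t * I)) (V1 (τ + t * I) + V2 (τ + t * I)) τ := by
  have h1 := h.der _ (mem_Lh hτ t) 1
  simp only [mul_one, map_one] at h1
  have h3 : HasDerivAt (fun s : ℝ => V ((τ:ℂ) + t * I + s)) (V1 (τ + t * I) + V2 (τ + t * I))
      (τ - τ) := by
    rw [sub_self]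
    exact h1
  have h4 := HasDerivAt.comp_sub_const τ τ h3
  refine h4.congr_of_eventuallyEq (Eventually.of_forall fun x => ?_)
  simp only
  congr 1
  push_cast
  ring

/-- derivative in the vertical direction -/
lemma Wir.der_im {V V1 V2 : ℂ → ℂ} (h : Wir V V1 V2) {τ : ℝ} (hτ : τ < 0) (t : ℝ) :
    HasDerivAt (fun y : ℝ => V (τ + y * I)) ((V1 (τ + t * I) - V2 (τ + t * I)) * I) t := by
  have h1 := h.der _ (mem_Lh hτ t) I
  rw [conj_I] at h1
  have h3 : HasDerivAt (fun s : ℝ => V ((τ:ℂ) + t * I + s * I))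
      (V1 (τ + t * I) * I + V2 (τ + t * I) * -I) (t - t) := by
    rw [sub_self]
    exact h1
  have h4 := HasDerivAt.comp_sub_const t t h3
  have e : V1 (τ + t * I) * I + V2 (τ + t * I) * -I = (V1 (τ + t * I) - V2 (τ + t * I)) * I := by ring
  rw [e] at h4
  refine h4.congr_of_eventuallyEq (Eventually.of_forall fun x => ?_)
  simp only
  congr 1
  push_cast
  ring

/-- the two Wirtinger derivatives have the same mean -/
lemma Wir.mn_eq {V V1 V2 : ℂ → ℂ} (h : Wir V V1 V2) {τ : ℝ} (hτ : τ < 0) : mn V1 τ = mn V2 τ := by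
  have h1 : ∫ t in (0:ℝ)..(2 * Real.pi), (V1 (τ + t * I) - V2 (τ + t * I)) * I =
      V (τ + (2 * Real.pi : ℝ) * I) - V (τ + (0:ℝ) * I) := by
    apply intervalIntegral.integral_eq_sub_of_hasDerivAt (f := fun t : ℝ => V (τ + t * I))
    · intro t _; exact h.der_im hτ t
    · apply Continuous.intervalIntegrable
      exact ((cont_line h.c1 hτ).sub (cont_line h.c2 hτ)).mul continuous_const
  have h2 : V (τ + (2 * Real.pi : ℝ) * I) = V (τ + (0:ℝ) * I) := by
    have := h.per _ (mem_Lh hτ 0)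
    rw [← this]
    congr 1
    push_cast; ring
  rw [h2, sub_self, intervalIntegral.integral_mul_const,
    intervalIntegral.integral_sub ((cont_line h.c1 hτ).intervalIntegrable _ _)
      ((cont_line h.c2 hτ).intervalIntegrable _ _)] at h1
  have h3 := (mul_eq_zero.1 h1).resolve_right I_ne_zero
  exact sub_eq_zero.1 h3

/-- the derivative of the mean -/
lemma Wir.hasDerivAt_mn {V V1 V2 : ℂ → ℂ} (h : Wir V V1 V2) {τ : ℝ} (hτ : τ < 0) :
    HasDerivAt (mn V) (2 * mn V2 τ) τ := by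
  have hdsum : 2 * mn V2 τ = ∫ t in (0:ℝ)..(2 * Real.pi), (V1 (τ + t * I) + V2 (τ + t * I)) := by
    rw [intervalIntegral.integral_add ((cont_line h.c1 hτ).intervalIntegrable _ _)
      ((cont_line h.c2 hτ).intervalIntegrable _ _)]
    have := h.mn_eq hτ
    unfold mn at this ⊢
    rw [this]; ring
  rw [hdsum]
  -- compact neighbourhood
  set S : Set (ℝ × ℝ) := Icc (2 * τ) (τ / 2) ×ˢ Icc 0 (2 * Real.pi) with hS
  have hScomp : IsCompact S := isCompact_Icc.prod isCompact_Icc
  have hcont : ContinuousOn (fun q : ℝ × ℝ => V1 ((q.1:ℂ) + q.2 * I) + V2 ((q.1:ℂ) + q.2 * I)) S := by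
    have hm : MapsTo (fun q : ℝ × ℝ => (q.1:ℂ) + q.2 * I) S Lh := by
      rintro ⟨x, y⟩ ⟨hx, _⟩
      apply mem_Lh
      have := hx.2
      simp only at this
      linarith
    have hc : ContinuousOn (fun q : ℝ × ℝ => (q.1:ℂ) + q.2 * I) S := by fun_prop
    exact (h.c1.comp hc hm).add (h.c2.comp hc hm)
  obtain ⟨C, hC⟩ := hScomp.exists_bound_of_continuousOn hcont
  have hball : ball τ (-τ / 2) ∈ 𝓝 τ := ball_mem_nhds _ (by linarith)
  have key := intervalIntegral.hasDerivAt_integral_of_dominated_loc_of_deriv_le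
    (μ := volume) (a := 0) (b := 2 * Real.pi) (F := fun (x : ℝ) (t : ℝ) => V (x + t * I))
    (F' := fun (x : ℝ) (t : ℝ) => V1 (x + t * I) + V2 (x + t * I)) (x₀ := τ) (s := ball τ (-τ / 2))
    (bound := fun _ => C) hball ?_ ?_ ?_ ?_ ?_ ?_
  · exact key.2
  · filter_upwards [gt_mem_nhds hτ] with x hx
    exact (cont_line h.c0 hx).aestronglyMeasurable
  · exact (cont_line h.c0 hτ).intervalIntegrable _ _
  · exact ((cont_line h.c1 hτ).add (cont_line h.c2 hτ)).aestronglyMeasurable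
  · apply Eventually.of_forall
    intro t ht x hx
    rw [uIoc_of_le (by positivity)] at ht
    have hx' := abs_lt.1 (by simpa [Real.dist_eq] using hx : |x - τ| < -τ / 2)
    exact hC (x, t) ⟨⟨by linarith [hx'.1], by linarith [hx'.2]⟩, ⟨ht.1.le, ht.2⟩⟩
  · exact intervalIntegrable_const
  · apply Eventually.of_forall
    intro t _ x hx
    have hx' := abs_lt.1 (by simpa [Real.dist_eq] using hx : |x - τ| < -τ / 2)
    exact h.der_re (by linarith [hx'.2]) t

end Pool.Agent.R253.BE
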