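import Pool.Agent.R253.BE.EL

set_option autoImplicit false

namespace Pool.Agent.R253.BE

open Complex Metric Set Filter Topology MeasureTheory ComplexConjugate

/-- transfer of the dilation between the two factors -/
lemma transfer {A B : ℂ → ℂ} {ρ : ℝ} (hA : DifferentiableOn ℂ A (ball 0 ρ))
    (hB : DifferentiableOn ℂ B (ball 0 1)) {r R c : ℝ} (hr : 0 < r) (hrR : r ≤ R) (hR : R < ρ)
    (hc0 : 0 < c) (hc : c / r < 1) :
    ∫ θ in (0:ℝ)..(2 * Real.pi), A (circleMap 0 R θ) * conj (B (circleMap 0 (c / R) θ)) =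
      ∫ θ in (0:ℝ)..(2 * Real.pi), A (circleMap 0 r θ) * conj (B (circleMap 0 (c / r) θ)) := by
  set f : ℂ → ℂ := fun z => A z * conj (B (conj ((c:ℂ) / z))) with hf
  have hmemA : ∀ z : ℂ, ‖z‖ ≤ R → z ∈ ball (0:ℂ) ρ := by
    intro z hz; rw [mem_ball_zero_iff]; exact lt_of_le_of_lt hz hR
  have hmemB : ∀ z : ℂ, r ≤ ‖z‖ → (c:ℂ) / z ∈ ball (0:ℂ) 1 := by
    intro z hz
    rw [mem_ball_zero_iff, norm_div, Complex.norm_real, Real.norm_eq_abs, abs_of_pos hc0]
    refine lt_of_le_of_lt ?_ hc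
    exact div_le_div_of_nonneg_left hc0.le hr hz
  have hconj : ∀ z : ℂ, z ∈ ball (0:ℂ) 1 → conj z ∈ ball (0:ℂ) 1 := by
    intro z hz
    rw [mem_ball_zero_iff] at hz ⊢
    rwa [RCLike.norm_conj]
  have hd : ∀ z : ℂ, r ≤ ‖z‖ → ‖z‖ ≤ R → DifferentiableAt ℂ f z := by
    intro z h1 h2
    have hz0 : z ≠ 0 := by
      intro h; rw [h, norm_zero] at h1; linarith
    have hA1 : DifferentiableAt ℂ A z := hA.differentiableAt (isOpen_ball.mem_nhds (hmemA z h2))
    have hB1 : DifferentiableAt ℂ B (conj ((c:ℂ) / z)) :=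
      hB.differentiableAt (isOpen_ball.mem_nhds (hconj _ (hmemB z h1)))
    have hB2 := hB1.conj_conj
    rw [conj_conj] at hB2
    have hdiv : DifferentiableAt ℂ (fun z : ℂ => (c:ℂ) / z) z :=
      (differentiableAt_const _).div differentiableAt_id hz0
    have hB3 : DifferentiableAt ℂ (fun z => (⇑(starRingEnd ℂ) ∘ B ∘ ⇑(starRingEnd ℂ)) ((c:ℂ) / z)) z :=
      DifferentiableAt.comp (g := ⇑(starRingEnd ℂ) ∘ B ∘ ⇑(starRingEnd ℂ))
        (f := fun z : ℂ => (c:ℂ) / z) z hB2 hdiv
    exact hA1.mul hB3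
  have key := circleIntegral_sub_center_inv_smul_eq_of_differentiable_on_annulus_off_countable
    (c := 0) (f := f) hr hrR countable_empty (by
      intro z hz
      have h1 : ‖z‖ ≤ R := by simpa using hz.1
      have h2 : r ≤ ‖z‖ := by simpa using hz.2
      exact (hd z h2 h1).continuousAt.continuousWithinAt) (by
      intro z hz
      have h1 : ‖z‖ < R := by simpa using hz.1.1
      have h2 : r < ‖z‖ := by simpa using hz.1.2
      exact hd z h2.le h1.le)
  have conv : ∀ R' : ℝ, 0 < R' → (∮ z in C(0, R'), (z - 0)⁻¹ • f z) = I *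
      ∫ θ in (0:ℝ)..(2 * Real.pi), A (circleMap 0 R' θ) * conj (B (circleMap 0 (c / R') θ)) := by
    intro R' hR'
    unfold circleIntegral
    rw [← intervalIntegral.integral_const_mul]
    congr 1
    ext θ
    have hne : circleMap 0 R' θ ≠ 0 := circleMap_ne_center hR'.ne'
    simp only [hf]
    rw [deriv_circleMap, sub_zero, smul_eq_mul, smul_eq_mul]
    have e1 : conj ((c:ℂ) / circleMap 0 R' θ) = circleMap 0 (c / R') θ := by
      simp only [circleMap, zero_add]
      rw [map_div₀, map_mul, Complex.conj_ofReal, Complex.conj_ofReal, ← Complex.exp_conj, map_mul,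
        Complex.conj_ofReal, Complex.conj_I]
      have hR'' : (R' : ℂ) ≠ 0 := Complex.ofReal_ne_zero.2 hR'.ne'
      rw [mul_neg, Complex.exp_neg]
      push_cast
      field_simp
    rw [e1]
    field_simp
  rw [conv R (lt_of_lt_of_le hr hrR), conv r hr] at key
  exact mul_left_cancel₀ I_ne_zero key

/-- Green's formula on a disc -/
lemma pair_R {G k : ℂ → ℂ} (hG : DifferentiableOn ℂ G (ball 0 1))
    (hk : DifferentiableOn ℂ k (ball 0 1)) {R : ℝ} (hR0 : 0 < R) (hR1 : R < 1) :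
    ∫ z in ball (0:ℂ) R, (G z + z * deriv G z) * conj (k z) =
      1 / 2 * (((R ^ 2 : ℝ) : ℂ) * ∫ θ in (0:ℝ)..(2 * Real.pi),
        G (circleMap 0 R θ) * conj (k (circleMap 0 R θ))) := by
  set X : Dat := mkDat hG hk one_pos with hX
  have hlim : Lim X := mkDat_lim hG hk one_pos
  set τ : ℝ := Real.log R with hτd
  have hτ : τ < 0 := Real.log_neg hR0 hR1
  have hexp : Real.exp τ = R := Real.exp_log hR0
  have key := Dat.est_key hlim (Dat.pk hlim 0 0) (c := 0) le_rfl (by
    intro w _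
    unfold Dat.N2
    simp) (fun w _ => (X.U_pos 0 0 w).le)
    (j := fun τ : ℝ => ∫ z in ball (0:ℂ) (Real.exp τ), Ph G k 1 0 z)
    (fun τ hτ => area_deriv (cPh hG hk one_pos 0) hτ) (area_lim (cPh hG hk one_pos 0)) hτ
  rw [zero_div, zero_mul] at key
  have h2 := sub_eq_zero.1 (norm_le_zero_iff.1 key)
  simp only [hexp] at h2
  have e1 : ∀ z, Ph G k 1 0 z = (G z + z * deriv G z) * conj (k z) := by
    intro z; unfold Ph; rw [Real.rpow_zero, Complex.ofReal_one, mul_one]
  simp only [e1] at h2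
  rw [h2]
  have e2 : Real.exp (2 * τ) = R ^ 2 := by
    rw [two_mul, Real.exp_add, hexp, sq]
  have e3 : mn (X.S 0) τ = ∫ θ in (0:ℝ)..(2 * Real.pi),
        G (circleMap 0 R θ) * conj (k (circleMap 0 R θ)) := by
    have := mn_exp (fun z => G z * conj (k z)) τ
    rw [hexp] at this
    rw [← this]
    congr 1
    ext w
    unfold Dat.S
    rw [Real.rpow_zero, Complex.ofReal_one, mul_one]
    rfl
  rw [e2, e3]

/-- radii tending to one -/
noncomputable def Rn (n : ℕ) : ℝ := 1 - 1 / ((n : ℝ) + 2)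

lemma Rn_pos (n : ℕ) : 0 < Rn n := by
  unfold Rn
  have : (0:ℝ) < (n:ℝ) + 2 := by positivity
  rw [sub_pos, div_lt_one this]; linarith [show (0:ℝ) ≤ n from Nat.cast_nonneg n]

lemma Rn_lt (n : ℕ) : Rn n < 1 := by
  unfold Rn
  have : (0:ℝ) < 1 / ((n:ℝ) + 2) := by positivity
  linarith

lemma Rn_mono : Monotone Rn := by
  intro m n h
  unfold Rn
  have h1 : (m:ℝ) ≤ n := by exact_mod_cast h
  have : 1 / ((n:ℝ) + 2) ≤ 1 / ((m:ℝ) + 2) := one_div_le_one_div_of_le (by positivity) (by linarith)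
  linarith

lemma Rn_lim : Tendsto Rn atTop (𝓝 1) := by
  have h : Tendsto (fun n : ℕ => 1 / ((n:ℝ) + 2)) atTop (𝓝 0) := by
    have := tendsto_one_div_add_atTop_nhds_zero_nat (𝕜 := ℝ)
    have h2 := (tendsto_add_atTop_iff_nat 1).2 this
    refine h2.congr fun n => ?_
    push_cast; ring
  have := h.const_sub 1
  rw [sub_zero] at this
  exact this

lemma iUnion_ball : (⋃ n, ball (0:ℂ) (Rn n)) = ball 0 1 := by
  ext z
  simp only [mem_iUnion, mem_ball_zero_iff]
  constructor
  · rintro ⟨n, h⟩; exact h.trans (Rn_lt n)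
  · intro h
    obtain ⟨n, hn⟩ := (Rn_lim.eventually (lt_mem_nhds h)).exists
    exact ⟨n, hn⟩

lemma lim_ball {f : ℂ → ℂ} (hf : IntegrableOn f (ball 0 1)) :
    Tendsto (fun n => ∫ z in ball (0:ℂ) (Rn n), f z) atTop (𝓝 (∫ z in ball (0:ℂ) 1, f z)) := by
  have h := tendsto_setIntegral_of_monotone (μ := volume) (f := f) (s := fun n => ball (0:ℂ) (Rn n))
    (fun _ => measurableSet_ball) (fun m n h => ball_subset_ball (Rn_mono h)) (by
      rw [iUnion_ball]; exact hf)
  rw [iUnion_ball] at h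
  exact h

/-- continuity in the radius -/
lemma continuousAt_circle' {V : ℂ → ℂ} (hV : ContinuousOn V (ball 0 1)) {a : ℝ → ℂ}
    (ha : Continuous a) {r : ℝ} (h0 : 0 ≤ r) (h1 : r < 1) :
    ContinuousAt (fun ρ : ℝ => ∫ θ in (0:ℝ)..(2 * Real.pi), a θ * V (circleMap 0 ρ θ)) r := by
  set R : ℝ := (r + 1) / 2 with hR
  have hR1 : R < 1 := by rw [hR]; linarith
  have hrR : r < R := by rw [hR]; linarith
  have hsub : closedBall (0:ℂ) R ⊆ ball 0 1 := closedBall_subset_ball hR1
  obtain ⟨C, hC⟩ := (isCompact_closedBall (0:ℂ) R).exists_bound_of_continuousOn (hV.mono hsub)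
  have hev : ∀ᶠ ρ in 𝓝 r, |ρ| < R := by
    have : ContinuousAt (fun ρ : ℝ => |ρ|) r := continuous_abs.continuousAt
    apply this.eventually_lt continuousAt_const
    rw [abs_of_nonneg h0]; exact hrR
  have hmem : ∀ ρ : ℝ, |ρ| < R → ∀ θ : ℝ, circleMap 0 ρ θ ∈ closedBall (0:ℂ) R := by
    intro ρ hρ θ
    rw [mem_closedBall_zero_iff, norm_circleMap_zero]
    exact hρ.le
  apply intervalIntegral.continuousAt_of_dominated_interval (bound := fun θ => ‖a θ‖ * C)
  · filter_upwards [hev] with ρ hρ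
    apply Continuous.aestronglyMeasurable
    exact ha.mul (hV.comp_continuous (continuous_circleMap 0 ρ) fun θ => hsub (hmem ρ hρ θ))
  · filter_upwards [hev] with ρ hρ
    exact Eventually.of_forall fun θ _ => by
      rw [norm_mul]
      exact mul_le_mul_of_nonneg_left (hC _ (hmem ρ hρ θ)) (norm_nonneg _)
  · exact (ha.norm.mul continuous_const).intervalIntegrable _ _
  · apply Eventually.of_forall
    intro θ _
    have hr : circleMap 0 r θ ∈ ball (0:ℂ) 1 :=
      hsub (hmem r (by rw [abs_of_nonneg h0]; exact hrR) θ)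
    have h2 : ContinuousAt V (circleMap 0 r θ) := hV.continuousAt (isOpen_ball.mem_nhds hr)
    have h3 : ContinuousAt (fun ρ : ℝ => circleMap 0 ρ θ) r := by
      unfold circleMap; fun_prop
    exact continuousAt_const.mul (ContinuousAt.comp (f := fun ρ : ℝ => circleMap 0 ρ θ) (g := V) h2 h3)

lemma cont_circ {G : ℂ → ℂ} {ρ : ℝ} (hG : ContinuousOn G (ball 0 ρ)) {R : ℝ} (h0 : 0 ≤ R)
    (h1 : R < ρ) : Continuous fun θ : ℝ => G (circleMap 0 R θ) := by
  apply hG.comp_continuous (continuous_circleMap 0 R)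
  intro θ
  rw [mem_ball_zero_iff, norm_circleMap_zero, abs_of_nonneg h0]
  exact h1

/-- the dilation of `G` -/
def dil (G : ℂ → ℂ) (r : ℝ) (z : ℂ) : ℂ := G (r * z)

lemma dil_diff {G : ℂ → ℂ} {ρ : ℝ} (hρ : 1 < ρ) (hG : DifferentiableOn ℂ G (ball 0 ρ)) {r : ℝ}
    (h0 : 0 < r) (h1 : r < 1) : DifferentiableOn ℂ (dil G r) (ball 0 ρ) := by
  intro z hz
  rw [mem_ball_zero_iff] at hz
  have hmem : (r:ℂ) * z ∈ ball (0:ℂ) ρ := by
    rw [mem_ball_zero_iff, norm_mul, Complex.norm_real, Real.norm_eq_abs, abs_of_pos h0]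
    nlinarith [norm_nonneg z]
  have h2 : DifferentiableAt ℂ G (r * z) := hG.differentiableAt (isOpen_ball.mem_nhds hmem)
  have h3 : DifferentiableAt ℂ (fun z : ℂ => (r:ℂ) * z) z := by fun_prop
  exact (DifferentiableAt.comp z h2 h3).differentiableWithinAt

lemma dil_circle (G : ℂ → ℂ) (r R θ : ℝ) :
    dil G r (circleMap 0 R θ) = G (circleMap 0 (r * R) θ) := by
  unfold dil circleMap
  congr 1
  push_cast
  ring

/-- boundedness on the unit disc of the test function -/
lemma bdd_test {G : ℂ → ℂ} {ρ : ℝ} (hρ : 1 < ρ) (hG : DifferentiableOn ℂ G (ball 0 ρ)) :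
    ∃ M : ℝ, ∀ z ∈ ball (0:ℂ) 1, ‖G z + z * deriv G z‖ ≤ M := by
  have hc : ContinuousOn (fun z => G z + z * deriv G z) (closedBall 0 1) :=
    (hG.continuousOn.add (continuousOn_id.mul (hG.deriv isOpen_ball).continuousOn)).mono
      (closedBall_subset_ball hρ)
  obtain ⟨M, hM⟩ := (isCompact_closedBall (0:ℂ) 1).exists_bound_of_continuousOn hc
  exact ⟨M, fun z hz => hM z (ball_subset_closedBall hz)⟩

/-- the pairing of an integrable holomorphic kernel with a test function -/
lemma pair_full {G k : ℂ → ℂ} {ρ : ℝ} (hρ : 1 < ρ) (hG : DifferentiableOn ℂ G (ball 0 ρ))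
    (hk : DifferentiableOn ℂ k (ball 0 1)) (hki : IntegrableOn k (ball 0 1)) {r : ℝ}
    (h0 : 0 < r) (h1 : r < 1) :
    ∫ z in ball (0:ℂ) 1, (dil G r z + z * deriv (dil G r) z) * conj (k z) =
      1 / 2 * ∫ θ in (0:ℝ)..(2 * Real.pi), G (circleMap 0 1 θ) * conj (k (circleMap 0 r θ)) := by
  have hGr := dil_diff hρ hG h0 h1
  have hsub : ball (0:ℂ) 1 ⊆ ball 0 ρ := ball_subset_ball hρ.le
  obtain ⟨M, hM⟩ := bdd_test hρ hGr
  have hint : IntegrableOn (fun z => (dil G r z + z * deriv (dil G r) z) * conj (k z)) (ball 0 1) := by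
    apply Integrable.mono' (g := fun z => M * ‖k z‖)
    · exact hki.norm.const_mul M
    · apply AEStronglyMeasurable.mul
      · apply ContinuousOn.aestronglyMeasurable _ measurableSet_ball
        exact (hGr.continuousOn.add (continuousOn_id.mul (hGr.deriv isOpen_ball).continuousOn)).mono
          hsub
      · exact Complex.continuous_conj.comp_aestronglyMeasurable hki.aestronglyMeasurable
    · filter_upwards [ae_restrict_mem measurableSet_ball] with z hz
      rw [norm_mul, RCLike.norm_conj]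
      exact mul_le_mul_of_nonneg_right (hM z hz) (norm_nonneg _)
  have hl := lim_ball hint
  have ha : Continuous fun θ : ℝ => G (circleMap 0 1 θ) := cont_circ hG.continuousOn zero_le_one hρ
  have hkc : ContinuousOn (fun z => conj (k z)) (ball 0 1) :=
    Complex.continuous_conj.comp_continuousOn hk.continuousOn
  have hc := continuousAt_circle' hkc ha h0.le h1
  have hrn : Tendsto (fun n => r * Rn n ^ 2) atTop (𝓝 r) := by
    have := (Rn_lim.pow 2).const_mul r
    simpa using this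
  have hr2 : Tendsto (fun n => 1 / 2 * (((Rn n ^ 2 : ℝ) : ℂ) * ∫ θ in (0:ℝ)..(2 * Real.pi),
      G (circleMap 0 1 θ) * conj (k (circleMap 0 (r * Rn n ^ 2) θ)))) atTop
      (𝓝 (1 / 2 * (((1 : ℝ) : ℂ) * ∫ θ in (0:ℝ)..(2 * Real.pi),
      G (circleMap 0 1 θ) * conj (k (circleMap 0 r θ))))) := by
    apply Tendsto.const_mul
    apply Tendsto.mul
    · have h3 : Tendsto (fun n => Rn n ^ 2) atTop (𝓝 1) := by
        have := Rn_lim.pow 2
        simpa using this
      exact (Complex.continuous_ofReal.tendsto 1).comp h3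
    · exact hc.tendsto.comp hrn
  rw [Complex.ofReal_one, one_mul] at hr2
  refine tendsto_nhds_unique hl (hr2.congr fun n => ?_)
  rw [pair_R (hGr.mono hsub) hk (Rn_pos n) (Rn_lt n)]
  congr 2
  simp only [dil_circle]
  have hRn := Rn_pos n
  have hRn1 := Rn_lt n
  have h4 := transfer (A := G) (B := k) hG hk (r := r * Rn n) (R := 1) (c := r * Rn n ^ 2)
    (by positivity) (by nlinarith) hρ (by positivity) (by
      have : r * Rn n ^ 2 / (r * Rn n) = Rn n := by field_simp
      rw [this]; exact hRn1)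
  have e : r * Rn n ^ 2 / (r * Rn n) = Rn n := by field_simp
  rw [e, div_one] at h4
  exact h4

end Pool.Agent.R253.BE
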